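import Mathlib
import Pool.Agent.Helper11.Gon.Basic
import Pool.Agent.Helper11.Gon.Five

set_option autoImplicit false

/-!
# Suslin rigidity by an elementary argument: definitions

`FV F W`: five-term functions on a field `F` with values in a rational vector space `W`.
`Sm S A`: the polynomial `A` is `0` or a product of constants and of elements of `S`.
`Adm S d`: `S` is a set of monic irreducible polynomials of degree at most `d`, containing all
those of degree less than `d`.
`Van S f N`: the five-term function `f` vanishes at `A / B` if `A + C = B` and `A`, `B`, `C` are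
in `Sm S`, `A` and `B` of degree at most `N`.
`Pl K k`: a monic irreducible polynomial `P` with a surjection `K[t] → k` with kernel `(P)`.
`Sec p`: a section `x ↦ a(x) / b(x)` of the reduction, `deg a ≤ d / 2`, `deg b ≤ (d - 1) / 2`.
-/

noncomputable section

open Polynomial
open scoped Classical
open Helper11.Gon

namespace SRG

universe u v w

/-- A function on `F` satisfying the five-term relation. -/
structure FV (F : Type u) [Field F] (W : Type w) [AddCommGroup W] where
  g : F → W
  zero : g 0 = 0
  one : g 1 = 0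
  inv : ∀ x, g x⁻¹ = - g x
  sub : ∀ x, g (1 - x) = - g x
  five : ∀ x y : F, x ≠ 0 → x ≠ 1 → y ≠ 0 → y ≠ 1 → x ≠ y →
    g x - g y + g (y / x) - g ((1 - x⁻¹) / (1 - y⁻¹)) + g ((1 - x) / (1 - y)) = 0

section
variable {K : Type u} [Field K] {W : Type w} [AddCommGroup W] [Module ℚ W]

/-- The value at `A / B`. -/
def G (f : FV (RatFunc K) W) (A B : K[X]) : W :=
  f.g (algebraMap K[X] (RatFunc K) A / algebraMap K[X] (RatFunc K) B)

/-- The class of a nonzero polynomial in the additively written group `K(t)^*`. -/
def pl (A : K[X]) : Additive (RatFunc K)ˣ := lg (algebraMap K[X] (RatFunc K) A)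

/-- `A` is `0` or all its monic irreducible divisors are in `S`. -/
def Sm (S : Set K[X]) (A : K[X]) : Prop :=
  A = 0 ∨ ∀ Q : K[X], Q.Monic → Irreducible Q → Q ∣ A → Q ∈ S

/-- Sets of monic irreducible polynomials between degree `d - 1` and degree `d`. -/
structure Adm (S : Set K[X]) (d : ℕ) : Prop where
  monic : ∀ Q ∈ S, Q.Monic
  irr : ∀ Q ∈ S, Irreducible Q
  le : ∀ Q ∈ S, Q.natDegree ≤ d
  small : ∀ Q : K[X], Q.Monic → Irreducible Q → Q.natDegree < d → Q ∈ S

/-- `f` vanishes at the smooth elements of height at most `N`. -/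
def Van (S : Set K[X]) (f : FV (RatFunc K) W) (N : ℕ) : Prop :=
  ∀ A B C : K[X], A + C = B → Sm S A → Sm S B → Sm S C →
    A.natDegree ≤ N → B.natDegree ≤ N → G f A B = 0

/-- The height `N_0(d) = d - 1 + ⌈3 (⌊d/2⌋ + 1) / 2⌉`. -/
def N0 (d : ℕ) : ℕ := d - 1 + (3 * (d / 2 + 1) + 1) / 2

/-- The five-term function `x ↦ f(x) - ω(1 - x, x)`. -/
def FV.tw {F : Type u} [Field F] (f : FV F W) (o : AF F W) : FV F W where
  g := fun x => f.g x + o.St x
  zero := by simp [f.zero, AF.St]
  one := by simp [f.one, AF.St]
  inv := by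
    intro x
    rw [f.inv, o.St_inv, neg_add]
  sub := by
    intro x
    have h : o.St (1 - x) = - o.St x := by
      rw [AF.St, AF.St, sub_sub_cancel]
      exact o.swap _ _
    rw [f.sub, h, neg_add]
  five := by
    intro x y hx hx1 hy hy1 hxy
    have h1 := f.five x y hx hx1 hy hy1 hxy
    have h2 := o.five hx hx1 hy hy1 hxy
    linear_combination (norm := module) h1 + h2

end

/-- The difference of two five-term functions. -/
def FV.diff {F : Type u} [Field F] {W : Type w} [AddCommGroup W] [Module ℚ W]
    (f f' : FV F W) : FV F W where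
  g := fun x => f.g x - f'.g x
  zero := by simp [f.zero, f'.zero]
  one := by simp [f.one, f'.one]
  inv := by
    intro x
    rw [f.inv, f'.inv, neg_sub_neg, neg_sub]
  sub := by
    intro x
    rw [f.sub, f'.sub, neg_sub_neg, neg_sub]
  five := by
    intro x y hx hx1 hy hy1 hxy
    have h1 := f.five x y hx hx1 hy hy1 hxy
    have h2 := f'.five x y hx hx1 hy hy1 hxy
    linear_combination (norm := module) h1 - h2

/-- A closed point of the line over `K` with residue field `k`. -/
structure Pl (K : Type u) [Field K] (k : Type v) [Field k] where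
  P : K[X]
  monic : P.Monic
  irr : Irreducible P
  r : K[X] →+* k
  surj : Function.Surjective r
  ker : ∀ A : K[X], r A = 0 ↔ P ∣ A

/-- The degree of a closed point. -/
def Pl.d {K : Type u} [Field K] {k : Type v} [Field k] (p : Pl K k) : ℕ := p.P.natDegree

/-- A section `x ↦ a(x) / b(x)` of the reduction modulo `P` by fractions of small height. -/
structure Sec {K : Type u} [Field K] {k : Type v} [Field k] (p : Pl K k) where
  a : k → K[X]
  b : k → K[X]
  a_ne : ∀ x : k, x ≠ 0 → a x ≠ 0
  b_ne : ∀ x : k, x ≠ 0 → b x ≠ 0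
  a_deg : ∀ x : k, (a x).natDegree ≤ p.d / 2
  b_deg : ∀ x : k, (b x).natDegree ≤ (p.d - 1) / 2
  eq : ∀ x : k, x ≠ 0 → p.r (a x) = x * p.r (b x)

section
variable {K : Type u} [Field K] {W : Type w} [AddCommGroup W] [Module ℚ W]
  {k : Type v} [Field k] {p : Pl K k}

/-- The cocycle `c(x, y) = f(s(x) s(y) / s(x y))` of the section `s = a / b`. -/
def Sec.c (s : Sec p) (f : FV (RatFunc K) W) (x y : k) : W :=
  G f (s.a x * s.a y * s.b (x * y)) (s.b x * s.b y * s.a (x * y))

/-- The value of `f` at `Y / s(Y)`. -/
def Sec.kk (s : Sec p) (f : FV (RatFunc K) W) (Y : K[X]) : W :=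
  G f (Y * s.b (p.r Y)) (s.a (p.r Y))

/-- The data for the description of `f` near `P`: `h` is a function on `k^*` with
`c(x, y) = h(x) + h(y) - h(x y)`, and `L` is additive on `K(t)^*` with `L(C c) = h(c)` for
constants `c` and `L(Q) = h(Q) + f(Q / s(Q))` for the other monic irreducible `Q`. -/
structure LData (s : Sec p) (f : FV (RatFunc K) W) where
  h : k → W
  L : Additive (RatFunc K)ˣ →+ W
  hc : ∀ x y : k, x ≠ 0 → y ≠ 0 → s.c f x y = h x + h y - h (x * y)
  hC : ∀ c : K, c ≠ 0 → L (pl (C c)) = h (p.r (C c))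
  hP : L (pl p.P) = 0
  hQ : ∀ Q : K[X], Q.Monic → Irreducible Q → Q ≠ p.P → L (pl Q) = h (p.r Q) + s.kk f Q

end

end SRG
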