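import Pool.Agent.SRG.R2
import Pool.Agent.Helper18.W4.Star

set_option autoImplicit false

/-!
# SRG-24b: five-term functions are the linear functions on `B_2`

`lin_of_fv`: `ex ψ` factors through `B 2 K = ZP K ⧸ R 2 K` (`ex_R2`) and then through
`Cx 2 0 K = ℚ ⊗ (B 2 K ⊗ Λ⁰)`; `bb x` is the class of `{x}` (`Helper18.W4.Star`).
`fv_of_lin`: `ψ.g x = θ (bb (some x))`: `bb_zero`, `bb_one`, `bb_inv`, `bb_sub`, and the five-term
relation: over `K(t)` the combination with `x` replaced by `t` and `y` by `C y` has `dT 0 = 0`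
(`dT_bb`, as in the proof of `bb_five`; or use `bb_five` and specialise), so it is constant
(`bb_const`); specialise at `t = y` (or at `0`) to see that it is `0`, then at `t = x`
(`sC_bb`).
-/

noncomputable section

open Polynomial
open scoped Classical

namespace SRG

universe u v w

variable {K : Type u} [Field K] {W : Type w} [AddCommGroup W] [Module ℚ W]

theorem lin_of_fv (ψ : FV K W) : ∃ θ : Helper14.Gon.Cx 2 0 K →ₗ[ℚ] W,
    ∀ x : K, θ (Helper14.W4.bb (some x)) = ψ.g x := by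
  refine ⟨Helper14.W4.liftC (QuotientAddGroup.lift (Helper14.Gon.R 2 K)
    (AddMonoidHom.mk' (fun α => (Helper14.W4.e0 K).smulRight (ex ψ α)) ?_) ?_), fun x => ?_⟩
  · intro a b
    refine LinearMap.ext fun z => ?_
    rw [LinearMap.add_apply, LinearMap.smulRight_apply, LinearMap.smulRight_apply,
      LinearMap.smulRight_apply, map_add, smul_add]
  · intro β hβ
    refine LinearMap.ext fun z => ?_
    change (Helper14.W4.e0 K z) • (ex ψ β) = 0
    rw [ex_R2 ψ hβ, smul_zero]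
  · rw [Helper14.W4.bb, Helper14.W4.liftC_PB]
    change (Helper14.W4.e0 K (Helper14.W4.u0 K)) • (ex ψ (Helper14.Gon.br (some x))) = ψ.g x
    rw [Helper14.W4.u0, Helper14.W4.e0_dm, one_smul, ex, Helper14.Gon.ext_br]
    rfl

private lemma r2b_dT5 {F : Type v} [Field F] (z1 z2 z3 z4 z5 : Helper14.Gon.P1 F) :
    Helper14.Gon.dT 0 (Helper14.W4.bb z1 - Helper14.W4.bb z2 + Helper14.W4.bb z3 -
      Helper14.W4.bb z4 + Helper14.W4.bb z5) =
    Helper14.W4.W2 (Helper14.W4.l1P z1) (Helper14.Gon.lgP z1) -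
      Helper14.W4.W2 (Helper14.W4.l1P z2) (Helper14.Gon.lgP z2) +
      Helper14.W4.W2 (Helper14.W4.l1P z3) (Helper14.Gon.lgP z3) -
      Helper14.W4.W2 (Helper14.W4.l1P z4) (Helper14.Gon.lgP z4) +
      Helper14.W4.W2 (Helper14.W4.l1P z5) (Helper14.Gon.lgP z5) := by
  rw [map_add, map_sub, map_add, map_sub, Helper14.W4.dT_bb, Helper14.W4.dT_bb,
    Helper14.W4.dT_bb, Helper14.W4.dT_bb, Helper14.W4.dT_bb]

private lemma r2b_alg {F : Type v} [Field F] (A B P Q R : Additive Fˣ) :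
    Helper14.W4.W2 P A - Helper14.W4.W2 Q B + Helper14.W4.W2 (R - A) (B - A) -
      Helper14.W4.W2 (R - (A + Q)) ((B + P) - (A + Q)) +
      Helper14.W4.W2 (R - Q) (P - Q) = 0 := by
  simp only [map_add, map_sub, AddMonoidHom.add_apply, AddMonoidHom.sub_apply,
    Helper14.W4.W2_self]
  rw [Helper14.W4.W2_swap A P, Helper14.W4.W2_swap Q A]
  abel

/-- The differential of the five-term combination vanishes. -/
private lemma r2b_dT {F : Type v} [Field F] (x y : F) (hx : x ≠ 0) (hx1 : x ≠ 1) (hy : y ≠ 0)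
    (hy1 : y ≠ 1) (hxy : x ≠ y) :
    Helper14.Gon.dT 0 (Helper14.W4.bb (some x) - Helper14.W4.bb (some y) +
      Helper14.W4.bb (some (y / x)) - Helper14.W4.bb (some ((1 - x⁻¹) / (1 - y⁻¹))) +
      Helper14.W4.bb (some ((1 - x) / (1 - y)))) = 0 := by
  have h1x : 1 - x ≠ 0 := sub_ne_zero.2 (Ne.symm hx1)
  have h1y : 1 - y ≠ 0 := sub_ne_zero.2 (Ne.symm hy1)
  have hxy' : x - y ≠ 0 := sub_ne_zero.2 hxy
  have e3 : 1 - y / x = (x - y) / x := by
    rw [eq_div_iff hx, sub_mul, one_mul, div_mul_cancel₀ _ hx]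
  have e4 : (1 - x⁻¹) / (1 - y⁻¹) = (y * (1 - x)) / (x * (1 - y)) := by
    have hy' : (1 - y⁻¹) ≠ 0 := by
      intro h
      have h2 : y⁻¹ = 1 := (sub_eq_zero.1 h).symm
      exact hy1 (inv_eq_one.1 h2)
    rw [div_eq_div_iff hy' (mul_ne_zero hx h1y)]
    have a1 : x⁻¹ * x = 1 := inv_mul_cancel₀ hx
    have a2 : y⁻¹ * y = 1 := inv_mul_cancel₀ hy
    linear_combination (-(1 - y)) * a1 + (1 - x) * a2
  have e4' : 1 - (y * (1 - x)) / (x * (1 - y)) = (x - y) / (x * (1 - y)) := by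
    rw [eq_div_iff (mul_ne_zero hx h1y), sub_mul, one_mul,
      div_mul_cancel₀ _ (mul_ne_zero hx h1y)]
    ring
  have e5 : 1 - (1 - x) / (1 - y) = (x - y) / (1 - y) := by
    rw [eq_div_iff h1y, sub_mul, one_mul, div_mul_cancel₀ _ h1y]
    ring
  rw [r2b_dT5]
  simp only [Helper14.W4.l1P_some, Helper14.Gon.lgP_some]
  rw [e4, e3, e4', e5, Helper14.Gon.lg_div hxy' hx, Helper14.Gon.lg_div hy hx,
    Helper14.Gon.lg_div hxy' (mul_ne_zero hx h1y),
    Helper14.Gon.lg_div (mul_ne_zero hy h1x) (mul_ne_zero hx h1y),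
    Helper14.Gon.lg_div hxy' h1y, Helper14.Gon.lg_div h1x h1y, Helper14.Gon.lg_mul hx h1y,
    Helper14.Gon.lg_mul hy h1x]
  exact r2b_alg _ _ _ _ _

theorem bb_five' (x y : K) (hx : x ≠ 0) (hx1 : x ≠ 1) (hy : y ≠ 0) (hy1 : y ≠ 1)
    (hxy : x ≠ y) : (Helper14.W4.bb (some x) : Helper14.Gon.Cx 2 0 K) -
      Helper14.W4.bb (some y) + Helper14.W4.bb (some (y / x)) -
      Helper14.W4.bb (some ((1 - x⁻¹) / (1 - y⁻¹))) +
      Helper14.W4.bb (some ((1 - x) / (1 - y))) = 0 := by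
  have hspec : ∀ a : K, Helper14.Gon.spec a (some (RatFunc.X : RatFunc K)) = some a := fun a => by
    have := Helper14.Gon.spec_poly a (Polynomial.X : K[X])
    rw [RatFunc.algebraMap_X] at this
    simpa using this
  have ht0 : (RatFunc.X : RatFunc K) ≠ 0 := RatFunc.X_ne_zero
  have ht1 : (RatFunc.X : RatFunc K) ≠ 1 := by
    intro h
    have h2 := hspec 0
    rw [h, Helper14.Gon.spec_one] at h2
    exact one_ne_zero (Option.some.inj h2)
  have hty : (RatFunc.X : RatFunc K) ≠ RatFunc.C y := by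
    intro h
    have h2 := hspec x
    rw [h, Helper14.Gon.spec_C] at h2
    exact hxy (Option.some.inj h2).symm
  have hy0 : (RatFunc.C y : RatFunc K) ≠ 0 := (_root_.map_ne_zero RatFunc.C).2 hy
  have hyc : (RatFunc.C y : RatFunc K) ≠ 1 := by
    intro h
    have h2 := Helper14.Gon.spec_C (0 : K) y
    rw [h, Helper14.Gon.spec_one] at h2
    exact hy1 (Option.some.inj h2).symm
  have h1y : 1 - y ≠ 0 := sub_ne_zero.2 (Ne.symm hy1)
  have hiy : 1 - y⁻¹ ≠ 0 := by
    intro h
    have h2 : y⁻¹ = 1 := (sub_eq_zero.1 h).symm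
    exact hy1 (inv_eq_one.1 h2)
  have hS : ∀ a : K, a ≠ 0 → Helper14.W4.sC a 0 0
      (Helper14.W4.bb (some (RatFunc.X : RatFunc K)) -
      Helper14.W4.bb (some (RatFunc.C y : RatFunc K)) +
      Helper14.W4.bb (some (RatFunc.C y / RatFunc.X)) -
      Helper14.W4.bb (some ((1 - (RatFunc.X)⁻¹) / (1 - (RatFunc.C y)⁻¹))) +
      Helper14.W4.bb (some ((1 - RatFunc.X) / (1 - RatFunc.C y)))) =
      (Helper14.W4.bb (some a) : Helper14.Gon.Cx 2 0 K) -
      Helper14.W4.bb (some y) + Helper14.W4.bb (some (y / a)) -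
      Helper14.W4.bb (some ((1 - a⁻¹) / (1 - y⁻¹))) +
      Helper14.W4.bb (some ((1 - a) / (1 - y))) := by
    intro a ha
    have s3 := Helper14.W4.sp_div_some (Helper14.Gon.spec_C a y) (hspec a) ha
    have s4 := Helper14.W4.sp_div_some
      (Helper14.Gon.spec_one_sub (Helper14.W4.sp_inv_some (hspec a) ha))
      (Helper14.Gon.spec_one_sub (Helper14.W4.sp_inv_some (Helper14.Gon.spec_C a y) hy)) hiy
    have s5 := Helper14.W4.sp_div_some (Helper14.Gon.spec_one_sub (hspec a))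
      (Helper14.Gon.spec_one_sub (Helper14.Gon.spec_C a y)) h1y
    rw [map_add, map_sub, map_add, map_sub, Helper14.W4.sC_bb, Helper14.W4.sC_bb,
      Helper14.W4.sC_bb, Helper14.W4.sC_bb, Helper14.W4.sC_bb, hspec, Helper14.Gon.spec_C,
      s3, s4, s5]
  have key := r2b_dT (RatFunc.X : RatFunc K) (RatFunc.C y) ht0 ht1 hy0 hyc hty
  have h2 := Helper14.W4.bb_const y _ key
  rw [hS y hy, div_self hy, div_self hiy, div_self h1y, Helper14.W4.bb_one, sub_self,
    add_zero, sub_zero, add_zero, map_zero] at h2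
  have h3 := congrArg (Helper14.W4.sC x 0 0) h2
  rw [hS x hx, map_zero] at h3
  exact h3

theorem fv_of_lin (θ : Helper14.Gon.Cx 2 0 K →ₗ[ℚ] W) : ∃ ψ : FV K W,
    ∀ x : K, ψ.g x = θ (Helper14.W4.bb (some x)) := by
  refine ⟨{ g := fun x => θ (Helper14.W4.bb (some x))
            zero := ?_
            one := ?_
            inv := ?_
            sub := ?_
            five := ?_ }, fun x => rfl⟩
  · change θ (Helper14.W4.bb (some 0)) = 0
    rw [Helper14.W4.bb_zero, map_zero]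
  · change θ (Helper14.W4.bb (some 1)) = 0
    rw [Helper14.W4.bb_one, map_zero]
  · intro x
    change θ (Helper14.W4.bb (some x⁻¹)) = - θ (Helper14.W4.bb (some x))
    have h := congrArg θ (Helper14.W4.bb_inv x)
    rw [map_add, map_zero] at h
    exact eq_neg_of_add_eq_zero_right h
  · intro x
    change θ (Helper14.W4.bb (some (1 - x))) = - θ (Helper14.W4.bb (some x))
    have h := congrArg θ (Helper14.W4.bb_sub x)
    rw [map_add, map_zero] at h
    exact eq_neg_of_add_eq_zero_right h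
  · intro x y hx hx1 hy hy1 hxy
    have h := congrArg θ (bb_five' x y hx hx1 hy hy1 hxy)
    rw [map_add, map_sub, map_add, map_sub, map_zero] at h
    exact h

end SRG
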