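import Pool.Agent.SRG.Glob2

set_option autoImplicit false

/-!
# SRG-19: the rigidity theorem

`rigid`: `glue` with the index set `ℕ`, `T n = Fr (lt K (n + 1 + d)) (N0 (n + 1 + d))` (`ex_all`); every
element of `K(t)` is in some `T n` (`n ≤ N0 n`; `num`, `denom`, `denom - num`).
`rigid0`: the case `S = ∅`, `d = 1`: `Sm ∅ A` means that `A` is constant.
-/

noncomputable section

open Polynomial
open scoped Classical
open Helper11.Gon

namespace SRG

universe u v w

variable {K : Type u} [Field K] {W : Type w} [AddCommGroup W] [Module ℚ W]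

private lemma main_N0 {m n : ℕ} (h : m ≤ n) : N0 m ≤ N0 n := by
  unfold N0
  omega

private lemma main_lt {m n : ℕ} (h : m ≤ n) : lt K m ⊆ lt K n :=
  fun _ hQ => ⟨hQ.1, hQ.2.1, lt_of_lt_of_le hQ.2.2 h⟩

private lemma main_Fr {m n : ℕ} (h : m ≤ n) : Fr (lt K m) (N0 m) ⊆ Fr (lt K n) (N0 n) := by
  rintro x ⟨A, B, C, h1, h2, h3, h4, h5, h6, h7⟩
  exact ⟨A, B, C, h1, h2.mono (main_lt h), h3.mono (main_lt h), h4.mono (main_lt h),
    h5.trans (main_N0 h), h6.trans (main_N0 h), h7⟩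

private lemma main_mem (x : RatFunc K) (d : ℕ) :
    ∃ n : ℕ, x ∈ Fr (lt K (n + d + 1)) (N0 (n + d + 1)) := by
  have hN : ∀ n : ℕ, n ≤ N0 (n + d + 1) := by
    intro n
    unfold N0
    omega
  have h1 : x.num.natDegree ≤ max x.num.natDegree x.denom.natDegree := le_max_left _ _
  have h2 : x.denom.natDegree ≤ max x.num.natDegree x.denom.natDegree := le_max_right _ _
  have h3 : (x.denom - x.num).natDegree ≤ max x.num.natDegree x.denom.natDegree :=
    (Polynomial.natDegree_sub_le _ _).trans (by rw [max_comm])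
  refine ⟨max x.num.natDegree x.denom.natDegree, x.num, x.denom, x.denom - x.num,
    add_sub_cancel _ _, (adm_lt _).sm ?_, (adm_lt _).sm ?_, (adm_lt _).sm ?_, h1.trans (hN _),
    h2.trans (hN _), (RatFunc.num_div_denom x).symm⟩
  · omega
  · omega
  · omega

private lemma main_const {A : K[X]} (h : Sm (∅ : Set K[X]) A) : ∃ a : K, A = Polynomial.C a := by
  rcases h with h | h
  · exact ⟨0, by rw [h, Polynomial.C_0]⟩
  by_cases h0 : A = 0
  · exact ⟨0, by rw [h0, Polynomial.C_0]⟩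
  by_cases hu : IsUnit A
  · obtain ⟨a, _, ha⟩ := Polynomial.isUnit_iff.1 hu
    exact ⟨a, ha.symm⟩
  · exfalso
    obtain ⟨Q, hQ, hd⟩ := WfDvdMonoid.exists_irreducible_factor hu h0
    have hq0 : Q ≠ 0 := hQ.ne_zero
    have hu' : IsUnit (Polynomial.C Q.leadingCoeff⁻¹) :=
      Polynomial.isUnit_C.2 (isUnit_iff_ne_zero.2 (inv_ne_zero
        (Polynomial.leadingCoeff_ne_zero.2 hq0)))
    exact Set.notMem_empty _ (h _ (Polynomial.monic_mul_leadingCoeff_inv hq0)
      ((irreducible_mul_isUnit hu').2 hQ) ((hu'.mul_right_dvd).2 hd))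

theorem rigid {S : Set K[X]} {d : ℕ} (hd : 1 ≤ d) (hS : Adm S d) (f : FV (RatFunc K) W)
    (hV : Van S f (3 * d / 2)) : ∃ o : AF (RatFunc K) W,
      (∀ A B : K[X], Sm S A → Sm S B → o.O (pl A) (pl B) = 0) ∧
      ∀ x : RatFunc K, f.g x = o.O (lg (1 - x)) (lg x) := by
  obtain ⟨o, ho, hv⟩ := glue S f (fun n : ℕ => Fr (lt K (n + d + 1)) (N0 (n + d + 1)))
    (directed_of_isDirected_le (fun m n hmn => main_Fr (by omega))) (fun n => by
      obtain ⟨o, ho, hV'⟩ := ex_all hd hS f hV (n + d) (Nat.le_add_left d n)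
      exact ⟨o, ho, (van_iff _ _ _).1 hV'⟩)
  refine ⟨o, ho, fun x => ?_⟩
  obtain ⟨n, hn⟩ := main_mem x d
  have h1 : f.g x + o.O (lg x) (lg (1 - x)) = 0 := hv n x hn
  rw [o.swap (lg (1 - x)) (lg x)]
  exact eq_neg_of_add_eq_zero_left h1

theorem rigid0 (f : FV (RatFunc K) W) (h : ∀ c : K, f.g (RatFunc.C c) = 0) :
    ∃ o : AF (RatFunc K) W,
      (∀ a b : K, o.O (lg (RatFunc.C a)) (lg (RatFunc.C b)) = 0) ∧
      ∀ x : RatFunc K, f.g x = o.O (lg (1 - x)) (lg x) := by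
  have hA : Adm (∅ : Set K[X]) 1 := by
    refine ⟨fun Q hQ => absurd hQ (Set.notMem_empty Q), fun Q hQ => absurd hQ (Set.notMem_empty Q),
      fun Q hQ => absurd hQ (Set.notMem_empty Q), fun Q h1 h2 h3 => ?_⟩
    exfalso
    have h4 : Q = 1 := h1.natDegree_eq_zero.1 (by omega)
    exact h2.not_isUnit (by rw [h4]; exact isUnit_one)
  have hV : Van (∅ : Set K[X]) f (3 * 1 / 2) := by
    intro A B C _ h2 h3 _ _ _
    obtain ⟨a, rfl⟩ := main_const h2
    obtain ⟨b, rfl⟩ := main_const h3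
    unfold G
    rw [RatFunc.algebraMap_C, RatFunc.algebraMap_C, ← map_div₀]
    exact h _
  obtain ⟨o, ho, hv⟩ := rigid le_rfl hA f hV
  refine ⟨o, fun a b => ?_, hv⟩
  have h1 := ho (Polynomial.C a) (Polynomial.C b) (sm_C _ a) (sm_C _ b)
  unfold pl at h1
  rwa [RatFunc.algebraMap_C, RatFunc.algebraMap_C] at h1

end SRG
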