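import Pool.Agent.SRG.KG

set_option autoImplicit false

/-!
# SRG-20b: the quadratic claim

Let `q x = β x x`, `B(x, y) = β x y + β y x`.
(1) For smooth `U`, `V`, `T`, `Z` in the same class modulo `P`, of degree `≤ 2 d - 1`:
`B(u - v, v - t) = q(u - t) - q(u - v) - q(v - t) = 0` (`u = pl U`, ...), and so
`B(u - v, t - z) = B(u - v, v - z) - B(u - v, v - t) = 0`.
(2) Generators (`KG_gen`): `U / V` with `U`, `V` of degree `≤ d + e2`, `e2 = (d - 1) / 2`.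
(3) If `U1 / V1`, `U2 / V2` are two generators choose `h1 / h2 = s(U2 / U1)`
(`deg h1, h2 ≤ e1 = d / 2`; `pade`): `U1 h1`, `V1 h1`, `U2 h2`, `V2 h2` are smooth, in the same
class, of degree `≤ d + e2 + e1 = 2 d - 1`, and `U1 / V1 = U1 h1 / (V1 h1)`.  So `B = 0` on the
generators by (1), so `B = 0` (closure induction twice), and `q = B / 2 = 0`.
-/

noncomputable section

open Polynomial
open scoped Classical
open Helper11.Gon

namespace SRG

universe u v w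

variable {K : Type u} [Field K] {W : Type w} [AddCommGroup W] [Module ℚ W]
  {k : Type v} [Field k] {p : Pl K k} {S : Set K[X]}

private theorem quad_self (β : KG p S →+ KG p S →+ W)
    (h : ∀ (A B : K[X]) (hA0 : A ≠ 0) (hB0 : B ≠ 0) (hA : Sm S A) (hB : Sm S B)
      (hh : p.P ∣ A - B), A.natDegree ≤ 2 * p.d - 1 → B.natDegree ≤ 2 * p.d - 1 →
      β ⟨_, KG_mk hA0 hB0 hA hB hh⟩ ⟨_, KG_mk hA0 hB0 hA hB hh⟩ = 0)
    {A B : K[X]} (hA0 : A ≠ 0) (hB0 : B ≠ 0) (hA : Sm S A) (hB : Sm S B)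
    (hh : p.P ∣ A - B) (dA : A.natDegree ≤ 2 * p.d - 1) (dB : B.natDegree ≤ 2 * p.d - 1)
    (x : KG p S) (hx : (x : Additive (RatFunc K)ˣ) = pl A - pl B) : β x x = 0 := by
  have hxe : x = ⟨_, KG_mk hA0 hB0 hA hB hh⟩ := Subtype.ext hx
  rw [hxe]
  exact h A B hA0 hB0 hA hB hh dA dB

private theorem quad_tri (β : KG p S →+ KG p S →+ W)
    (h : ∀ (A B : K[X]) (hA0 : A ≠ 0) (hB0 : B ≠ 0) (hA : Sm S A) (hB : Sm S B)
      (hh : p.P ∣ A - B), A.natDegree ≤ 2 * p.d - 1 → B.natDegree ≤ 2 * p.d - 1 →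
      β ⟨_, KG_mk hA0 hB0 hA hB hh⟩ ⟨_, KG_mk hA0 hB0 hA hB hh⟩ = 0)
    {U V T : K[X]} (hU0 : U ≠ 0) (hV0 : V ≠ 0) (hT0 : T ≠ 0) (hU : Sm S U) (hV : Sm S V)
    (hT : Sm S T) (hUV : p.P ∣ U - V) (hVT : p.P ∣ V - T)
    (dU : U.natDegree ≤ 2 * p.d - 1) (dV : V.natDegree ≤ 2 * p.d - 1)
    (dT : T.natDegree ≤ 2 * p.d - 1) (x y : KG p S)
    (hx : (x : Additive (RatFunc K)ˣ) = pl U - pl V)
    (hy : (y : Additive (RatFunc K)ˣ) = pl V - pl T) : β x y + β y x = 0 := by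
  have h1 := quad_self β h hU0 hV0 hU hV hUV dU dV x hx
  have h2 := quad_self β h hV0 hT0 hV hT hVT dV dT y hy
  have hUT : p.P ∣ U - T := by
    have h3 := dvd_add hUV hVT
    rwa [sub_add_sub_cancel] at h3
  have h3 := quad_self β h hU0 hT0 hU hT hUT dU dT (x + y) (by
    rw [AddSubgroup.coe_add, hx, hy, sub_add_sub_cancel])
  rw [map_add β, AddMonoidHom.add_apply, map_add, map_add] at h3
  linear_combination (norm := module) h3 - h1 - h2

private theorem quad_four (β : KG p S →+ KG p S →+ W)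
    (h : ∀ (A B : K[X]) (hA0 : A ≠ 0) (hB0 : B ≠ 0) (hA : Sm S A) (hB : Sm S B)
      (hh : p.P ∣ A - B), A.natDegree ≤ 2 * p.d - 1 → B.natDegree ≤ 2 * p.d - 1 →
      β ⟨_, KG_mk hA0 hB0 hA hB hh⟩ ⟨_, KG_mk hA0 hB0 hA hB hh⟩ = 0)
    {U V T Z : K[X]} (hU0 : U ≠ 0) (hV0 : V ≠ 0) (hT0 : T ≠ 0) (hZ0 : Z ≠ 0)
    (hU : Sm S U) (hV : Sm S V) (hT : Sm S T) (hZ : Sm S Z)
    (hUV : p.P ∣ U - V) (hVT : p.P ∣ V - T) (hTZ : p.P ∣ T - Z)
    (dU : U.natDegree ≤ 2 * p.d - 1) (dV : V.natDegree ≤ 2 * p.d - 1)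
    (dT : T.natDegree ≤ 2 * p.d - 1) (dZ : Z.natDegree ≤ 2 * p.d - 1) (x y : KG p S)
    (hx : (x : Additive (RatFunc K)ˣ) = pl U - pl V)
    (hy : (y : Additive (RatFunc K)ˣ) = pl T - pl Z) : β x y + β y x = 0 := by
  have hVZ : p.P ∣ V - Z := by
    have h3 := dvd_add hVT hTZ
    rwa [sub_add_sub_cancel] at h3
  have h1 := quad_tri β h hU0 hV0 hT0 hU hV hT hUV hVT dU dV dT x ⟨_, KG_mk hV0 hT0 hV hT hVT⟩
    hx rfl
  have h2 := quad_tri β h hU0 hV0 hZ0 hU hV hZ hUV hVZ dU dV dZ x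
    (⟨_, KG_mk hV0 hT0 hV hT hVT⟩ + y) hx (by
      rw [AddSubgroup.coe_add, hy]
      exact sub_add_sub_cancel _ _ _)
  rw [map_add (β x), map_add β, AddMonoidHom.add_apply] at h2
  linear_combination (norm := module) h2 - h1

private theorem quad_gen (hS : Adm S p.d) (hP : p.P ∉ S) (β : KG p S →+ KG p S →+ W)
    (h : ∀ (A B : K[X]) (hA0 : A ≠ 0) (hB0 : B ≠ 0) (hA : Sm S A) (hB : Sm S B)
      (hh : p.P ∣ A - B), A.natDegree ≤ 2 * p.d - 1 → B.natDegree ≤ 2 * p.d - 1 →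
      β ⟨_, KG_mk hA0 hB0 hA hB hh⟩ ⟨_, KG_mk hA0 hB0 hA hB hh⟩ = 0)
    {U V T Z : K[X]} (hU0 : U ≠ 0) (hV0 : V ≠ 0) (hT0 : T ≠ 0) (hZ0 : Z ≠ 0)
    (hU : Sm S U) (hV : Sm S V) (hT : Sm S T) (hZ : Sm S Z)
    (hUV : p.P ∣ U - V) (hTZ : p.P ∣ T - Z)
    (dU : U.natDegree ≤ p.d + (p.d - 1) / 2) (dV : V.natDegree ≤ p.d + (p.d - 1) / 2)
    (dT : T.natDegree ≤ p.d + (p.d - 1) / 2) (dZ : Z.natDegree ≤ p.d + (p.d - 1) / 2)
    (x y : KG p S)
    (hx : (x : Additive (RatFunc K)ˣ) = pl U - pl V)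
    (hy : (y : Additive (RatFunc K)ˣ) = pl T - pl Z) : β x y + β y x = 0 := by
  have hd := p.d_pos
  have hrV : p.r V ≠ 0 := by
    intro h0
    exact hV.not_dvd hV0 p.monic p.irr hP ((p.ker V).mp h0)
  have hrT : p.r T ≠ 0 := by
    intro h0
    exact hT.not_dvd hT0 p.monic p.irr hP ((p.ker T).mp h0)
  obtain ⟨A, B, hA0, hB0, dA, dB, hAB⟩ := pade p (p.r T / p.r V) (div_ne_zero hrT hrV)
  have hA : Sm S A := hS.sm (by omega)
  have hB : Sm S B := hS.sm (by omega)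
  have deg : ∀ X Y : K[X], X.natDegree ≤ p.d + (p.d - 1) / 2 → Y.natDegree ≤ p.d / 2 →
      (X * Y).natDegree ≤ 2 * p.d - 1 := by
    intro X Y hX hY
    have h1 := Polynomial.natDegree_mul_le (p := X) (q := Y)
    omega
  have dB' : B.natDegree ≤ p.d / 2 := by omega
  refine quad_four β h (mul_ne_zero hU0 hA0) (mul_ne_zero hV0 hA0) (mul_ne_zero hT0 hB0)
    (mul_ne_zero hZ0 hB0) (hU.mul hA) (hV.mul hA) (hT.mul hB) (hZ.mul hB) ?_ ?_ ?_
    (deg _ _ dU dA) (deg _ _ dV dA) (deg _ _ dT dB') (deg _ _ dZ dB') x y ?_ ?_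
  · rw [← sub_mul]
    exact dvd_mul_of_dvd_left hUV A
  · rw [← p.ker, map_sub, map_mul, map_mul, hAB, sub_eq_zero, ← mul_assoc,
      mul_div_cancel₀ _ hrV]
  · rw [← sub_mul]
    exact dvd_mul_of_dvd_left hTZ B
  · rw [hx, pl_mul hU0 hA0, pl_mul hV0 hA0, add_sub_add_right_eq_sub]
  · rw [hy, pl_mul hT0 hB0, pl_mul hZ0 hB0, add_sub_add_right_eq_sub]

theorem quad (hS : Adm S p.d) (hP : p.P ∉ S) (β : KG p S →+ KG p S →+ W)
    (h : ∀ (A B : K[X]) (hA0 : A ≠ 0) (hB0 : B ≠ 0) (hA : Sm S A) (hB : Sm S B)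
      (hh : p.P ∣ A - B), A.natDegree ≤ 2 * p.d - 1 → B.natDegree ≤ 2 * p.d - 1 →
      β ⟨_, KG_mk hA0 hB0 hA hB hh⟩ ⟨_, KG_mk hA0 hB0 hA hB hh⟩ = 0) (x : KG p S) :
    β x x = 0 := by
  have hE := KG_gen (p := p) (S := S) hS hP
  have step1 : ∀ (T Z : K[X]) (hT0 : T ≠ 0) (hZ0 : Z ≠ 0) (hT : Sm S T) (hZ : Sm S Z)
      (hTZ : p.P ∣ T - Z) (dT : T.natDegree ≤ p.d + (p.d - 1) / 2)
      (dZ : Z.natDegree ≤ p.d + (p.d - 1) / 2) (y : KG p S)
      (hy : (y : Additive (RatFunc K)ˣ) = pl T - pl Z) (x : KG p S), β x y + β y x = 0 := by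
    intro T Z hT0 hZ0 hT hZ hTZ dT dZ y hy x
    have key : ∀ (z : Additive (RatFunc K)ˣ) (hz : z ∈ AddSubgroup.closure {x | ∃ A B : K[X],
        A ≠ 0 ∧ B ≠ 0 ∧ Sm S A ∧ Sm S B ∧ p.P ∣ A - B ∧
        A.natDegree ≤ p.d + (p.d - 1) / 2 ∧ B.natDegree ≤ p.d + (p.d - 1) / 2 ∧
        x = pl A - pl B}), ∀ h' : z ∈ KG p S, β ⟨z, h'⟩ y + β y ⟨z, h'⟩ = 0 := by
      intro z hz
      induction hz using AddSubgroup.closure_induction with
      | mem z hz =>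
        intro h'
        obtain ⟨A, B, hA0, hB0, hA, hB, hAB, dA, dB, hzz⟩ := hz
        exact quad_gen hS hP β h hA0 hB0 hT0 hZ0 hA hB hT hZ hAB hTZ dA dB dT dZ ⟨z, h'⟩ y
          hzz hy
      | zero =>
        intro h'
        have e : (⟨0, h'⟩ : KG p S) = 0 := rfl
        rw [e, map_zero, map_zero, AddMonoidHom.zero_apply, add_zero]
      | add a b ha hb iha ihb =>
        intro h'
        have ha' : a ∈ KG p S := by rw [hE]; exact ha
        have hb' : b ∈ KG p S := by rw [hE]; exact hb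
        have e : (⟨a + b, h'⟩ : KG p S) = ⟨a, ha'⟩ + ⟨b, hb'⟩ := rfl
        rw [e, map_add, map_add, AddMonoidHom.add_apply]
        linear_combination (norm := module) iha ha' + ihb hb'
      | neg a ha iha =>
        intro h'
        have ha' : a ∈ KG p S := by rw [hE]; exact ha
        have e : (⟨-a, h'⟩ : KG p S) = -⟨a, ha'⟩ := rfl
        rw [e, map_neg, map_neg, AddMonoidHom.neg_apply]
        linear_combination (norm := module) -iha ha'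
    exact key x (by rw [← hE]; exact x.2) x.2
  have step2 : ∀ (z : Additive (RatFunc K)ˣ) (hz : z ∈ AddSubgroup.closure {x | ∃ A B : K[X],
      A ≠ 0 ∧ B ≠ 0 ∧ Sm S A ∧ Sm S B ∧ p.P ∣ A - B ∧
      A.natDegree ≤ p.d + (p.d - 1) / 2 ∧ B.natDegree ≤ p.d + (p.d - 1) / 2 ∧
      x = pl A - pl B}), ∀ h' : z ∈ KG p S, β x ⟨z, h'⟩ + β ⟨z, h'⟩ x = 0 := by
    intro z hz
    induction hz using AddSubgroup.closure_induction with
    | mem z hz =>
      intro h'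
      obtain ⟨A, B, hA0, hB0, hA, hB, hAB, dA, dB, hzz⟩ := hz
      exact step1 A B hA0 hB0 hA hB hAB dA dB ⟨z, h'⟩ hzz x
    | zero =>
      intro h'
      have e : (⟨0, h'⟩ : KG p S) = 0 := rfl
      rw [e, map_zero, map_zero, AddMonoidHom.zero_apply, add_zero]
    | add a b ha hb iha ihb =>
      intro h'
      have ha' : a ∈ KG p S := by rw [hE]; exact ha
      have hb' : b ∈ KG p S := by rw [hE]; exact hb
      have e : (⟨a + b, h'⟩ : KG p S) = ⟨a, ha'⟩ + ⟨b, hb'⟩ := rfl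
      rw [e, map_add, map_add, AddMonoidHom.add_apply]
      linear_combination (norm := module) iha ha' + ihb hb'
    | neg a ha iha =>
      intro h'
      have ha' : a ∈ KG p S := by rw [hE]; exact ha
      have e : (⟨-a, h'⟩ : KG p S) = -⟨a, ha'⟩ := rfl
      rw [e, map_neg, map_neg, AddMonoidHom.neg_apply]
      linear_combination (norm := module) -iha ha'
  have h2 : β x x + β x x = 0 := step2 x (by rw [← hE]; exact x.2) x.2
  linear_combination (norm := module) (1 / 2 : ℚ) • h2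

end SRG
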