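import Pool.Agent.SRG.Main
import Pool.Agent.SRG.Quad

set_option autoImplicit false

/-!
# SRG-21: generation in height `d + (d - 1) / 2`

`stage_zero`: `exists_plOf`, `exists_sec`, `exists_ldata` give `D : LData`; for a generator
`pl A - pl B` of `KG` (`KG_gen`: `A`, `B` smooth, `P ∣ A - B`, of degree `≤ d + (d - 1) / 2`)
`D.L (pl A - pl B) = G f A B` (`G_eq`) is `0` by `hl` (if `A ≠ B` then `B - A = P C` with `C`
of degree `< d`, so `B - A` is in `Sm (insert P S)`).  So `D.L = 0` on `KG`, and `G_eq` gives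
`G f A B = 0` for all smooth `A = B` modulo `P` of degree `≤ 3 d / 2`.  `van_insert`, then
`raise` with `m = d`, `M = d - 1`.

`gen_all`: Let `S' = lt K d`.  (1) `Van S' f n` for all `n`: if `d = 1` then `S' = ∅` and
`rigid` applies with `S = ∅`, `d = 1` (`3 * 1 / 2 = 1 = d + (d - 1) / 2`); if `d ≥ 2` then
`Adm S' (d - 1)` and `3 (d - 1) / 2 ≤ d + (d - 1) / 2`, so `rigid` applies to `S'` and `d - 1`.
(With `o` as in `rigid`, the value at `A / B` is
`o(1 - A/B, A/B)`, a combination of `o(pl _, pl _) = 0`.)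
(2) For every finite set `T` of elements of `S` of degree `d`: `Van (S' ∪ T) f (N0 d)`, by
induction on `T` with `stage_zero` (`Van.mono_set` for `hl`).  (3) `Van S f (N0 d)`, as `A`, `B`,
`C` have only finitely many monic irreducible divisors.  (4) `3 d / 2 ≤ N0 d`: `rigid` for `S`,
as in (1).
-/

noncomputable section

open Polynomial
open scoped Classical
open Helper11.Gon

namespace SRG

universe u v w

variable {K : Type u} [Field K] {W : Type w} [AddCommGroup W] [Module ℚ W]

lemma Van.mono_set {S T : Set K[X]} {f : FV (RatFunc K) W} {N : ℕ} (h : Van T f N)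
    (hST : S ⊆ T) : Van S f N := by
  intro A B C hs hA hB hC dA dB
  exact h A B C hs (hA.mono hST) (hB.mono hST) (hC.mono hST) dA dB

private lemma gen_mono {S : Set K[X]} {f : FV (RatFunc K) W} {N n : ℕ} (h : Van S f N)
    (hn : n ≤ N) : Van S f n := by
  intro A B C hs hA hB hC dA dB
  exact h A B C hs hA hB hC (dA.trans hn) (dB.trans hn)

private lemma gen_N0 {d : ℕ} (hd : 1 ≤ d) : 3 * d / 2 ≤ N0 d := by
  unfold N0
  omega

private lemma gen_sm_self {S : Set K[X]} {P : K[X]} (hm : P.Monic) (hi : Irreducible P) :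
    Sm (insert P S) P := by
  refine Or.inr fun Q hQm hQi hQd => ?_
  have h : Associated Q P := (hQi.dvd_irreducible_iff_associated hi).1 hQd
  have h2 : Q = P := Polynomial.eq_of_monic_of_associated hQm hm h
  rw [h2]
  exact Set.mem_insert _ _

/-- If `f` is a symbol vanishing on pairs of smooth elements it vanishes in all heights. -/
theorem van_all_of_rigid {S : Set K[X]} {d : ℕ} (hd : 1 ≤ d) (hS : Adm S d)
    (f : FV (RatFunc K) W) (hV : Van S f (3 * d / 2)) (n : ℕ) : Van S f n := by
  obtain ⟨o, ho, hf⟩ := rigid hd hS f hV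
  intro A B C hs hA hB hC _ _
  by_cases hA0 : A = 0
  · rw [hA0]
    exact G_zero_left f B
  by_cases hB0 : B = 0
  · rw [hB0]
    exact G_zero_right f A
  by_cases hC0 : C = 0
  · rw [hC0, add_zero] at hs
    rw [hs]
    exact G_self f B
  unfold G
  rw [hf]
  have hB1 : algebraMap K[X] (RatFunc K) B ≠ 0 := by
    intro h
    exact hB0 ((map_eq_zero_iff _ (IsFractionRing.injective K[X] (RatFunc K))).1 h)
  have h1 : 1 - algebraMap K[X] (RatFunc K) A / algebraMap K[X] (RatFunc K) B =
      algebraMap K[X] (RatFunc K) C / algebraMap K[X] (RatFunc K) B := by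
    rw [eq_div_iff hB1, sub_mul, one_mul, div_mul_cancel₀ _ hB1, ← hs, map_add]
    ring
  rw [h1, lg_div_pl hC0 hB0, lg_div_pl hA0 hB0]
  simp only [map_sub, AddMonoidHom.sub_apply]
  rw [ho C A hC hA, ho C B hC hB, ho B A hB hA, ho B B hB hB]
  simp

theorem stage_zero {S : Set K[X]} {d : ℕ} (hS : Adm S d) {P : K[X]} (hm : P.Monic)
    (hi : Irreducible P) (hd : P.natDegree = d) (hP : P ∉ S) (f : FV (RatFunc K) W)
    (hV : Van S f (N0 d)) (hl : Van (insert P S) f (d + (d - 1) / 2)) :
    Van (insert P S) f (N0 d) := by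
  obtain ⟨k, ik, p, rfl⟩ := exists_plOf hm hi
  have hpd : p.d = d := hd
  subst hpd
  obtain ⟨s⟩ := exists_sec p
  obtain ⟨D⟩ := exists_ldata s f hS hV
  have hpos : 1 ≤ p.d := hi.natDegree_pos
  have hAd : Adm (insert p.P S) p.d := hS.insert hm hi hd
  have key : ∀ x ∈ KG p S, D.L x = 0 := by
    intro x hx
    rw [KG_gen hS hP] at hx
    have hle : AddSubgroup.closure {x | ∃ A B : K[X], A ≠ 0 ∧ B ≠ 0 ∧ Sm S A ∧ Sm S B ∧
        p.P ∣ A - B ∧ A.natDegree ≤ p.d + (p.d - 1) / 2 ∧ B.natDegree ≤ p.d + (p.d - 1) / 2 ∧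
        x = pl A - pl B} ≤ D.L.ker := by
      rw [AddSubgroup.closure_le]
      rintro _ ⟨A, B, hA0, hB0, hA, hB, hAB, dA, dB, rfl⟩
      show D.L (pl A - pl B) = 0
      rw [map_sub, ← G_eq hS hP hV D hA hB hA0 hB0 hAB (by omega) (by omega)]
      have hST : S ⊆ insert p.P S := Set.subset_insert _ _
      refine hl A B (B - A) (by ring) (hA.mono hST) (hB.mono hST) ?_ dA dB
      by_cases hBA : B - A = 0
      · rw [hBA]
        exact sm_zero _
      · have h2 : p.P ∣ B - A := by
          have h3 := (dvd_neg (a := p.P)).2 hAB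
          rwa [neg_sub] at h3
        obtain ⟨C, hC⟩ := h2
        have hC0 : C ≠ 0 := by
          rintro rfl
          exact hBA (by rw [hC, mul_zero])
        have hdeg : (B - A).natDegree ≤ p.d + (p.d - 1) / 2 :=
          (natDegree_sub_le B A).trans (max_le dB dA)
        have hPd : p.P.natDegree = p.d := rfl
        rw [hC, natDegree_mul hi.ne_zero hC0, hPd] at hdeg
        rw [hC]
        refine Sm.mul (gen_sm_self hm hi) ?_
        exact (hS.sm (A := C) (by omega)).mono hST
    exact hle hx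
  have h1 : Van (insert p.P S) f (3 * p.d / 2) := by
    refine van_insert hm hi f (gen_mono hV (gen_N0 hpos)) ?_
    intro A B hA0 hB0 hA hB hAB dA dB
    rw [G_eq hS hP hV D hA hB hA0 hB0 hAB (by omega) (by omega), ← map_sub]
    exact key _ (KG_mk hA0 hB0 hA hB hAB)
  exact raise (m := p.d) (M := p.d - 1) hpos (by omega) hAd.le
    (fun A hA => hAd.sm (by omega)) f h1

theorem gen_all {S : Set K[X]} {d : ℕ} (hd : 1 ≤ d) (hS : Adm S d)
    (f : FV (RatFunc K) W) (hV : Van S f (d + (d - 1) / 2)) (n : ℕ) : Van S f n := by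
  have hsub : lt K d ⊆ S := fun Q hQ => hS.small Q hQ.1 hQ.2.1 hQ.2.2
  have hV' : Van (lt K d) f (d + (d - 1) / 2) := hV.mono_set hsub
  have step1 : ∀ n, Van (lt K d) f n := by
    intro n
    rcases Nat.lt_or_ge d 2 with h2 | h2
    · have hd1 : d = 1 := by omega
      subst hd1
      exact van_all_of_rigid le_rfl (adm_lt 1) f (gen_mono hV' (by omega)) n
    · obtain ⟨e, rfl⟩ : ∃ e, d = e + 1 := ⟨d - 1, by omega⟩
      exact van_all_of_rigid (d := e) (by omega) (adm_lt' e) f (gen_mono hV' (by omega)) n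
  have step2 : ∀ T : Finset K[X], (∀ Q ∈ T, Q ∈ S ∧ Q.natDegree = d) →
      Van (lt K d ∪ (T : Set K[X])) f (N0 d) := by
    intro T
    induction T using Finset.induction_on with
    | empty =>
      intro _
      rw [Finset.coe_empty, Set.union_empty]
      exact step1 _
    | insert P T hPT ih =>
      intro hT
      have hP := hT P (Finset.mem_insert_self P T)
      have hT' : ∀ Q ∈ T, Q ∈ S ∧ Q.natDegree = d := fun Q hQ =>
        hT Q (Finset.mem_insert_of_mem hQ)
      have hsub2 : lt K d ∪ (T : Set K[X]) ⊆ S := by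
        rintro Q (hQ | hQ)
        · exact hsub hQ
        · exact (hT' Q hQ).1
      have hadm : Adm (lt K d ∪ (T : Set K[X])) d := by
        refine ⟨fun Q hQ => hS.monic Q (hsub2 hQ), fun Q hQ => hS.irr Q (hsub2 hQ),
          fun Q hQ => hS.le Q (hsub2 hQ), fun Q h1 h2 h3 => Or.inl ⟨h1, h2, h3⟩⟩
      have hnot : P ∉ lt K d ∪ (T : Set K[X]) := by
        rintro (hQ | hQ)
        · have h3 : P.natDegree < d := hQ.2.2
          omega
        · exact hPT hQ
      have hl : Van (insert P (lt K d ∪ (T : Set K[X]))) f (d + (d - 1) / 2) :=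
        hV.mono_set (Set.insert_subset hP.1 hsub2)
      have h4 := stage_zero hadm (hS.monic P hP.1) (hS.irr P hP.1) hP.2 hnot f (ih hT') hl
      rw [Finset.coe_insert, Set.union_insert]
      exact h4
  have step3 : Van S f (N0 d) := by
    intro A B C hs hA hB hC dA dB
    by_cases hA0 : A = 0
    · rw [hA0]
      exact G_zero_left f B
    by_cases hB0 : B = 0
    · rw [hB0]
      exact G_zero_right f A
    by_cases hC0 : C = 0
    · rw [hC0, add_zero] at hs
      rw [hs]
      exact G_self f B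
    have hD0 : A * B * C ≠ 0 := mul_ne_zero (mul_ne_zero hA0 hB0) hC0
    let T : Finset K[X] := (UniqueFactorizationMonoid.normalizedFactors (A * B * C)).toFinset.filter
      fun Q => Q ∈ S ∧ Q.natDegree = d
    have hT : ∀ Q ∈ T, Q ∈ S ∧ Q.natDegree = d := fun Q hQ => (Finset.mem_filter.1 hQ).2
    have hsm : ∀ E : K[X], Sm S E → E ≠ 0 → E ∣ A * B * C → Sm (lt K d ∪ (T : Set K[X])) E := by
      intro E hE hE0 hED
      refine Or.inr fun Q hQm hQi hQd => ?_
      have hQS : Q ∈ S := by
        rcases hE with h | h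
        · exact absurd h hE0
        · exact h Q hQm hQi hQd
      rcases Nat.lt_or_ge Q.natDegree d with h2 | h2
      · exact Or.inl ⟨hQm, hQi, h2⟩
      · right
        refine Finset.mem_coe.2 (Finset.mem_filter.2 ⟨?_, hQS, le_antisymm (hS.le Q hQS) h2⟩)
        rw [Multiset.mem_toFinset, UniqueFactorizationMonoid.mem_normalizedFactors_iff' hD0]
        exact ⟨hQi, hQm.normalize_eq_self, hQd.trans hED⟩
    exact step2 T hT A B C hs (hsm A hA hA0 ⟨B * C, by ring⟩) (hsm B hB hB0 ⟨A * C, by ring⟩)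
      (hsm C hC hC0 ⟨A * B, by ring⟩) dA dB
  exact van_all_of_rigid hd hS f (gen_mono step3 (gen_N0 hd)) n

end SRG
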