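import Pool.Agent.SRG.Basic

set_option autoImplicit false

/-!
# SRG-22: five-term functions and reduction

`exists_pull`: let `ψ` be a five-term function on the residue field `k` and let `x̄ ∈ k ∪ {∞}` be the
reduction of `x ∈ K(t)` (`∞` if `P` divides the denominator); put `ψ(∞) = 0` and
`φ(x) = ψ(x̄)`.  `inv`, `sub`, `zero`, `one` are clear.  Five-term relation for `x`, `y`,
`a = y / x`, `c = (1 - x) / (1 - y)`, `b = (1 - x⁻¹) / (1 - y⁻¹) = a c`:
* `x̄`, `ȳ` not in `{0, 1, ∞}`, `x̄ ≠ ȳ`: the five-term relation of `ψ`;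
* `x̄ = ȳ` not in `{0, 1, ∞}`: `ā = b̄ = c̄ = 1`;
* `x̄ = 0`, `ȳ` not in `{0, 1, ∞}`: `ā = b̄ = ∞`, `c̄ = 1 / (1 - ȳ)`; `x̄ = 1`: `ā = ȳ`,
  `b̄ = c̄ = 0`; `x̄ = ∞`: `ā = 0`, `c̄ = ∞`, `b̄ = 1 / (1 - ȳ⁻¹)`;
* the same with `x`, `y` exchanged;
* `x̄ = ȳ = 0`: `c̄ = 1`, `ā = b̄`; `x̄ = ȳ = 1`: `ā = 1`, `b̄ = c̄`; `x̄ = ȳ = ∞`: `b̄ = 1`,
  `c̄ = ā⁻¹`;
* `x̄ ≠ ȳ` both in `{0, 1, ∞}`: all five are in `{0, 1, ∞}`.
It may be convenient to write `x = A / B`, `y = A' / B'` with `A`, `B` not both divisible by `P`,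
and the same for `A'`, `B'`, or to work with the valuation ring `{A / B | ¬ P ∣ B}`.
-/

noncomputable section

open Polynomial
open scoped Classical
open Helper11.Gon

namespace SRG

universe u v w

variable {K : Type u} [Field K] {W : Type w} [AddCommGroup W] [Module ℚ W]
  {k : Type v} [Field k]

/-- A place of `F` with values in `k`. -/
private structure place_V (F : Type u) [Field F] (k : Type v) [Field k] where
  I : F → Prop
  ρ : F → k
  i1 : I 1
  r1 : ρ 1 = 1
  isub : ∀ x y, I x → I y → I (x - y)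
  rsub : ∀ x y, I x → I y → ρ (x - y) = ρ x - ρ y
  imul : ∀ x y, I x → I y → I (x * y)
  rmul : ∀ x y, I x → I y → ρ (x * y) = ρ x * ρ y
  iinv : ∀ x, I x → ρ x ≠ 0 → I x⁻¹
  itot : ∀ x, ¬ I x → I x⁻¹ ∧ ρ x⁻¹ = 0

section
variable {F : Type u} [Field F] (v : place_V F k) (ψ : FV k W)

private lemma place_i0 : v.I 0 := by
  have h := v.isub 1 1 v.i1 v.i1
  rwa [sub_self] at h

private lemma place_r0 : v.ρ 0 = 0 := by
  have h := v.rsub 1 1 v.i1 v.i1
  rwa [sub_self, sub_self] at h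

private lemma place_rinv {x : F} (h : v.I x) (h0 : v.ρ x ≠ 0) : v.ρ x⁻¹ = (v.ρ x)⁻¹ := by
  have hx : x ≠ 0 := by
    rintro rfl
    exact h0 (place_r0 v)
  have h1 := v.rmul x x⁻¹ h (v.iinv x h h0)
  rw [mul_inv_cancel₀ hx, v.r1] at h1
  exact eq_inv_of_mul_eq_one_right h1.symm

/-- The pull back. -/
private def place_P (x : F) : W := if v.I x then ψ.g (v.ρ x) else 0

private lemma place_pos {x : F} (h : v.I x) : place_P v ψ x = ψ.g (v.ρ x) := if_pos h

private lemma place_neg {x : F} (h : ¬ v.I x) : place_P v ψ x = 0 := if_neg h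

private lemma place_inv (x : F) : place_P v ψ x⁻¹ = - place_P v ψ x := by
  by_cases h : v.I x
  · by_cases h0 : v.ρ x = 0
    · rw [place_pos v ψ h, h0, ψ.zero, neg_zero]
      by_cases h1 : v.I x⁻¹
      · by_cases hx : x = 0
        · rw [hx, inv_zero, place_pos v ψ (place_i0 v), place_r0 v, ψ.zero]
        · have h2 := v.rmul x x⁻¹ h h1
          rw [mul_inv_cancel₀ hx, v.r1, h0, zero_mul] at h2
          exact absurd h2 one_ne_zero
      · exact place_neg v ψ h1
    · rw [place_pos v ψ h, place_pos v ψ (v.iinv x h h0), place_rinv v h h0, ψ.inv]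
  · obtain ⟨h1, h2⟩ := v.itot x h
    rw [place_neg v ψ h, place_pos v ψ h1, h2, ψ.zero, neg_zero]

private lemma place_sub (x : F) : place_P v ψ (1 - x) = - place_P v ψ x := by
  by_cases h : v.I x
  · rw [place_pos v ψ h, place_pos v ψ (v.isub 1 x v.i1 h), v.rsub 1 x v.i1 h, v.r1, ψ.sub]
  · rw [place_neg v ψ h, neg_zero]
    apply place_neg
    intro h1
    apply h
    have h2 := v.isub 1 _ v.i1 h1
    rwa [sub_sub_cancel] at h2

/-- Multiplication by a `1`-unit. -/
private lemma place_unit {u z : F} (hu : v.I u) (h1 : v.ρ u = 1) :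
    place_P v ψ (z * u) = place_P v ψ z := by
  have h0 : v.ρ u ≠ 0 := by
    rw [h1]
    exact one_ne_zero
  have hu0 : u ≠ 0 := by
    rintro rfl
    exact h0 (place_r0 v)
  by_cases h : v.I z
  · rw [place_pos v ψ h, place_pos v ψ (v.imul z u h hu), v.rmul z u h hu, h1, mul_one]
  · rw [place_neg v ψ h]
    apply place_neg
    intro h2
    apply h
    have h3 := v.imul _ _ h2 (v.iinv u hu h0)
    rwa [mul_inv_cancel_right₀ hu0] at h3

/-- The five-term expression. -/
private def place_R (x y : F) : W :=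
  place_P v ψ x - place_P v ψ y + place_P v ψ (y / x) - place_P v ψ ((1 - x⁻¹) / (1 - y⁻¹)) +
    place_P v ψ ((1 - x) / (1 - y))

private lemma place_b {x y : F} (hx : x ≠ 0) (hy : y ≠ 0) (hy1 : y ≠ 1) :
    (1 - x⁻¹) / (1 - y⁻¹) = y / x * ((1 - x) / (1 - y)) := by
  have h1 : 1 - y ≠ 0 := sub_ne_zero.2 (Ne.symm hy1)
  have h2 : 1 - y⁻¹ ≠ 0 := by
    rw [sub_ne_zero]
    intro h
    exact hy1 (inv_eq_one.1 h.symm)
  rw [div_mul_div_comm, div_eq_div_iff h2 (mul_ne_zero hx h1)]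
  field_simp
  ring

private lemma place_R_inv (x y : F) :
    place_R v ψ x⁻¹ y⁻¹ = - place_R v ψ x y := by
  unfold place_R
  rw [inv_inv, inv_inv, place_inv, place_inv]
  have h1 : y⁻¹ / x⁻¹ = (y / x)⁻¹ := by
    rw [div_eq_mul_inv, inv_inv, inv_div, div_eq_mul_inv, mul_comm]
  rw [h1, place_inv]
  abel

private lemma place_R_swap (x y : F) :
    place_R v ψ y x = - place_R v ψ x y := by
  unfold place_R
  rw [← inv_div y x, ← inv_div (1 - x) (1 - y), ← inv_div (1 - x⁻¹) (1 - y⁻¹), place_inv, place_inv,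
    place_inv]
  abel

private lemma place_R_sub {x y : F} (hx : x ≠ 0) (hx1 : x ≠ 1) (hy : y ≠ 0) (hy1 : y ≠ 1) :
    place_R v ψ (1 - x) (1 - y) = - place_R v ψ x y := by
  have h1 : 1 - x ≠ 0 := sub_ne_zero.2 (Ne.symm hx1)
  have h2 : 1 - y ≠ 0 := sub_ne_zero.2 (Ne.symm hy1)
  have h3 : 1 - y ≠ 1 := by
    intro h
    exact hy (by linear_combination -h)
  unfold place_R
  rw [place_b h1 h2 h3, place_b hx hy hy1, sub_sub_cancel, sub_sub_cancel]
  have h4 : (1 - y) / (1 - x) * (x / y) = (y / x * ((1 - x) / (1 - y)))⁻¹ := by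
    rw [mul_inv, inv_div, inv_div, mul_comm]
  rw [h4, ← inv_div (1 - x) (1 - y), ← inv_div y x, place_inv, place_inv, place_inv, place_sub, place_sub]
  abel

/-- The case `x = 0` in the residue field. -/
private lemma place_Z {x y : F} (hx : x ≠ 0) (hy : y ≠ 0) (hy1 : y ≠ 1)
    (h : v.I x) (h0 : v.ρ x = 0) : place_R v ψ x y = 0 := by
  have hu : v.I (1 - x) := v.isub 1 x v.i1 h
  have hu1 : v.ρ (1 - x) = 1 := by rw [v.rsub 1 x v.i1 h, v.r1, h0, sub_zero]
  have hu0 : v.ρ (1 - x) ≠ 0 := by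
    rw [hu1]
    exact one_ne_zero
  have hxi : ¬ v.I x⁻¹ := by
    intro h1
    have h2 := v.rmul x x⁻¹ h h1
    rw [mul_inv_cancel₀ hx, v.r1, h0, zero_mul] at h2
    exact one_ne_zero h2
  have hPx : place_P v ψ x = 0 := by rw [place_pos v ψ h, h0, ψ.zero]
  by_cases hy0 : v.I y ∧ v.ρ y = 0
  · have hw : v.I (1 - y) := v.isub 1 y v.i1 hy0.1
    have hw1 : v.ρ (1 - y) = 1 := by rw [v.rsub 1 y v.i1 hy0.1, v.r1, hy0.2, sub_zero]
    have hw0 : v.ρ (1 - y) ≠ 0 := by
      rw [hw1]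
      exact one_ne_zero
    have hc : v.I ((1 - x) / (1 - y)) := by
      rw [div_eq_mul_inv]
      exact v.imul _ _ hu (v.iinv _ hw hw0)
    have hc1 : v.ρ ((1 - x) / (1 - y)) = 1 := by
      rw [div_eq_mul_inv, v.rmul _ _ hu (v.iinv _ hw hw0), place_rinv v hw hw0, hu1, hw1, inv_one, mul_one]
    have hPy : place_P v ψ y = 0 := by rw [place_pos v ψ hy0.1, hy0.2, ψ.zero]
    unfold place_R
    rw [place_b hx hy hy1, place_unit v ψ hc hc1, hPx, hPy, place_pos v ψ hc, hc1, ψ.one]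
    abel
  · have hyi : v.I y⁻¹ := by
      by_cases h1 : v.I y
      · exact v.iinv y h1 (fun h2 => hy0 ⟨h1, h2⟩)
      · exact (v.itot y h1).1
    have ha : ¬ v.I (y / x) := by
      intro h1
      apply hxi
      have h2 := v.imul _ _ h1 hyi
      have h3 : y / x * y⁻¹ = x⁻¹ := by
        field_simp
      rwa [h3] at h2
    have h1y : 1 - y⁻¹ ≠ 0 := by
      rw [sub_ne_zero]
      intro h1
      exact hy1 (inv_eq_one.1 h1.symm)
    have hb : ¬ v.I ((1 - x⁻¹) / (1 - y⁻¹)) := by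
      intro h1
      apply hxi
      have h2 := v.imul _ _ h1 (v.isub 1 _ v.i1 hyi)
      rw [div_mul_cancel₀ _ h1y] at h2
      have h3 := v.isub 1 _ v.i1 h2
      rwa [sub_sub_cancel] at h3
    have hc : place_P v ψ ((1 - x) / (1 - y)) = place_P v ψ y := by
      rw [← inv_div (1 - y) (1 - x), place_inv, div_eq_mul_inv,
        place_unit v ψ (v.iinv _ hu hu0) (by rw [place_rinv v hu hu0, hu1, inv_one]), place_sub, neg_neg]
    unfold place_R
    rw [hPx, place_neg v ψ ha, place_neg v ψ hb, hc]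
    abel

/-- The case `x` in `0, 1, ∞` in the residue field. -/
private lemma place_Z3 {x y : F} (hx : x ≠ 0) (hx1 : x ≠ 1) (hy : y ≠ 0) (hy1 : y ≠ 1)
    (h : ¬ (v.I x ∧ v.ρ x ≠ 0 ∧ v.ρ x ≠ 1)) : place_R v ψ x y = 0 := by
  by_cases h1 : v.I x
  · by_cases h0 : v.ρ x = 0
    · exact place_Z v ψ hx hy hy1 h1 h0
    · have h2 : v.ρ x = 1 := by
        by_contra h2
        exact h ⟨h1, h0, h2⟩
      have h3 := place_Z v ψ (x := 1 - x) (y := 1 - y) (sub_ne_zero.2 (Ne.symm hx1))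
        (sub_ne_zero.2 (Ne.symm hy1)) (fun h => hy (by linear_combination -h)) (v.isub 1 x v.i1 h1)
        (by rw [v.rsub 1 x v.i1 h1, v.r1, h2, sub_self])
      rw [place_R_sub v ψ hx hx1 hy hy1, neg_eq_zero] at h3
      exact h3
  · obtain ⟨h2, h3⟩ := v.itot x h1
    have h4 := place_Z v ψ (x := x⁻¹) (y := y⁻¹) (inv_ne_zero hx) (inv_ne_zero hy)
      (fun h => hy1 (inv_eq_one.1 h)) h2 h3
    rw [place_R_inv, neg_eq_zero] at h4
    exact h4

private lemma place_five {x y : F} (hx : x ≠ 0) (hx1 : x ≠ 1) (hy : y ≠ 0) (hy1 : y ≠ 1) :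
    place_R v ψ x y = 0 := by
  by_cases h : v.I x ∧ v.ρ x ≠ 0 ∧ v.ρ x ≠ 1
  · by_cases h' : v.I y ∧ v.ρ y ≠ 0 ∧ v.ρ y ≠ 1
    · obtain ⟨h1, h2, h3⟩ := h
      obtain ⟨h4, h5, h6⟩ := h'
      have hu : v.I (1 - x) := v.isub 1 x v.i1 h1
      have hur : v.ρ (1 - x) = 1 - v.ρ x := by rw [v.rsub 1 x v.i1 h1, v.r1]
      have hw : v.I (1 - y) := v.isub 1 y v.i1 h4
      have hwr : v.ρ (1 - y) = 1 - v.ρ y := by rw [v.rsub 1 y v.i1 h4, v.r1]
      have hw0 : v.ρ (1 - y) ≠ 0 := by
        rw [hwr]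
        exact sub_ne_zero.2 (Ne.symm h6)
      have ha : v.I (y / x) := by
        rw [div_eq_mul_inv]
        exact v.imul _ _ h4 (v.iinv _ h1 h2)
      have har : v.ρ (y / x) = v.ρ y / v.ρ x := by
        rw [div_eq_mul_inv, v.rmul _ _ h4 (v.iinv _ h1 h2), place_rinv v h1 h2, div_eq_mul_inv]
      have hc : v.I ((1 - x) / (1 - y)) := by
        rw [div_eq_mul_inv]
        exact v.imul _ _ hu (v.iinv _ hw hw0)
      have hcr : v.ρ ((1 - x) / (1 - y)) = (1 - v.ρ x) / (1 - v.ρ y) := by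
        rw [div_eq_mul_inv, v.rmul _ _ hu (v.iinv _ hw hw0), place_rinv v hw hw0, hur, hwr, div_eq_mul_inv]
      have hb := place_b (F := F) hx hy hy1
      have hbr := place_b (F := k) h2 h5 h6
      have hbI : v.I (y / x * ((1 - x) / (1 - y))) := v.imul _ _ ha hc
      unfold place_R
      rw [hb, place_pos v ψ h1, place_pos v ψ h4, place_pos v ψ ha, place_pos v ψ hbI,
        place_pos v ψ hc, v.rmul _ _ ha hc, har, hcr]
      by_cases hxy : v.ρ x = v.ρ y
      · rw [hxy, div_self h5, div_self (sub_ne_zero.2 (Ne.symm h6)), mul_one, ψ.one]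
        abel
      · have h7 := ψ.five (v.ρ x) (v.ρ y) h2 h3 h5 h6 hxy
        rw [hbr] at h7
        exact h7
    · have h1 := place_Z3 v ψ hy hy1 hx hx1 h'
      rw [place_R_swap, neg_eq_zero] at h1
      exact h1
  · exact place_Z3 v ψ hx hx1 hy hy1 h

/-- The pull back of a five-term function by a place. -/
private def place_FV : FV F W where
  g := place_P v ψ
  zero := by rw [place_pos v ψ (place_i0 v), place_r0 v, ψ.zero]
  one := by rw [place_pos v ψ v.i1, v.r1, ψ.one]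
  inv := place_inv v ψ
  sub := place_sub v ψ
  five := fun _ _ hx hx1 hy hy1 _ => place_five v ψ hx hx1 hy hy1

end

section
variable (p : Pl K k)

private abbrev place_q (A B : K[X]) : RatFunc K :=
  algebraMap K[X] (RatFunc K) A / algebraMap K[X] (RatFunc K) B

private def place_I (x : RatFunc K) : Prop := ∃ A B : K[X], ¬ p.P ∣ B ∧ x = place_q A B

private def place_rho (x : RatFunc K) : k :=
  if h : place_I p x then p.r h.choose / p.r h.choose_spec.choose else 0

private lemma place_am {B : K[X]} (hB : B ≠ 0) : algebraMap K[X] (RatFunc K) B ≠ 0 :=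
  (map_ne_zero_iff _ (IsFractionRing.injective K[X] (RatFunc K))).2 hB

private lemma place_B0 {B : K[X]} (h : ¬ p.P ∣ B) : B ≠ 0 := by
  rintro rfl
  exact h (dvd_zero _)

private lemma place_rB {B : K[X]} (h : ¬ p.P ∣ B) : p.r B ≠ 0 := fun h1 => h ((p.ker B).1 h1)

private lemma place_cross {A B A' B' : K[X]} (hB : B ≠ 0) (hB' : B' ≠ 0)
    (h : place_q A B = place_q A' B') : A * B' = A' * B := by
  rw [div_eq_div_iff (place_am hB) (place_am hB')] at h
  apply IsFractionRing.injective K[X] (RatFunc K)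
  rw [map_mul, map_mul]
  exact h

private lemma place_rq {A B : K[X]} (h : ¬ p.P ∣ B) : place_rho p (place_q A B) = p.r A / p.r B := by
  have hI : place_I p (place_q A B) := ⟨A, B, h, rfl⟩
  unfold place_rho
  rw [dif_pos hI]
  obtain ⟨h1, h2⟩ := hI.choose_spec.choose_spec
  have h3 := place_cross (place_B0 p h) (place_B0 p h1) h2
  rw [div_eq_div_iff (place_rB p h1) (place_rB p h), ← map_mul, ← map_mul, h3]

private def place_pl : place_V (RatFunc K) k where
  I := place_I p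
  ρ := place_rho p
  i1 := ⟨1, 1, fun h => p.irr.not_isUnit (isUnit_of_dvd_one h), by simp [place_q]⟩
  r1 := by
    have h := place_rq p (A := 1) (B := 1) (fun h => p.irr.not_isUnit (isUnit_of_dvd_one h))
    simpa [place_q] using h
  isub := by
    rintro x y ⟨A, B, h1, rfl⟩ ⟨A', B', h2, rfl⟩
    refine ⟨A * B' - B * A', B * B', fun h => ?_, ?_⟩
    · rcases p.irr.prime.dvd_or_dvd h with h | h
      · exact h1 h
      · exact h2 h
    · rw [place_q, place_q, place_q, map_sub, map_mul, map_mul, map_mul,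
        div_sub_div _ _ (place_am (place_B0 p h1)) (place_am (place_B0 p h2))]
  rsub := by
    rintro x y ⟨A, B, h1, rfl⟩ ⟨A', B', h2, rfl⟩
    have h3 : ¬ p.P ∣ B * B' := by
      intro h
      rcases p.irr.prime.dvd_or_dvd h with h | h
      · exact h1 h
      · exact h2 h
    have h4 : place_q A B - place_q A' B' = place_q (A * B' - B * A') (B * B') := by
      rw [place_q, place_q, place_q, map_sub, map_mul, map_mul, map_mul,
        div_sub_div _ _ (place_am (place_B0 p h1)) (place_am (place_B0 p h2))]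
    rw [h4, place_rq p h3, place_rq p h1, place_rq p h2, map_sub, map_mul, map_mul, map_mul,
      div_sub_div _ _ (place_rB p h1) (place_rB p h2)]
  imul := by
    rintro x y ⟨A, B, h1, rfl⟩ ⟨A', B', h2, rfl⟩
    refine ⟨A * A', B * B', fun h => ?_, ?_⟩
    · rcases p.irr.prime.dvd_or_dvd h with h | h
      · exact h1 h
      · exact h2 h
    · rw [place_q, place_q, place_q, map_mul, map_mul, div_mul_div_comm]
  rmul := by
    rintro x y ⟨A, B, h1, rfl⟩ ⟨A', B', h2, rfl⟩
    have h3 : ¬ p.P ∣ B * B' := by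
      intro h
      rcases p.irr.prime.dvd_or_dvd h with h | h
      · exact h1 h
      · exact h2 h
    have h4 : place_q A B * place_q A' B' = place_q (A * A') (B * B') := by
      rw [place_q, place_q, place_q, map_mul, map_mul, div_mul_div_comm]
    rw [h4, place_rq p h3, place_rq p h1, place_rq p h2, map_mul, map_mul, div_mul_div_comm]
  iinv := by
    rintro x ⟨A, B, h1, rfl⟩ h0
    rw [place_rq p h1] at h0
    refine ⟨B, A, fun h => h0 ?_, ?_⟩
    · rw [(p.ker A).2 h, zero_div]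
    · rw [place_q, place_q, inv_div]
  itot := by
    intro x hx
    have hq : x = place_q x.num x.denom := (RatFunc.num_div_denom x).symm
    have h1 : p.P ∣ x.denom := by
      by_contra h1
      exact hx ⟨x.num, x.denom, h1, hq⟩
    have h2 : ¬ p.P ∣ x.num := by
      intro h2
      have h3 := (RatFunc.isCoprime_num_denom x).isUnit_of_dvd' h2 h1
      exact p.irr.not_isUnit h3
    have h3 : x⁻¹ = place_q x.denom x.num :=
      (congrArg (fun z => z⁻¹) hq).trans (inv_div _ _)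
    refine ⟨⟨x.denom, x.num, h2, h3⟩, ?_⟩
    rw [h3, place_rq p h2, (p.ker _).2 h1, zero_div]

end

theorem exists_pull (p : Pl K k) (ψ : FV k W) : ∃ φ : FV (RatFunc K) W,
    ∀ A B : K[X], B ≠ 0 → (¬ p.P ∣ A ∨ ¬ p.P ∣ B) → (p.P ∣ B → G φ A B = 0) ∧
      (¬ p.P ∣ B → G φ A B = ψ.g (p.r A / p.r B)) := by
  refine ⟨place_FV (place_pl p) ψ, fun A B hB h => ⟨fun h1 => ?_, fun h1 => ?_⟩⟩
  · have h2 : ¬ p.P ∣ A := by
      rcases h with h | h
      · exact h
      · exact absurd h1 h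
    apply place_neg (place_pl p) ψ
    rintro ⟨A', B', h3, h4⟩
    have h5 := place_cross hB (place_B0 p h3) h4
    have h6 : p.P ∣ A * B' := by
      rw [h5]
      exact h1.mul_left _
    rcases p.irr.prime.dvd_or_dvd h6 with h | h
    · exact h2 h
    · exact h3 h
  · have h2 : place_I p (place_q A B) := ⟨A, B, h1, rfl⟩
    have h3 : G (place_FV (place_pl p) ψ) A B = ψ.g (place_rho p (place_q A B)) :=
      place_pos (place_pl p) ψ h2
    rw [h3, place_rq p h1]

end SRG
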