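import Pool.Agent.SRG.Red2
import Pool.Agent.SRG.Gen
import Pool.Agent.SRG.Place

set_option autoImplicit false

/-!
# SRG-23c: the reduction theorem

`exists_sec` gives `s`, `bar` gives `ψ`, `exists_pull` for `ψ` gives `φ`; `f.diff φ` vanishes on
smooth elements of height `≤ d + e2` (`small`, `bar`); `gen_all`.
-/

noncomputable section

open Polynomial
open scoped Classical
open Helper11.Gon

namespace SRG

universe u v w

variable {K : Type u} [Field K] {W : Type w} [AddCommGroup W] [Module ℚ W]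
  {k : Type v} [Field k] {p : Pl K k} {S : Set K[X]}

theorem red (hS : Adm S p.d) (hP : p.P ∉ S) (f : FV (RatFunc K) W)
    (h : ∀ A B C : K[X], A ≠ 0 → B ≠ 0 → Sm S A → Sm S B → Sm S C → A - B = p.P * C →
      G f A B = 0) : ∃ ψ : FV k W, ∀ A B C : K[X], A + C = B → A ≠ 0 → B ≠ 0 → C ≠ 0 →
        Sm S A → Sm S B → Sm S C → G f A B = ψ.g (p.r A / p.r B) := by
  obtain ⟨s⟩ := exists_sec p
  obtain ⟨ψ, hψ⟩ := bar s hS hP f h
  obtain ⟨φ, hφ⟩ := exists_pull p ψ
  have hd : 1 ≤ p.d := p.irr.natDegree_pos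
  have hGd : ∀ A B : K[X], G (f.diff φ) A B = G f A B - G φ A B := fun _ _ => rfl
  have hpull : ∀ A B : K[X], B ≠ 0 → Sm S B → G φ A B = ψ.g (p.r A / p.r B) := by
    intro A B hB0 hB
    have nB : ¬ p.P ∣ B := hB.not_dvd hB0 p.monic p.irr hP
    exact (hφ A B hB0 (Or.inr nB)).2 nB
  have hV : Van S (f.diff φ) (p.d + (p.d - 1) / 2) := by
    intro A B C hs hA hB hC dA dB
    by_cases hA0 : A = 0
    · rw [hA0]
      exact G_zero_left _ B
    by_cases hB0 : B = 0
    · rw [hB0]
      exact G_zero_right _ A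
    by_cases hC0 : C = 0
    · rw [hC0, add_zero] at hs
      rw [hs]
      exact G_self _ B
    have nA : p.r A ≠ 0 := fun e => hA.not_dvd hA0 p.monic p.irr hP ((p.ker A).1 e)
    have nB : p.r B ≠ 0 := fun e => hB.not_dvd hB0 p.monic p.irr hP ((p.ker B).1 e)
    have nC : p.r C ≠ 0 := fun e => hC.not_dvd hC0 p.monic p.irr hP ((p.ker C).1 e)
    have n1 : p.r A / p.r B ≠ 1 := by
      intro e
      rw [div_eq_one_iff_eq nB, ← hs, map_add] at e
      exact nC (by linear_combination -e)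
    rw [hGd, hpull A B hB0 hB, small s hS hP f h hs hA0 hB0 hC0 hA hB hC dA dB,
      hψ _ (div_ne_zero nA nB) n1, sub_self]
  refine ⟨ψ, fun A B C hs hA0 hB0 hC0 hA hB hC => ?_⟩
  have h1 := gen_all hd hS (f.diff φ) hV (max A.natDegree B.natDegree) A B C hs hA hB hC
    (le_max_left _ _) (le_max_right _ _)
  rw [hGd, hpull A B hB0 hB] at h1
  exact sub_eq_zero.1 h1

end SRG
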