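import Pool.Agent.SRG.Basic

set_option autoImplicit false

/-!
# SRG-16a: vanishing after adding one prime

`van_insert`: let `A + C = B` be in `Sm (insert P S)`, of degree `≤ N < 2 d`.  If one is `0` the
claim is trivial (`G_self`, `G_zero_left`, `G_zero_right`).  Divide by the gcd of `A` and `B`
(`G_mul`; divisors of smooth elements are smooth).  Now at most one of `A`, `B`, `C` is divisible
by `P`.  If none is divisible they are in `Sm S` (`Sm.of_insert`): `h1`.  If `P ∣ C` then `A`, `B`
are in `Sm S` and `P ∣ A - B`: `h2`.  The other two cases follow by the symmetries `G_compl`,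
`G_swap` (replace `(A, B, C)` by `(C, B, A)`: `C + A = B`; and `(A, B, C)` by `(B, A, -C)`,
then by the first case; the degree of `C` is at most `N`).
-/

noncomputable section

open Polynomial
open scoped Classical
open Helper11.Gon

namespace SRG

universe u v w

variable {K : Type u} [Field K] {W : Type w} [AddCommGroup W] [Module ℚ W]

private lemma vanins_case {S : Set K[X]} {P : K[X]} (hi : Irreducible P)
    (g : FV (RatFunc K) W) {N : ℕ} (h1 : Van S g N)
    (h2 : ∀ A B : K[X], A ≠ 0 → B ≠ 0 → Sm S A → Sm S B → P ∣ A - B → A.natDegree ≤ N →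
      B.natDegree ≤ N → G g A B = 0)
    {A B C : K[X]} (h : A + C = B) (hA : Sm (insert P S) A) (hB : Sm (insert P S) B)
    (hC : Sm (insert P S) C) (dA : A.natDegree ≤ N) (dB : B.natDegree ≤ N)
    (A0 : A ≠ 0) (B0 : B ≠ 0) (C0 : C ≠ 0) (hc : IsCoprime A B) : G g A B = 0 := by
  have hCe : C = B - A := by rw [← h]; ring
  have dC : C.natDegree ≤ N := by
    rw [hCe]
    exact (Polynomial.natDegree_sub_le B A).trans (max_le dB dA)
  have hAB : P ∣ A → P ∣ B → False := fun a b => hi.not_isUnit (hc.isUnit_of_dvd' a b)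
  by_cases pA : P ∣ A
  · have pB : ¬ P ∣ B := fun b => hAB pA b
    have pC : ¬ P ∣ C := fun c => pB (by rw [← h]; exact dvd_add pA c)
    have e := h2 C B C0 B0 (hC.of_insert pC) (hB.of_insert pB)
      (by
        have : C - B = - A := by rw [← h]; ring
        rw [this]
        exact (dvd_neg).2 pA) dC dB
    rw [G_compl g h, e, neg_zero]
  · by_cases pB : P ∣ B
    · have pC : ¬ P ∣ C := fun c => pA (by
        have : A = B - C := by rw [← h]; ring
        rw [this]
        exact dvd_sub pB c)
      have e := h2 (-C) A (neg_ne_zero.2 C0) A0 (hC.of_insert pC).neg (hA.of_insert pA)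
        (by
          have : -C - A = - B := by rw [← h]; ring
          rw [this]
          exact (dvd_neg).2 pB) (by rw [Polynomial.natDegree_neg]; exact dC) dA
      have h' : B + (-C) = A := by rw [← h]; ring
      rw [G_swap g A B, G_compl g h', e, neg_zero, neg_zero]
    · by_cases pC : P ∣ C
      · exact h2 A B A0 B0 (hA.of_insert pA) (hB.of_insert pB)
          (by
            have : A - B = - C := by rw [← h]; ring
            rw [this]
            exact (dvd_neg).2 pC) dA dB
      · exact h1 A B C h (hA.of_insert pA) (hB.of_insert pB) (hC.of_insert pC) dA dB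

theorem van_insert {S : Set K[X]} {P : K[X]} (hm : P.Monic) (hi : Irreducible P)
    (g : FV (RatFunc K) W) {N : ℕ} (h1 : Van S g N)
    (h2 : ∀ A B : K[X], A ≠ 0 → B ≠ 0 → Sm S A → Sm S B → P ∣ A - B → A.natDegree ≤ N →
      B.natDegree ≤ N → G g A B = 0) : Van (insert P S) g N := by
  intro A B C h hA hB hC dA dB
  by_cases A0 : A = 0
  · rw [A0]; exact G_zero_left g B
  by_cases B0 : B = 0
  · rw [B0]; exact G_zero_right g A
  by_cases C0 : C = 0
  · have : A = B := by rw [← h, C0, add_zero]
    rw [this]; exact G_self g B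
  obtain ⟨A', hA'⟩ := EuclideanDomain.gcd_dvd_left A B
  obtain ⟨B', hB'⟩ := EuclideanDomain.gcd_dvd_right A B
  have hbz := EuclideanDomain.gcd_eq_gcd_ab A B
  set d := EuclideanDomain.gcd A B with hd
  have d0 : d ≠ 0 := fun z => A0 (by rw [hA', z, zero_mul])
  have A'0 : A' ≠ 0 := fun z => A0 (by rw [hA', z, mul_zero])
  have B'0 : B' ≠ 0 := fun z => B0 (by rw [hB', z, mul_zero])
  have hCd : C = d * (B' - A') := by
    have : C = B - A := by rw [← h]; ring
    rw [this, mul_sub, ← hA', ← hB']
  have C'0 : B' - A' ≠ 0 := fun z => C0 (by rw [hCd, z, mul_zero])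
  have hcop : IsCoprime A' B' := by
    refine ⟨EuclideanDomain.gcdA A B, EuclideanDomain.gcdB A B, ?_⟩
    have e : d * (EuclideanDomain.gcdA A B * A' + EuclideanDomain.gcdB A B * B') = d * 1 := by
      calc d * (EuclideanDomain.gcdA A B * A' + EuclideanDomain.gcdB A B * B')
          = (d * A') * EuclideanDomain.gcdA A B + (d * B') * EuclideanDomain.gcdB A B := by ring
        _ = A * EuclideanDomain.gcdA A B + B * EuclideanDomain.gcdB A B := by
            rw [← hA', ← hB']
        _ = d * 1 := by rw [← hbz, mul_one]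
    exact mul_left_cancel₀ d0 e
  have key := vanins_case (S := S) (P := P) hi g h1 h2 (A := A') (B := B') (C := B' - A')
    (by ring) (hA.dvd A0 ⟨d, by rw [hA']; ring⟩) (hB.dvd B0 ⟨d, by rw [hB']; ring⟩)
    (hC.dvd C0 ⟨d, by rw [hCd]; ring⟩)
    ((Polynomial.natDegree_le_of_dvd ⟨d, by rw [hA']; ring⟩ A0).trans dA)
    ((Polynomial.natDegree_le_of_dvd ⟨d, by rw [hB']; ring⟩ B0).trans dB) A'0 B'0 C'0 hcop
  have : G g A B = G g (d * A') (d * B') := by rw [← hA', ← hB']
  rw [this, G_mul g d0]
  exact key

end SRG
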