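import Pool.Agent.SRG.Stage

set_option autoImplicit false

/-!
# SRG-18a: the induction over the primes, finite steps

`EX S0 S f N`: there is an alternating form `o`, zero on `Sm S0`, such that `f.tw o` vanishes on
the smooth elements (for `S`) of height `≤ N`.
`ex_base`: `o = 0` and `raise` with `m = d`, `M = d - 1` (`(f.tw 0).g = f.g`).
`ex_insert`: take `o` from `h`, `o'` from `stage'` for `f.tw o`, and `o + o'`.
`ex_fin`: induction on the finite set `T` (`Finset.induction_on`; if `P` is already in the set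
nothing changes).
-/

noncomputable section

open Polynomial
open scoped Classical
open Helper11.Gon

namespace SRG

universe u v w

variable {K : Type u} [Field K] {W : Type w} [AddCommGroup W] [Module ℚ W]

/-- The monic irreducible polynomials of degree less than `n`. -/
def lt (K : Type u) [Field K] (n : ℕ) : Set K[X] :=
  {Q | Q.Monic ∧ Irreducible Q ∧ Q.natDegree < n}

/-- The smooth elements of height at most `N`. -/
def Fr (S : Set K[X]) (N : ℕ) : Set (RatFunc K) :=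
  {x | ∃ A B C : K[X], A + C = B ∧ Sm S A ∧ Sm S B ∧ Sm S C ∧ A.natDegree ≤ N ∧
    B.natDegree ≤ N ∧ x = algebraMap K[X] (RatFunc K) A / algebraMap K[X] (RatFunc K) B}

/-- See the header. -/
def EX (S0 S : Set K[X]) (f : FV (RatFunc K) W) (N : ℕ) : Prop :=
  ∃ o : AF (RatFunc K) W,
    (∀ A B : K[X], Sm S0 A → Sm S0 B → o.O (pl A) (pl B) = 0) ∧ Van S (f.tw o) N

lemma van_iff (S : Set K[X]) (f : FV (RatFunc K) W) (N : ℕ) :
    Van S f N ↔ ∀ x ∈ Fr S N, f.g x = 0 := by
  constructor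
  · rintro h x ⟨A, B, C, h1, h2, h3, h4, h5, h6, rfl⟩
    exact h A B C h1 h2 h3 h4 h5 h6
  · intro h A B C h1 h2 h3 h4 h5 h6
    exact h _ ⟨A, B, C, h1, h2, h3, h4, h5, h6, rfl⟩

lemma adm_lt (n : ℕ) : Adm (lt K n) n where
  monic := fun _ h => h.1
  irr := fun _ h => h.2.1
  le := fun _ h => h.2.2.le
  small := fun _ h1 h2 h3 => ⟨h1, h2, h3⟩

lemma adm_lt' (n : ℕ) : Adm (lt K (n + 1)) n where
  monic := fun _ h => h.1
  irr := fun _ h => h.2.1
  le := fun _ h => Nat.lt_succ_iff.1 h.2.2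
  small := fun _ h1 h2 h3 => ⟨h1, h2, h3.trans (Nat.lt_succ_self n)⟩

theorem ex_base {S0 : Set K[X]} {d : ℕ} (hd : 1 ≤ d) (hS : Adm S0 d) (f : FV (RatFunc K) W)
    (hV : Van S0 f (3 * d / 2)) : EX S0 S0 f (N0 d) := by
  have h1 : Van S0 f (N0 d) := raise hd (by omega) hS.le (fun A hA => hS.sm (by omega)) f hV
  refine ⟨⟨0, fun v => rfl⟩, fun A B _ _ => rfl, (van_iff _ _ _).2 fun x hx => ?_⟩
  have h2 := (van_iff _ _ _).1 h1 x hx
  show f.g x + (0 : W) = 0
  rw [h2, add_zero]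

theorem ex_insert {S0 S : Set K[X]} (h0 : S0 ⊆ S) {d : ℕ} (hS : Adm S d) {P : K[X]}
    (hm : P.Monic) (hi : Irreducible P) (hd : P.natDegree = d) (hP : P ∉ S)
    (f : FV (RatFunc K) W) (h : EX S0 S f (N0 d)) : EX S0 (insert P S) f (N0 d) := by
  obtain ⟨o, ho, hV⟩ := h
  obtain ⟨o', ho', hV'⟩ := stage' hS hm hi hd hP (f.tw o) hV
  refine ⟨⟨o.O + o'.O, fun v => ?_⟩, fun A B hA hB => ?_, (van_iff _ _ _).2 fun x hx => ?_⟩
  · rw [AddMonoidHom.add_apply, AddMonoidHom.add_apply, o.alt, o'.alt, add_zero]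
  · rw [AddMonoidHom.add_apply, AddMonoidHom.add_apply, ho A B hA hB,
      ho' A B (hA.mono h0) (hB.mono h0), add_zero]
  · have h2 : f.g x + o.O (lg x) (lg (1 - x)) + o'.O (lg x) (lg (1 - x)) = 0 :=
      (van_iff _ _ _).1 hV' x hx
    show f.g x + (o.O + o'.O) (lg x) (lg (1 - x)) = 0
    rw [AddMonoidHom.add_apply, AddMonoidHom.add_apply, ← add_assoc]
    exact h2

private lemma glob_adm {S : Set K[X]} {d : ℕ} (hS : Adm S d) (T : Finset K[X])
    (hT : ∀ Q ∈ T, Q.Monic ∧ Irreducible Q ∧ Q.natDegree = d) : Adm (S ∪ (T : Set K[X])) d where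
  monic := fun Q h => h.elim (hS.monic Q) fun h' => (hT Q (Finset.mem_coe.1 h')).1
  irr := fun Q h => h.elim (hS.irr Q) fun h' => (hT Q (Finset.mem_coe.1 h')).2.1
  le := fun Q h => h.elim (hS.le Q) fun h' => (hT Q (Finset.mem_coe.1 h')).2.2.le
  small := fun Q h1 h2 h3 => Or.inl (hS.small Q h1 h2 h3)

theorem ex_fin {S0 S : Set K[X]} (h0 : S0 ⊆ S) {d : ℕ} (hS : Adm S d)
    (f : FV (RatFunc K) W) (h : EX S0 S f (N0 d)) (T : Finset K[X])
    (hT : ∀ Q ∈ T, Q.Monic ∧ Irreducible Q ∧ Q.natDegree = d) :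
    EX S0 (S ∪ (T : Set K[X])) f (N0 d) := by
  induction T using Finset.induction_on with
  | empty =>
    rw [Finset.coe_empty, Set.union_empty]
    exact h
  | insert P T _ ih =>
    have hT' : ∀ Q ∈ T, Q.Monic ∧ Irreducible Q ∧ Q.natDegree = d := fun Q hQ =>
      hT Q (Finset.mem_insert_of_mem hQ)
    have h1 := ih hT'
    rw [Finset.coe_insert, Set.union_insert]
    by_cases hP : P ∈ S ∪ (T : Set K[X])
    · rw [Set.insert_eq_of_mem hP]
      exact h1
    · obtain ⟨h2, h3, h4⟩ := hT P (Finset.mem_insert_self P T)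
      exact ex_insert (h0.trans Set.subset_union_left) (glob_adm hS T hT') h2 h3 h4 hP f h1

end SRG
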