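import Pool.Agent.SRG.RaiseS

set_option autoImplicit false

/-!
# SRG-15b: raising the height

Induction on `N`: `Van S f N` for all `N ≤ M + (3 (m/2 + 1) + 1) / 2`.  For `N ≤ 3 m / 2` this is
`hV`.  Step from `N` to `N + 1` (`3 m / 2 < N + 1`): let
`A + C = B` be smooth of degrees `≤ N + 1`; if one of them is `0` use `G_self`, `G_zero_left`,
`G_zero_right`.  Divide `A`, `B`, `C` by the gcd of `A` and `B` (`G_mul`, `Sm.dvd`); if now the
degrees of `A` and `B` are `≤ N` use the induction hypothesis, otherwise `raise_step`.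
-/

noncomputable section

open Polynomial
open scoped Classical
open Helper11.Gon

namespace SRG

universe u v w

variable {K : Type u} [Field K] {W : Type w} [AddCommGroup W] [Module ℚ W]

private lemma raise_gcd {A B : K[X]} (hA : A ≠ 0) :
    ∃ g A' B' : K[X], g ≠ 0 ∧ A = g * A' ∧ B = g * B' ∧ IsCoprime A' B' := by
  have hg0 : EuclideanDomain.gcd A B ≠ 0 := by
    intro h
    exact hA (EuclideanDomain.gcd_eq_zero_iff.1 h).1
  obtain ⟨A', hA'⟩ := EuclideanDomain.gcd_dvd_left A B
  obtain ⟨B', hB'⟩ := EuclideanDomain.gcd_dvd_right A B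
  refine ⟨EuclideanDomain.gcd A B, A', B', hg0, hA', hB', ?_⟩
  refine ⟨EuclideanDomain.gcdA A B, EuclideanDomain.gcdB A B, ?_⟩
  have h1 := EuclideanDomain.gcd_eq_gcd_ab A B
  apply mul_left_cancel₀ hg0
  calc EuclideanDomain.gcd A B * (EuclideanDomain.gcdA A B * A' + EuclideanDomain.gcdB A B * B')
      = (EuclideanDomain.gcd A B * A') * EuclideanDomain.gcdA A B
        + (EuclideanDomain.gcd A B * B') * EuclideanDomain.gcdB A B := by ring
    _ = A * EuclideanDomain.gcdA A B + B * EuclideanDomain.gcdB A B := by rw [← hA', ← hB']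
    _ = EuclideanDomain.gcd A B := h1.symm
    _ = EuclideanDomain.gcd A B * 1 := (mul_one _).symm

theorem raise {S : Set K[X]} {m M : ℕ} (hm : 1 ≤ m) (hM : m ≤ M + 1)
    (hS1 : ∀ Q ∈ S, Q.natDegree ≤ m) (hS2 : ∀ A : K[X], A.natDegree ≤ M → Sm S A)
    (f : FV (RatFunc K) W) (hV : Van S f (3 * m / 2)) :
    Van S f (M + (3 * (m / 2 + 1) + 1) / 2) := by
  have key : ∀ N : ℕ, N ≤ M + (3 * (m / 2 + 1) + 1) / 2 → Van S f N := by
    intro N
    induction N with
    | zero =>
      intro _ A B C hs hA hB hC dA dB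
      exact hV A B C hs hA hB hC (le_trans dA (Nat.zero_le _)) (le_trans dB (Nat.zero_le _))
    | succ N ihN =>
      intro hN A B C hs hA hB hC dA dB
      have ih : Van S f N := ihN (by omega)
      by_cases hle : N + 1 ≤ 3 * m / 2
      · exact hV A B C hs hA hB hC (le_trans dA hle) (le_trans dB hle)
      by_cases hA0 : A = 0
      · rw [hA0]
        exact G_zero_left f B
      by_cases hB0 : B = 0
      · rw [hB0]
        exact G_zero_right f A
      by_cases hC0 : C = 0
      · have hAB : A = B := by rw [← hs, hC0, add_zero]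
        rw [hAB]
        exact G_self f B
      obtain ⟨g, A', B', hg0, hA', hB', hco⟩ := raise_gcd (A := A) (B := B) hA0
      obtain ⟨C', hC'⟩ : ∃ C' : K[X], C' = B' - A' := ⟨_, rfl⟩
      have hCg : C = g * C' := by
        rw [hC', mul_sub, ← hA', ← hB', ← hs]
        ring
      have hA'0 : A' ≠ 0 := by
        intro h
        exact hA0 (by rw [hA', h, mul_zero])
      have hB'0 : B' ≠ 0 := by
        intro h
        exact hB0 (by rw [hB', h, mul_zero])
      have hC'0 : C' ≠ 0 := by
        intro h
        exact hC0 (by rw [hCg, h, mul_zero])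
      have sA' : Sm S A' := Sm.dvd hA hA0 ⟨g, by rw [mul_comm, ← hA']⟩
      have sB' : Sm S B' := Sm.dvd hB hB0 ⟨g, by rw [mul_comm, ← hB']⟩
      have sC' : Sm S C' := Sm.dvd hC hC0 ⟨g, by rw [mul_comm, ← hCg]⟩
      have eA : A.natDegree = g.natDegree + A'.natDegree := by
        rw [hA', natDegree_mul hg0 hA'0]
      have eB : B.natDegree = g.natDegree + B'.natDegree := by
        rw [hB', natDegree_mul hg0 hB'0]
      have hs' : A' + C' = B' := by
        rw [hC']
        ring
      have hG : G f A B = G f A' B' := by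
        rw [hA', hB', G_mul f hg0]
      rw [hG]
      by_cases hd : A'.natDegree ≤ N ∧ B'.natDegree ≤ N
      · exact ih A' B' C' hs' sA' sB' sC' hd.1 hd.2
      · exact raise_step hm hM hS1 hS2 f hV (by omega) hN ih hs' sA' sB' sC' hA'0 hB'0 hC'0 hco
          (by omega) (by omega) (by omega)
  exact key _ le_rfl

end SRG
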