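import Pool.Agent.SRG.Geq
import Pool.Agent.SRG.Raise
import Pool.Agent.SRG.VanIns

set_option autoImplicit false

/-!
# SRG-16: adding one prime

`exists_plOf`: the closed point given by a monic irreducible polynomial, with residue field
`AdjoinRoot P` (`AdjoinRoot.mk P`, `AdjoinRoot.mk_eq_zero`).
`stage`: `exists_sec`, `exists_ldata`, `G_eq` give `L = D.L`; `exists_ord` gives `v`; take
`o = vL v L`: `O x y = v x • L y - v y • L x`.  Then `o.O (pl A) (pl B) = 0` for smooth `A`, `B`
(if `A`, `B ≠ 0` they are not divisible by `P`; `pl 0 = 0`).  Then apply `van_insert` to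
`f.tw o` with `N = 3 d / 2 < 2 d` (also `3 d / 2 ≤ N0 d`): for smooth `A`, `B`, `C` the value of
`f` is `0` by `hV` and the three values of `o` in `G_tw` are `0`; if `A - B` is divisible by `P`,
`A + P C' = B`, by `G_tw` the value is
`G f A B + o(A, P C') - o(A, B) - o(B, P C') = G f A B - L(A) + L(B) = 0` by `G_eq` (as
`v(P C') = 1`, `v(A) = v(B) = 0`; `C'` is smooth of degree `< d`; if `A = B` the claim is
trivial).
-/

noncomputable section

open Polynomial
open scoped Classical
open Helper11.Gon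

namespace SRG

universe u v w

variable {K : Type u} [Field K] {W : Type w} [AddCommGroup W] [Module ℚ W]

/-- The closed point given by a monic irreducible polynomial. -/
theorem exists_plOf {P : K[X]} (hm : P.Monic) (hi : Irreducible P) :
    ∃ (k : Type u) (_ : Field k) (p : Pl K k), p.P = P := by
  have : Fact (Irreducible P) := ⟨hi⟩
  exact ⟨AdjoinRoot P, inferInstance,
    { P := P
      monic := hm
      irr := hi
      r := AdjoinRoot.mk P
      surj := AdjoinRoot.mk_surjective
      ker := fun A => AdjoinRoot.mk_eq_zero }, rfl⟩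

/-- The alternating form `v ∧ L`. -/
def vL {F : Type u} [Field F] (v : Additive Fˣ →+ ℤ) (L : Additive Fˣ →+ W) : AF F W where
  O := AddMonoidHom.mk' (fun x => AddMonoidHom.mk' (fun y => v x • L y - v y • L x) (by
      intro y z
      simp only [map_add, smul_add, add_smul]
      abel)) (by
      intro x y
      refine AddMonoidHom.ext fun z => ?_
      simp only [map_add, smul_add, add_smul, AddMonoidHom.mk'_apply, AddMonoidHom.add_apply]
      abel)
  alt := by
    intro x
    simp

lemma vL_apply {F : Type u} [Field F] (v : Additive Fˣ →+ ℤ) (L : Additive Fˣ →+ W)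
    (x y : Additive Fˣ) : (vL v L).O x y = v x • L y - v y • L x := rfl

private lemma stage_v {S : Set K[X]} {P : K[X]} (hm : P.Monic) (hi : Irreducible P) (hP : P ∉ S)
    {v : Additive (RatFunc K)ˣ →+ ℤ} (hv : ∀ A : K[X], A ≠ 0 → ¬ P ∣ A → v (pl A) = 0)
    {A : K[X]} (hA : Sm S A) : v (pl A) = 0 := by
  by_cases h0 : A = 0
  · rw [h0, pl_zero, map_zero]
  · exact hv A h0 (hA.not_dvd h0 hm hi hP)

private lemma stage_N0 {d : ℕ} (hd : 1 ≤ d) : 3 * d / 2 ≤ N0 d := by
  unfold N0
  omega

/-- Adding one prime of degree `d`. -/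
theorem stage {S : Set K[X]} {d : ℕ} (hS : Adm S d) {P : K[X]} (hm : P.Monic)
    (hi : Irreducible P) (hd : P.natDegree = d) (hP : P ∉ S) (f : FV (RatFunc K) W)
    (hV : Van S f (N0 d)) : ∃ o : AF (RatFunc K) W,
      (∀ A B : K[X], Sm S A → Sm S B → o.O (pl A) (pl B) = 0) ∧
      Van (insert P S) (f.tw o) (3 * d / 2) := by
  obtain ⟨k, ik, p, rfl⟩ := exists_plOf hm hi
  have hpd : p.d = d := hd
  subst hpd
  obtain ⟨s⟩ := exists_sec p
  obtain ⟨D⟩ := exists_ldata s f hS hV
  obtain ⟨v, hv1, hv0⟩ := exists_ord hm hi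
  have hpos : 1 ≤ p.d := hi.natDegree_pos
  have hvS : ∀ A : K[X], Sm S A → v (pl A) = 0 := fun A hA => stage_v hm hi hP hv0 hA
  have hO : ∀ A B : K[X], Sm S A → Sm S B → (vL v D.L).O (pl A) (pl B) = 0 := by
    intro A B hA hB
    rw [vL_apply, hvS A hA, hvS B hB, zero_smul, zero_smul, sub_zero]
  refine ⟨vL v D.L, hO, van_insert hm hi _ ?_ ?_⟩
  · intro A B C hs hA hB hC dA dB
    by_cases hA0 : A = 0
    · rw [hA0]
      exact G_zero_left _ B
    by_cases hB0 : B = 0
    · rw [hB0]
      exact G_zero_right _ A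
    by_cases hC0 : C = 0
    · rw [hC0, add_zero] at hs
      rw [hs]
      exact G_self _ B
    rw [G_tw f (vL v D.L) hs hA0 hB0 hC0, hO A C hA hC, hO A B hA hB, hO B C hB hC,
      hV A B C hs hA hB hC (dA.trans (stage_N0 hpos)) (dB.trans (stage_N0 hpos))]
    simp
  · intro A B hA0 hB0 hA hB hdv dA dB
    by_cases hAB : A = B
    · rw [hAB]
      exact G_self _ B
    have h1 : p.P ∣ B - A := by
      have h3 := (dvd_neg (a := p.P)).2 hdv
      rwa [neg_sub] at h3
    obtain ⟨C, hC⟩ := h1
    have hBA : B - A ≠ 0 := fun h => hAB (sub_eq_zero.1 h).symm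
    have hC0 : C ≠ 0 := by
      rintro rfl
      exact hBA (by rw [hC, mul_zero])
    have hdeg : (B - A).natDegree ≤ 3 * p.d / 2 :=
      (natDegree_sub_le B A).trans (max_le dB dA)
    have hPd : p.P.natDegree = p.d := rfl
    rw [hC, natDegree_mul hi.ne_zero hC0, hPd] at hdeg
    have hCs : Sm S C := hS.sm (by omega)
    have hs : A + p.P * C = B := by
      rw [← hC]
      ring
    have hPC : p.P * C ≠ 0 := mul_ne_zero hi.ne_zero hC0
    have hvC : v (pl (p.P * C)) = 1 := by
      rw [pl_mul hi.ne_zero hC0, map_add, hv1, hvS C hCs, add_zero]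
    rw [G_tw f (vL v D.L) hs hA0 hB0 hPC, hO A B hA hB,
      G_eq hS hP hV D hA hB hA0 hB0 hdv (by omega) (by omega), vL_apply, vL_apply, hvC,
      hvS A hA, hvS B hB]
    simp only [zero_smul, one_smul, zero_sub, sub_zero]
    abel

/-- The same with the height `N0 d`, by `raise` with `m = d`, `M = d - 1`. -/
theorem stage' {S : Set K[X]} {d : ℕ} (hS : Adm S d) {P : K[X]} (hm : P.Monic)
    (hi : Irreducible P) (hd : P.natDegree = d) (hP : P ∉ S) (f : FV (RatFunc K) W)
    (hV : Van S f (N0 d)) : ∃ o : AF (RatFunc K) W,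
      (∀ A B : K[X], Sm S A → Sm S B → o.O (pl A) (pl B) = 0) ∧
      Van (insert P S) (f.tw o) (N0 d) := by
  obtain ⟨o, ho, hvan⟩ := stage hS hm hi hd hP f hV
  have hpos : 1 ≤ d := hd ▸ hi.natDegree_pos
  have hAd : Adm (insert P S) d := hS.insert hm hi hd
  exact ⟨o, ho, raise (m := d) (M := d - 1) hpos (by omega) hAd.le
    (fun A hA => hAd.sm (by omega)) (f.tw o) hvan⟩

end SRG
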