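import Pool.Agent.SRG.A1b

set_option autoImplicit false

/-!
# SRG-20a: the group of fractions which are `1` modulo `P`

`mem_KG`: the set in the definition of `KG` is closed under addition and negation
(`pl_mul`: `A A' - B B'` is divisible by `P`).
`KG_gen`: for smooth `A`, `B` with the same class modulo `P`, `A / B = k(A) / k(B)` with
`k(Y) = Y / s(Y)` (as `s(A) = s(B)`); so it suffices to see that `pl (Y b(Y)) - pl (a(Y))` is in the
closure for every smooth nonzero `Y` (`sm_ind`): for a constant it is `0` (`Sec.low`), for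
`Y = Q ∈ S` (degree `≤ d`) it is a generator (`deg (Q b) ≤ d + e2`, `e2 = (d - 1) / 2`), and
`k(Y Z) = k(Y) k(Z) g(Y, Z)` with `g(Y, Z) = s(Y) s(Z) / s(Y Z)` of height
`≤ 2 e1 + e2 ≤ d + e2` (numerator `a1 a2 b`, denominator `b1 b2 a`).
-/

noncomputable section

open Polynomial
open scoped Classical
open Helper11.Gon

namespace SRG

universe u v w

variable {K : Type u} [Field K] {W : Type w} [AddCommGroup W] [Module ℚ W]
  {k : Type v} [Field k] (p : Pl K k) (S : Set K[X])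

/-- The classes of the smooth fractions which are `1` modulo `P`. -/
def KG : AddSubgroup (Additive (RatFunc K)ˣ) :=
  AddSubgroup.closure {x | ∃ A B : K[X], A ≠ 0 ∧ B ≠ 0 ∧ Sm S A ∧ Sm S B ∧ p.P ∣ A - B ∧
    x = pl A - pl B}

variable {p S}

lemma mem_KG {x : Additive (RatFunc K)ˣ} : x ∈ KG p S ↔ ∃ A B : K[X], A ≠ 0 ∧ B ≠ 0 ∧
    Sm S A ∧ Sm S B ∧ p.P ∣ A - B ∧ x = pl A - pl B := by
  constructor
  · intro hx
    refine AddSubgroup.closure_induction ?_ ?_ ?_ ?_ hx
    · intro x hx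
      exact hx
    · exact ⟨1, 1, one_ne_zero, one_ne_zero, sm_one S, sm_one S, by simp, by simp⟩
    · rintro x y - - ⟨A, B, hA, hB, hsA, hsB, hd, rfl⟩ ⟨A', B', hA', hB', hsA', hsB', hd', rfl⟩
      refine ⟨A * A', B * B', mul_ne_zero hA hA', mul_ne_zero hB hB', hsA.mul hsA',
        hsB.mul hsB', ?_, ?_⟩
      · have h : A * A' - B * B' = A * (A' - B') + (A - B) * B' := by ring
        rw [h]
        exact dvd_add (Dvd.dvd.mul_left hd' A) (Dvd.dvd.mul_right hd B')
      · rw [pl_mul hA hA', pl_mul hB hB']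
        abel
    · rintro x - ⟨A, B, hA, hB, hsA, hsB, hd, rfl⟩
      refine ⟨B, A, hB, hA, hsB, hsA, ?_, by abel⟩
      rw [← neg_sub]
      exact (dvd_neg).2 hd
  · rintro ⟨A, B, hA, hB, hsA, hsB, hd, rfl⟩
    exact AddSubgroup.subset_closure ⟨A, B, hA, hB, hsA, hsB, hd, rfl⟩

lemma KG_mk {A B : K[X]} (hA0 : A ≠ 0) (hB0 : B ≠ 0) (hA : Sm S A) (hB : Sm S B)
    (h : p.P ∣ A - B) : pl A - pl B ∈ KG p S :=
  AddSubgroup.subset_closure ⟨A, B, hA0, hB0, hA, hB, h, rfl⟩

private lemma kg_r {A B : K[X]} : p.P ∣ A - B ↔ p.r A = p.r B := by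
  rw [← p.ker, map_sub, sub_eq_zero]

private lemma kg_sm {Q : K[X]} (hS : Adm S p.d) (hQ : Q ∈ S) : Sm S Q := by
  refine Or.inr fun R hR hiR hd => ?_
  have h1 : Associated R Q := (hiR.dvd_irreducible_iff_associated (hS.irr Q hQ)).1 hd
  have h2 : R = Q := Polynomial.eq_of_monic_of_associated hR (hS.monic Q hQ) h1
  rw [h2]
  exact hQ

/-- `KG` is generated by elements of height at most `d + (d - 1) / 2`. -/
theorem KG_gen (hS : Adm S p.d) (hP : p.P ∉ S) : KG p S =
    AddSubgroup.closure {x | ∃ A B : K[X], A ≠ 0 ∧ B ≠ 0 ∧ Sm S A ∧ Sm S B ∧ p.P ∣ A - B ∧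
      A.natDegree ≤ p.d + (p.d - 1) / 2 ∧ B.natDegree ≤ p.d + (p.d - 1) / 2 ∧
      x = pl A - pl B} := by
  obtain ⟨s⟩ := exists_sec p
  have hd1 := p.d_pos
  apply le_antisymm
  · rw [KG, AddSubgroup.closure_le]
    set H : AddSubgroup (Additive (RatFunc K)ˣ) :=
      AddSubgroup.closure {x | ∃ A B : K[X], A ≠ 0 ∧ B ≠ 0 ∧ Sm S A ∧ Sm S B ∧ p.P ∣ A - B ∧
        A.natDegree ≤ p.d + (p.d - 1) / 2 ∧ B.natDegree ≤ p.d + (p.d - 1) / 2 ∧
        x = pl A - pl B} with hH
    have hr : ∀ Y : K[X], Y ≠ 0 → Sm S Y → p.r Y ≠ 0 := fun Y h0 hY h =>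
      hY.not_dvd h0 p.monic p.irr hP ((p.ker Y).1 h)
    have hsa : ∀ x : k, Sm S (s.a x) := fun x =>
      hS.sm (lt_of_le_of_lt (s.a_deg x) (by omega))
    have hsb : ∀ x : k, Sm S (s.b x) := fun x =>
      hS.sm (lt_of_le_of_lt (s.b_deg x) (by omega))
    have key : ∀ Y : K[X], Y ≠ 0 → Sm S Y →
        pl (Y * s.b (p.r Y)) - pl (s.a (p.r Y)) ∈ H := by
      intro Y hY0 hY
      refine sm_ind (S := S) (M := fun Y => pl (Y * s.b (p.r Y)) - pl (s.a (p.r Y)) ∈ H)
        ?_ ?_ ?_ Y hY0 hY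
      · intro c hc
        show pl (C c * s.b (p.r (C c))) - pl (s.a (p.r (C c))) ∈ H
        rw [s.low (C_ne_zero.2 hc) (by rw [natDegree_C]; omega), sub_self]
        exact H.zero_mem
      · intro Q hQ hm hi
        have hQ0 : Q ≠ 0 := hm.ne_zero
        have hrQ := hr Q hQ0 (kg_sm hS hQ)
        have hb := s.b_ne _ hrQ
        have ha := s.a_ne _ hrQ
        have h1 := s.a_deg (p.r Q)
        have h2 := s.b_deg (p.r Q)
        have h3 := hS.le Q hQ
        refine AddSubgroup.subset_closure ⟨Q * s.b (p.r Q), s.a (p.r Q), mul_ne_zero hQ0 hb, ha,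
          (kg_sm hS hQ).mul (hsb _), hsa _, ?_, ?_, by omega, rfl⟩
        · rw [kg_r, map_mul, s.eq _ hrQ]
        · exact le_trans natDegree_mul_le (by omega)
      · intro Y Z hY0 hZ0 hY hZ hMY hMZ
        show pl (Y * Z * s.b (p.r (Y * Z))) - pl (s.a (p.r (Y * Z))) ∈ H
        have hMY' : pl (Y * s.b (p.r Y)) - pl (s.a (p.r Y)) ∈ H := hMY
        have hMZ' : pl (Z * s.b (p.r Z)) - pl (s.a (p.r Z)) ∈ H := hMZ
        have hy := hr Y hY0 hY
        have hz := hr Z hZ0 hZ
        have hyz : p.r Y * p.r Z ≠ 0 := mul_ne_zero hy hz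
        rw [map_mul]
        have hay := s.a_ne _ hy
        have haz := s.a_ne _ hz
        have hby := s.b_ne _ hy
        have hbz := s.b_ne _ hz
        have hayz := s.a_ne _ hyz
        have hbyz := s.b_ne _ hyz
        have d1 := s.a_deg (p.r Y)
        have d2 := s.a_deg (p.r Z)
        have d3 := s.a_deg (p.r Y * p.r Z)
        have d4 := s.b_deg (p.r Y)
        have d5 := s.b_deg (p.r Z)
        have d6 := s.b_deg (p.r Y * p.r Z)
        have hg : pl (s.a (p.r Y) * s.a (p.r Z) * s.b (p.r Y * p.r Z)) -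
            pl (s.b (p.r Y) * s.b (p.r Z) * s.a (p.r Y * p.r Z)) ∈ H := by
          refine AddSubgroup.subset_closure ⟨_, _, mul_ne_zero (mul_ne_zero hay haz) hbyz,
            mul_ne_zero (mul_ne_zero hby hbz) hayz, ((hsa _).mul (hsa _)).mul (hsb _),
            ((hsb _).mul (hsb _)).mul (hsa _), ?_, ?_, ?_, rfl⟩
          · rw [kg_r]
            simp only [map_mul]
            rw [s.eq _ hy, s.eq _ hz, s.eq _ hyz]
            ring
          · refine le_trans natDegree_mul_le ?_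
            have h := natDegree_mul_le (p := s.a (p.r Y)) (q := s.a (p.r Z))
            omega
          · refine le_trans natDegree_mul_le ?_
            have h := natDegree_mul_le (p := s.b (p.r Y)) (q := s.b (p.r Z))
            omega
        have h := H.add_mem (H.add_mem hMY' hMZ') hg
        rw [pl_mul (mul_ne_zero hY0 hZ0) hbyz, pl_mul hY0 hZ0]
        rw [pl_mul hY0 hby, pl_mul hZ0 hbz, pl_mul (mul_ne_zero hay haz) hbyz, pl_mul hay haz,
          pl_mul (mul_ne_zero hby hbz) hayz, pl_mul hby hbz] at h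
        have e : pl Y + pl Z + pl (s.b (p.r Y * p.r Z)) - pl (s.a (p.r Y * p.r Z)) =
            pl Y + pl (s.b (p.r Y)) - pl (s.a (p.r Y)) +
              (pl Z + pl (s.b (p.r Z)) - pl (s.a (p.r Z))) +
            (pl (s.a (p.r Y)) + pl (s.a (p.r Z)) + pl (s.b (p.r Y * p.r Z)) -
              (pl (s.b (p.r Y)) + pl (s.b (p.r Z)) + pl (s.a (p.r Y * p.r Z)))) := by
          abel
        rw [e]
        exact h
    rintro x ⟨A, B, hA, hB, hsA, hsB, hd, rfl⟩
    have h1 := key A hA hsA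
    have h2 := key B hB hsB
    have hrr : p.r A = p.r B := kg_r.1 hd
    have hrA := hr A hA hsA
    rw [← hrr] at h2
    have hb := s.b_ne _ hrA
    have h3 := H.sub_mem h1 h2
    rw [pl_mul hA hb, pl_mul hB hb] at h3
    have e : pl A - pl B = pl A + pl (s.b (p.r A)) - pl (s.a (p.r A)) -
        (pl B + pl (s.b (p.r A)) - pl (s.a (p.r A))) := by
      abel
    show pl A - pl B ∈ H
    rw [e]
    exact h3
  · rw [AddSubgroup.closure_le]
    rintro x ⟨A, B, hA, hB, hsA, hsB, hd, -, -, rfl⟩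
    exact KG_mk hA hB hsA hsB hd

end SRG
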