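import Pool.Agent.SRG.KG

set_option autoImplicit false

/-!
# SRG-20c: the kernel of the reduction, rationally

Let `n` be a common denominator of the values of `c`, `n c = m` (integral).  Then
`1 ⊗ ∑ m(A) lg(r A) = 0`, so `∑ m(A) lg (r A)` is a torsion element (`ℚ ⊗ M` is the localisation
of `M`), killed by `N > 0`.  Let `A⁺` be the product of the `A ^ (N m(A))` with `m(A) > 0`, `A⁻` the
product of the `A ^ (- N m(A))` with `m(A) < 0`.  They are smooth and `r A⁺ = r A⁻`, so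
`pl A⁺ - pl A⁻ = ∑ N m(A) pl A` is in `KG`, and the element is `(N n)⁻¹ ⊗` this.
-/

noncomputable section

open Polynomial TensorProduct
open scoped Classical
open Helper11.Gon

namespace SRG

universe u v w

variable {K : Type u} [Field K] {k : Type v} [Field k] {p : Pl K k} {S : Set K[X]}

private lemma kq_r (hP : p.P ∉ S) {A : K[X]} (h0 : A ≠ 0) (hA : Sm S A) : p.r A ≠ 0 := fun h =>
  hA.not_dvd h0 p.monic p.irr hP ((p.ker A).1 h)

private lemma kq_alg {A : K[X]} (h : A ≠ 0) : algebraMap K[X] (RatFunc K) A ≠ 0 :=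
  (map_ne_zero_iff _ (RatFunc.algebraMap_injective K)).2 h

private lemma kq_pow {A : K[X]} (hA : Sm S A) (n : ℕ) : Sm S (A ^ n) := by
  induction n with
  | zero => rw [pow_zero]; exact sm_one S
  | succ n ih => rw [pow_succ]; exact ih.mul hA

private lemma kq_pl_pow {A : K[X]} (h : A ≠ 0) (n : ℕ) : pl (A ^ n) = n • pl A := by
  rw [pl, map_pow, lg_pow (kq_alg h), pl]

private lemma kq_split (hP : p.P ∉ S) (s : Finset K[X]) (hs : ∀ A ∈ s, A ≠ 0 ∧ Sm S A)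
    (m : K[X] → ℤ) : ∃ B C : K[X], B ≠ 0 ∧ C ≠ 0 ∧ Sm S B ∧ Sm S C ∧
      pl B - pl C = ∑ A ∈ s, m A • pl A ∧
      lg (p.r B) - lg (p.r C) = ∑ A ∈ s, m A • lg (p.r A) := by
  induction s using Finset.induction_on with
  | empty => exact ⟨1, 1, one_ne_zero, one_ne_zero, sm_one S, sm_one S, by simp, by simp⟩
  | insert A s hA ih =>
    obtain ⟨B, C, hB, hC, hsB, hsC, h1, h2⟩ := ih fun A' hA' => hs A' (Finset.mem_insert_of_mem hA')
    obtain ⟨hA0, hAS⟩ := hs A (Finset.mem_insert_self A s)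
    have hrA := kq_r hP hA0 hAS
    have hrB := kq_r hP hB hsB
    have hrC := kq_r hP hC hsC
    rw [Finset.sum_insert hA, Finset.sum_insert hA, ← h1, ← h2]
    rcases le_total 0 (m A) with hm | hm
    · obtain ⟨k, hk⟩ := Int.eq_ofNat_of_zero_le hm
      refine ⟨A ^ k * B, C, mul_ne_zero (pow_ne_zero _ hA0) hB, hC, (kq_pow hAS k).mul hsB, hsC,
        ?_, ?_⟩
      · rw [pl_mul (pow_ne_zero _ hA0) hB, kq_pl_pow hA0, hk, natCast_zsmul]
        abel
      · rw [map_mul, map_pow, lg_mul (pow_ne_zero _ hrA) hrB, lg_pow hrA, hk, natCast_zsmul]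
        abel
    · obtain ⟨k, hk⟩ := Int.eq_ofNat_of_zero_le (neg_nonneg.2 hm)
      have hk' : m A = -(k : ℤ) := by rw [← hk, neg_neg]
      refine ⟨B, A ^ k * C, hB, mul_ne_zero (pow_ne_zero _ hA0) hC, hsB, (kq_pow hAS k).mul hsC,
        ?_, ?_⟩
      · rw [pl_mul (pow_ne_zero _ hA0) hC, kq_pl_pow hA0, hk', neg_zsmul, natCast_zsmul]
        abel
      · rw [map_mul, map_pow, lg_mul (pow_ne_zero _ hrA) hrC, lg_pow hrA, hk', neg_zsmul,
          natCast_zsmul]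
        abel

private lemma kq_lg_inj {x y : k} (hx : x ≠ 0) (hy : y ≠ 0) (h : lg x = lg y) : x = y := by
  rw [lg, lg, dif_neg hx, dif_neg hy] at h
  have h1 := congrArg (fun z : Additive kˣ => ((z.toMul : kˣ) : k)) h
  exact h1

private lemma kq_den {α : Type u} (s : Finset α) (c : α → ℚ) :
    ∃ n : ℕ, n ≠ 0 ∧ ∃ m : α → ℤ, ∀ A ∈ s, (n : ℚ) * c A = m A := by
  induction s using Finset.induction_on with
  | empty => exact ⟨1, one_ne_zero, fun _ => 0, by simp⟩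
  | insert A s hA ih =>
    obtain ⟨n, hn, m, hm⟩ := ih
    refine ⟨(c A).den * n, mul_ne_zero (c A).den_nz hn,
      fun B => if B = A then (c A).num * n else (c A).den * m B, ?_⟩
    intro B hB
    beta_reduce
    by_cases hBA : B = A
    · subst hBA
      rw [if_pos rfl]
      push_cast
      have h := Rat.den_mul_eq_num (c B)
      linear_combination (n : ℚ) * h
    · rw [if_neg hBA]
      have h := hm B (Finset.mem_of_mem_insert_of_ne hB hBA)
      push_cast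
      linear_combination ((c A).den : ℚ) * h

private lemma kq_tors {M : Type v} [AddCommGroup M] (m : M)
    (h : ((1 : ℚ) ⊗ₜ[ℤ] m : ℚ ⊗[ℤ] M) = 0) : ∃ N : ℤ, N ≠ 0 ∧ N • m = 0 := by
  have h' := IsLocalizedModule.eq_zero_iff (nonZeroDivisors ℤ) (TensorProduct.mk ℤ ℚ M 1)
    (m := m)
  rw [TensorProduct.mk_apply] at h'
  obtain ⟨N, hN⟩ := h'.1 h
  exact ⟨N, nonZeroDivisors.coe_ne_zero N, hN⟩

private lemma kq_sum {M : Type w} [AddCommGroup M] {α : Type u} (s : Finset α) (c : α → ℚ)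
    (f : α → M) (t : ℚ) (m : α → ℤ) (hm : ∀ A ∈ s, t * c A = m A) :
    t • ∑ A ∈ s, (c A ⊗ₜ[ℤ] f A : ℚ ⊗[ℤ] M) = (1 : ℚ) ⊗ₜ[ℤ] ∑ A ∈ s, m A • f A := by
  rw [Finset.smul_sum, TensorProduct.tmul_sum]
  refine Finset.sum_congr rfl fun A hA => ?_
  rw [TensorProduct.smul_tmul', smul_eq_mul, hm A hA, ← TensorProduct.smul_tmul, zsmul_eq_mul,
    mul_one]

theorem KQ_gen (hP : p.P ∉ S) (c : K[X] →₀ ℚ) (hc : ∀ A ∈ c.support, A ≠ 0 ∧ Sm S A)
    (h : c.sum (fun A q => q ⊗ₜ[ℤ] (lg (p.r A) : Additive kˣ)) = 0) :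
    c.sum (fun A q => q ⊗ₜ[ℤ] (pl A : Additive (RatFunc K)ˣ)) ∈
      Submodule.span ℚ {x : ℚ ⊗[ℤ] Additive (RatFunc K)ˣ | ∃ y ∈ KG p S, x = 1 ⊗ₜ[ℤ] y} := by
  obtain ⟨n, hn, m, hm⟩ := kq_den c.support c
  have hnQ : (n : ℚ) ≠ 0 := Nat.cast_ne_zero.2 hn
  have h1 := kq_sum c.support c (fun A => (lg (p.r A) : Additive kˣ)) (n : ℚ) m hm
  have h0 : ∑ A ∈ c.support, (c A ⊗ₜ[ℤ] (lg (p.r A) : Additive kˣ) : ℚ ⊗[ℤ] Additive kˣ) = 0 := h
  rw [h0, smul_zero] at h1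
  obtain ⟨N, hN, hN1⟩ := kq_tors _ h1.symm
  have hNQ : (N : ℚ) ≠ 0 := Int.cast_ne_zero.2 hN
  obtain ⟨B, C, hB, hC, hsB, hsC, hpl, hlg⟩ := kq_split (p := p) hP c.support hc
    (fun A => N * m A)
  have h2 : lg (p.r B) - lg (p.r C) = 0 := by
    rw [hlg, ← hN1, ← Finset.sum_zsmul]
    refine Finset.sum_congr rfl fun A _ => ?_
    exact mul_smul _ _ _
  have h3 : p.r B = p.r C :=
    kq_lg_inj (kq_r hP hB hsB) (kq_r hP hC hsC) (sub_eq_zero.1 h2)
  have hd : p.P ∣ B - C := by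
    rw [← p.ker, map_sub, h3, sub_self]
  have hy := KG_mk hB hC hsB hsC hd
  have h4 := kq_sum c.support c (fun A => (pl A : Additive (RatFunc K)ˣ)) ((N : ℚ) * n)
    (fun A => N * m A) (by
      intro A hA
      rw [mul_assoc, hm A hA]
      push_cast
      rfl)
  rw [← hpl] at h4
  have h5 : c.sum (fun A q => q ⊗ₜ[ℤ] (pl A : Additive (RatFunc K)ˣ)) =
      ((N : ℚ) * n)⁻¹ • ((1 : ℚ) ⊗ₜ[ℤ] (pl B - pl C)) := by
    rw [← h4, smul_smul, inv_mul_cancel₀ (mul_ne_zero hNQ hnQ), one_smul]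
    rfl
  rw [h5]
  exact Submodule.smul_mem _ _ (Submodule.subset_span ⟨_, hy, rfl⟩)

end SRG
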