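import Pool.Agent.SRG.Basic

set_option autoImplicit false

/-!
# SRG-3: Pade approximation modulo `P`

`pade`: let `e1 = d / 2`, `e2 = (d - 1) / 2`, so `e1 + e2 + 1 = d` (`d ≥ 1`).  Choose `X` with
`r X = x` (`p.surj`).  The linear map `(A, B) ↦ (A - X B) %ₘ P` from
`degreeLT K (e1 + 1) × degreeLT K (e2 + 1)` (dimension `d + 1`) to `degreeLT K d` (dimension `d`)
has a nonzero element `(A, B)` in its kernel.  As `deg A < d`, `deg B < d`, none of them is `0`.
`Sec.uniq`: `P` divides `A b(x) - a(x) B`, of degree `≤ e1 + e2 < d`.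
-/

noncomputable section

open Polynomial
open scoped Classical
open Helper11.Gon

namespace SRG

universe u v w

variable {K : Type u} [Field K] {k : Type v} [Field k] {p : Pl K k}

/-- Polynomials of degree less than `d` have nonzero residue class. -/
theorem Pl.ne {A : K[X]} (hA : A ≠ 0) (hd : A.natDegree < p.d) : p.r A ≠ 0 := by
  intro h
  have h1 := Polynomial.natDegree_le_of_dvd ((p.ker A).1 h) hA
  have h2 : p.d = p.P.natDegree := rfl
  omega

theorem Pl.d_pos (p : Pl K k) : 1 ≤ p.d := by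
  have h1 := Polynomial.natDegree_pos_iff_degree_pos.mpr
    (Polynomial.degree_pos_of_irreducible p.irr)
  exact h1

theorem pade (p : Pl K k) (x : k) (hx : x ≠ 0) : ∃ A B : K[X], A ≠ 0 ∧ B ≠ 0 ∧
    A.natDegree ≤ p.d / 2 ∧ B.natDegree ≤ (p.d - 1) / 2 ∧ p.r A = x * p.r B := by
  have hd := p.d_pos
  obtain ⟨X, hX⟩ := p.surj x
  have hmem : ∀ y : (degreeLT K (p.d / 2 + 1)) × (degreeLT K ((p.d - 1) / 2 + 1)),
      ((modByMonicHom p.P) ∘ₗ ((degreeLT K (p.d / 2 + 1)).subtype.coprod
        (-((LinearMap.mulLeft K X) ∘ₗ (degreeLT K ((p.d - 1) / 2 + 1)).subtype)))) y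
        ∈ degreeLT K p.d := by
    intro y
    rw [mem_degreeLT]
    have h1 : degree (((modByMonicHom p.P) ∘ₗ ((degreeLT K (p.d / 2 + 1)).subtype.coprod
        (-((LinearMap.mulLeft K X) ∘ₗ (degreeLT K ((p.d - 1) / 2 + 1)).subtype)))) y)
        < degree p.P := degree_modByMonic_lt _ p.monic
    rw [degree_eq_natDegree p.irr.ne_zero] at h1
    exact h1
  have hfr : Module.finrank K (degreeLT K p.d) <
      Module.finrank K ((degreeLT K (p.d / 2 + 1)) × (degreeLT K ((p.d - 1) / 2 + 1))) := by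
    rw [Module.finrank_prod, (degreeLTEquiv K p.d).finrank_eq,
      (degreeLTEquiv K (p.d / 2 + 1)).finrank_eq, (degreeLTEquiv K ((p.d - 1) / 2 + 1)).finrank_eq]
    simp only [Module.finrank_fin_fun]
    omega
  have hker := LinearMap.ker_ne_bot_of_finrank_lt
    (f := LinearMap.codRestrict (degreeLT K p.d) _ hmem) hfr
  obtain ⟨y, hy, hy0⟩ := (Submodule.ne_bot_iff _).1 hker
  obtain ⟨⟨A, hA⟩, ⟨B, hB⟩⟩ := y
  rw [LinearMap.mem_ker] at hy
  have hy1 : (A + -(X * B)) %ₘ p.P = 0 := by
    have h2 := congrArg Subtype.val hy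
    exact h2
  have hr : p.r A = x * p.r B := by
    have h3 : p.P ∣ A + -(X * B) := (modByMonic_eq_zero_iff_dvd p.monic).1 hy1
    have h4 := (p.ker _).2 h3
    rw [map_add, map_neg, map_mul, hX] at h4
    linear_combination h4
  rw [mem_degreeLT] at hA hB
  have hA1 : A.natDegree ≤ p.d / 2 := by
    rw [natDegree_le_iff_degree_le]
    exact Order.le_of_lt_succ (by exact_mod_cast hA)
  have hB1 : B.natDegree ≤ (p.d - 1) / 2 := by
    rw [natDegree_le_iff_degree_le]
    exact Order.le_of_lt_succ (by exact_mod_cast hB)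
  have hAB : A = 0 ↔ B = 0 := by
    constructor
    · intro h
      by_contra h5
      have h6 := Pl.ne (p := p) h5 (by omega)
      rw [h, map_zero] at hr
      exact mul_ne_zero hx h6 hr.symm
    · intro h
      by_contra h5
      have h6 := Pl.ne (p := p) h5 (by omega)
      rw [h, map_zero, mul_zero] at hr
      exact h6 hr
  have hA0 : A ≠ 0 := by
    intro h
    apply hy0
    have h7 := hAB.1 h
    subst h
    subst h7
    rfl
  exact ⟨A, B, hA0, fun h => hA0 (hAB.2 h), hA1, hB1, hr⟩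

theorem exists_sec (p : Pl K k) : Nonempty (Sec p) := by
  choose A B hA hB hA1 hB1 hr using fun (x : {x : k // x ≠ 0}) => pade p x.1 x.2
  refine ⟨⟨fun x => if h : x ≠ 0 then A ⟨x, h⟩ else 0,
    fun x => if h : x ≠ 0 then B ⟨x, h⟩ else 0, ?_, ?_, ?_, ?_, ?_⟩⟩
  · intro x hx
    simp only [hx, ne_eq, not_false_eq_true, dite_true]
    exact hA ⟨x, hx⟩
  · intro x hx
    simp only [hx, ne_eq, not_false_eq_true, dite_true]
    exact hB ⟨x, hx⟩
  · intro x
    by_cases hx : x ≠ 0
    · simp only [hx, ne_eq, not_false_eq_true, dite_true]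
      exact hA1 ⟨x, hx⟩
    · simp only [hx, dite_false, natDegree_zero]
      exact Nat.zero_le _
  · intro x
    by_cases hx : x ≠ 0
    · simp only [hx, ne_eq, not_false_eq_true, dite_true]
      exact hB1 ⟨x, hx⟩
    · simp only [hx, dite_false, natDegree_zero]
      exact Nat.zero_le _
  · intro x hx
    simp only [hx, ne_eq, not_false_eq_true, dite_true]
    exact hr ⟨x, hx⟩

theorem Sec.uniq (s : Sec p) {x : k} (hx : x ≠ 0) {A B : K[X]} (hA : A.natDegree ≤ p.d / 2)
    (hB : B.natDegree ≤ (p.d - 1) / 2) (h : p.r A = x * p.r B) :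
    A * s.b x = s.a x * B := by
  have hd := p.d_pos
  have h1 : p.r (A * s.b x - s.a x * B) = 0 := by
    rw [map_sub, map_mul, map_mul, h, s.eq x hx]
    ring
  by_contra h2
  have h3 : A * s.b x - s.a x * B ≠ 0 := sub_ne_zero.2 h2
  refine Pl.ne (p := p) h3 ?_ h1
  have h4 := natDegree_sub_le (A * s.b x) (s.a x * B)
  have h5 := natDegree_mul_le (p := A) (q := s.b x)
  have h6 := natDegree_mul_le (p := s.a x) (q := B)
  have h7 := s.a_deg x
  have h8 := s.b_deg x
  have h9 : max (A * s.b x).natDegree (s.a x * B).natDegree ≤ p.d / 2 + (p.d - 1) / 2 :=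
    max_le (by omega) (by omega)
  omega

end SRG
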