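import Pool.Agent.SRG.Basic

set_option autoImplicit false

/-!
# SRG-5: homomorphisms from `K(t)^*`

`K[t]` is a factorial ring: `λ(A) = h(leadingCoeff A) + ∑ l(Q)` over the multiset
`normalizedFactors A` satisfies `λ(A B) = λ(A) + λ(B)` for nonzero `A`, `B`
(`UniqueFactorizationMonoid.normalizedFactors_mul`, `leadingCoeff_mul`), and
`L(x) = λ(num x) - λ(denom x)`.
-/

noncomputable section

open Polynomial
open scoped Classical
open Helper11.Gon

namespace SRG

universe u v w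

variable {K : Type u} [Field K]

private lemma mult_irr_form {i : K[X]} (hi : Irreducible i) :
    ∃ (c : K) (Q : K[X]), c ≠ 0 ∧ Q.Monic ∧ Irreducible Q ∧ i = C c * Q := by
  have hl : i.leadingCoeff ≠ 0 := leadingCoeff_ne_zero.mpr hi.ne_zero
  refine ⟨i.leadingCoeff, i * C (i.leadingCoeff)⁻¹, hl, monic_mul_leadingCoeff_inv hi.ne_zero,
    irreducible_mul_leadingCoeff_inv.mpr hi, ?_⟩
  rw [mul_left_comm, ← C_mul, mul_inv_cancel₀ hl, C_1, mul_one]

/-- Induction on the factorisation of a nonzero polynomial. -/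
theorem poly_ind {M : K[X] → Prop} (hC : ∀ c : K, c ≠ 0 → M (C c))
    (hQ : ∀ Q : K[X], Q.Monic → Irreducible Q → M Q)
    (hm : ∀ A B : K[X], A ≠ 0 → B ≠ 0 → M A → M B → M (A * B)) (A : K[X]) (hA : A ≠ 0) :
    M A := by
  induction A using WfDvdMonoid.induction_on_irreducible with
  | zero => exact absurd rfl hA
  | unit u hu =>
    obtain ⟨c, hc, rfl⟩ := Polynomial.isUnit_iff.mp hu
    exact hC c hc.ne_zero
  | mul a i ha hi ih =>
    obtain ⟨c, Q, hc, hQm, hQi, rfl⟩ := mult_irr_form hi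
    refine hm _ _ hi.ne_zero ha ?_ (ih ha)
    exact hm _ _ (C_ne_zero.mpr hc) hQi.ne_zero (hC c hc) (hQ Q hQm hQi)

/-- The same for the nonzero elements of `Sm S`. -/
theorem sm_ind {S : Set K[X]} {M : K[X] → Prop} (hC : ∀ c : K, c ≠ 0 → M (C c))
    (hQ : ∀ Q ∈ S, Q.Monic → Irreducible Q → M Q)
    (hm : ∀ A B : K[X], A ≠ 0 → B ≠ 0 → Sm S A → Sm S B → M A → M B → M (A * B)) (A : K[X])
    (hA : A ≠ 0) (hs : Sm S A) : M A := by
  induction A using WfDvdMonoid.induction_on_irreducible with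
  | zero => exact absurd rfl hA
  | unit u hu =>
    obtain ⟨c, hc, rfl⟩ := Polynomial.isUnit_iff.mp hu
    exact hC c hc.ne_zero
  | mul a i ha hi ih =>
    have h1 : Sm S i := hs.dvd hA (dvd_mul_right _ _)
    have h2 : Sm S a := hs.dvd hA (dvd_mul_left _ _)
    obtain ⟨c, Q, hc, hQm, hQi, rfl⟩ := mult_irr_form hi
    have h3 : Sm S Q := h1.dvd hi.ne_zero (dvd_mul_left _ _)
    have h4 : Q ∈ S := by
      rcases h3 with h3 | h3
      · exact absurd h3 hQi.ne_zero
      · exact h3 Q hQm hQi dvd_rfl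
    refine hm _ _ hi.ne_zero ha h1 h2 ?_ (ih ha h2)
    exact hm _ _ (C_ne_zero.mpr hc) hQi.ne_zero (sm_C S c) h3 (hC c hc) (hQ Q h4 hQm hQi)

private def mult_lam {W : Type w} [AddCommGroup W] (h : K → W) (l : K[X] → W) (A : K[X]) : W :=
  h A.leadingCoeff + ((UniqueFactorizationMonoid.normalizedFactors A).map l).sum

private lemma mult_lam_mul {W : Type w} [AddCommGroup W] (h : K → W)
    (hh : ∀ x y : K, x ≠ 0 → y ≠ 0 → h (x * y) = h x + h y) (l : K[X] → W) {A B : K[X]}
    (hA : A ≠ 0) (hB : B ≠ 0) :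
    mult_lam h l (A * B) = mult_lam h l A + mult_lam h l B := by
  unfold mult_lam
  rw [leadingCoeff_mul, hh _ _ (leadingCoeff_ne_zero.mpr hA) (leadingCoeff_ne_zero.mpr hB),
    UniqueFactorizationMonoid.normalizedFactors_mul hA hB, Multiset.map_add, Multiset.sum_add]
  abel

private lemma mult_lam_C {W : Type w} [AddCommGroup W] (h : K → W) (l : K[X] → W) {c : K}
    (hc : c ≠ 0) : mult_lam h l (C c) = h c := by
  unfold mult_lam
  rw [leadingCoeff_C, UniqueFactorizationMonoid.normalizedFactors_of_isUnit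
    (Polynomial.isUnit_C.mpr (isUnit_iff_ne_zero.mpr hc))]
  simp

private lemma mult_h_one {W : Type w} [AddCommGroup W] (h : K → W)
    (hh : ∀ x y : K, x ≠ 0 → y ≠ 0 → h (x * y) = h x + h y) : h 1 = 0 := by
  have := hh 1 1 one_ne_zero one_ne_zero
  rw [mul_one] at this
  exact left_eq_add.mp this

private lemma mult_lam_one {W : Type w} [AddCommGroup W] (h : K → W)
    (hh : ∀ x y : K, x ≠ 0 → y ≠ 0 → h (x * y) = h x + h y) (l : K[X] → W) :
    mult_lam h l 1 = 0 := by
  rw [← C_1, mult_lam_C h l one_ne_zero, mult_h_one h hh]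

private lemma mult_lam_irr {W : Type w} [AddCommGroup W] (h : K → W)
    (hh : ∀ x y : K, x ≠ 0 → y ≠ 0 → h (x * y) = h x + h y) (l : K[X] → W) {Q : K[X]}
    (hm : Q.Monic) (hi : Irreducible Q) : mult_lam h l Q = l Q := by
  unfold mult_lam
  rw [hm.leadingCoeff, mult_h_one h hh,
    UniqueFactorizationMonoid.normalizedFactors_irreducible hi, hm.normalize_eq_self]
  simp

private lemma mult_unit_ne (x : Additive (RatFunc K)ˣ) : ((x.toMul : (RatFunc K)ˣ) : RatFunc K) ≠ 0 :=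
  Units.ne_zero _

private def mult_L {W : Type w} [AddCommGroup W] (h : K → W)
    (hh : ∀ x y : K, x ≠ 0 → y ≠ 0 → h (x * y) = h x + h y) (l : K[X] → W) :
    Additive (RatFunc K)ˣ →+ W :=
  AddMonoidHom.mk' (fun x => mult_lam h l (RatFunc.num ((x.toMul : (RatFunc K)ˣ) : RatFunc K)) -
    mult_lam h l (RatFunc.denom ((x.toMul : (RatFunc K)ˣ) : RatFunc K))) (by
    intro a b
    have ha := mult_unit_ne a
    have hb := mult_unit_ne b
    have e : (((a + b).toMul : (RatFunc K)ˣ) : RatFunc K) =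
        ((a.toMul : (RatFunc K)ˣ) : RatFunc K) * ((b.toMul : (RatFunc K)ˣ) : RatFunc K) := by
      rw [toMul_add, Units.val_mul]
    rw [e]
    generalize ((a.toMul : (RatFunc K)ˣ) : RatFunc K) = x at ha
    generalize ((b.toMul : (RatFunc K)ˣ) : RatFunc K) = y at hb
    have h1 := congrArg (mult_lam h l) (RatFunc.num_denom_mul x y)
    have hx := RatFunc.num_ne_zero ha
    have hy := RatFunc.num_ne_zero hb
    have hxy := RatFunc.num_ne_zero (mul_ne_zero ha hb)
    have dx := RatFunc.denom_ne_zero x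
    have dy := RatFunc.denom_ne_zero y
    have dxy := RatFunc.denom_ne_zero (x * y)
    rw [mult_lam_mul h hh l hxy (mul_ne_zero dx dy), mult_lam_mul h hh l dx dy,
      mult_lam_mul h hh l (mul_ne_zero hx hy) dxy, mult_lam_mul h hh l hx hy] at h1
    rw [sub_add_sub_comm, sub_eq_sub_iff_add_eq_add]
    exact h1)

private lemma mult_L_pl {W : Type w} [AddCommGroup W] (h : K → W)
    (hh : ∀ x y : K, x ≠ 0 → y ≠ 0 → h (x * y) = h x + h y) (l : K[X] → W) {A : K[X]}
    (hA : A ≠ 0) : mult_L h hh l (pl A) = mult_lam h l A := by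
  have hne : algebraMap K[X] (RatFunc K) A ≠ 0 := RatFunc.algebraMap_ne_zero hA
  have e : (((pl A).toMul : (RatFunc K)ˣ) : RatFunc K) = algebraMap K[X] (RatFunc K) A := by
    unfold pl lg
    rw [dif_neg hne]
    rfl
  change mult_lam h l (RatFunc.num (((pl A).toMul : (RatFunc K)ˣ) : RatFunc K)) -
    mult_lam h l (RatFunc.denom (((pl A).toMul : (RatFunc K)ˣ) : RatFunc K)) = _
  rw [e, RatFunc.num_algebraMap, RatFunc.denom_algebraMap, mult_lam_one h hh, sub_zero]

theorem exists_mul {W : Type w} [AddCommGroup W] (h : K → W)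
    (hh : ∀ x y : K, x ≠ 0 → y ≠ 0 → h (x * y) = h x + h y) (l : K[X] → W) :
    ∃ L : Additive (RatFunc K)ˣ →+ W, (∀ c : K, c ≠ 0 → L (pl (C c)) = h c) ∧
      ∀ Q : K[X], Q.Monic → Irreducible Q → L (pl Q) = l Q := by
  refine ⟨mult_L h hh l, ?_, ?_⟩
  · intro c hc
    rw [mult_L_pl h hh l (C_ne_zero.mpr hc), mult_lam_C h l hc]
  · intro Q hm hi
    rw [mult_L_pl h hh l hi.ne_zero, mult_lam_irr h hh l hm hi]

/-- The order at a monic irreducible polynomial. -/
theorem exists_ord {P : K[X]} (hm : P.Monic) (hi : Irreducible P) :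
    ∃ v : Additive (RatFunc K)ˣ →+ ℤ, v (pl P) = 1 ∧
      ∀ A : K[X], A ≠ 0 → ¬ P ∣ A → v (pl A) = 0 := by
  obtain ⟨v, h1, h2⟩ := exists_mul (K := K) (W := ℤ) (fun _ => 0) (by intros; simp)
    (fun Q => if Q = P then 1 else 0)
  refine ⟨v, by rw [h2 P hm hi, if_pos rfl], ?_⟩
  intro A hA
  refine poly_ind (M := fun A => ¬ P ∣ A → v (pl A) = 0) ?_ ?_ ?_ A hA
  · intro c hc _
    exact h1 c hc
  · intro Q hQm hQi hn
    rw [h2 Q hQm hQi, if_neg]
    rintro rfl
    exact hn dvd_rfl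
  · intro B D hB hD hb hd hn
    rw [pl_mul hB hD, map_add, hb (fun h => hn (h.mul_right _)), hd (fun h => hn (h.mul_left _)),
      add_zero]

/-- Every element of `K(t)^*` is a difference of classes of nonzero polynomials. -/
theorem exists_pl_sub (x : Additive (RatFunc K)ˣ) :
    ∃ A B : K[X], A ≠ 0 ∧ B ≠ 0 ∧ x = pl A - pl B := by
  have hx := mult_unit_ne x
  refine ⟨RatFunc.num ((x.toMul : (RatFunc K)ˣ) : RatFunc K),
    RatFunc.denom ((x.toMul : (RatFunc K)ˣ) : RatFunc K), RatFunc.num_ne_zero hx,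
    RatFunc.denom_ne_zero _, ?_⟩
  rw [← lg_div_pl (RatFunc.num_ne_zero hx) (RatFunc.denom_ne_zero _), RatFunc.num_div_denom,
    lg_toMul]

end SRG
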