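import Pool.Agent.SRG.Tri
import Pool.Agent.SRG.Pade

set_option autoImplicit false

/-!
# SRG-7: the cocycle of the section

Write `e1 = d / 2`, `e2 = (d - 1) / 2`, `e1 + e2 + 1 = d`; `N0 d ≥ 3 e1` (`N0` is in Defs).
`s(x) = a(x) / b(x)`.  Everything of degree `< d` is smooth (`Adm.sm`).

`coc_tri`: let `s(x) = A/A'`, `s(y) = B/B'`, `s(z) = C/C'`, `s(xy) = D/D'`, `s(xyz) = E/E'`.
Apply `tri` to `U = A B C D' E'`, `V = A' B' C D E'`, `T = A' B' C' D' E`.  Then
`U/V = s(x) s(y) / s(xy)`, `V/T = s(xy) s(z) / s(xyz)`, `U/T = s(x) s(y) s(z) / s(xyz)`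
(`G_mul`), `U - V = P D1` with `D1 = C E' D1'`, `P D1' = A B D' - A' B' D`, `deg D1' ≤ e1 - 1`
(or `D1' = 0`); `V - T = P D2`, `D2 = A' B' D2'`, `P D2' = C D E' - C' D' E`, the same degree;
`D1 + D2 = D' D3'`, `P D3' = A B C E' - A' B' C' E`, `deg D3' ≤ 2 e1 - 1 < d`.
The two terms on the right of `tri` are, after cancellation (`G_mul`),
`G f (C E' D1') (D' D3')`, complement `A' B' D2'`, and `G f (D1' C' E) (D3' D)`, complement
`A B D2'`; heights `≤ 3 e1 - 1`: both are `0` by `hV`.

`exists_ldata` (in A1b) follows with `exists_h`, `exists_mul`.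
-/

noncomputable section

open Polynomial
open scoped Classical
open Helper11.Gon

namespace SRG

universe u v w

variable {K : Type u} [Field K] {W : Type w} [AddCommGroup W] [Module ℚ W]
  {k : Type v} [Field k] {p : Pl K k} (s : Sec p) (f : FV (RatFunc K) W) {S : Set K[X]}

omit [Module ℚ W] in
private lemma a1_deg {P D R : K[X]} {n : ℕ} (hP : P ≠ 0) (h : R = P * D)
    (hR : R.natDegree ≤ n) : D = 0 ∨ P.natDegree + D.natDegree ≤ n := by
  by_cases hD : D = 0
  · exact Or.inl hD
  · right
    rw [h, Polynomial.natDegree_mul hP hD] at hR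
    exact hR

theorem Sec.c_comm (x y : k) : s.c f x y = s.c f y x := by
  unfold Sec.c
  rw [mul_comm y x, mul_comm (s.a y) (s.a x), mul_comm (s.b y) (s.b x)]

/-- `c(x, y) = 0` if `s(x) s(y) = s(x y)`. -/
theorem Sec.c_zero {x y : k}
    (h : s.a x * s.a y * s.b (x * y) = s.b x * s.b y * s.a (x * y)) : s.c f x y = 0 := by
  unfold Sec.c
  rw [h]
  exact G_self f _

theorem coc_tri (hS : Adm S p.d) (hV : Van S f (N0 p.d)) {x y z : k} (hx : x ≠ 0) (hy : y ≠ 0)
    (hz : z ≠ 0) : s.c f x y + s.c f (x * y) z =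
      G f (s.a x * s.a y * s.a z * s.b (x * y * z)) (s.b x * s.b y * s.b z * s.a (x * y * z)) := by
  have hd := p.d_pos
  have hxy : x * y ≠ 0 := mul_ne_zero hx hy
  have hxyz : x * y * z ≠ 0 := mul_ne_zero hxy hz
  have hP0 : p.P ≠ 0 := p.monic.ne_zero
  have hPd : p.P.natDegree = p.d := rfl
  obtain ⟨D1, e1⟩ := (p.ker (s.a x * s.a y * s.b (x * y) - s.b x * s.b y * s.a (x * y))).1 (by
    simp only [map_sub, map_mul, s.eq x hx, s.eq y hy, s.eq (x * y) hxy]
    ring)
  obtain ⟨D2, e2⟩ := (p.ker (s.a z * s.a (x * y) * s.b (x * y * z) -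
      s.b z * s.b (x * y) * s.a (x * y * z))).1 (by
    simp only [map_sub, map_mul, s.eq z hz, s.eq (x * y) hxy, s.eq (x * y * z) hxyz]
    ring)
  obtain ⟨D3, e3⟩ := (p.ker (s.a x * s.a y * s.a z * s.b (x * y * z) -
      s.b x * s.b y * s.b z * s.a (x * y * z))).1 (by
    simp only [map_sub, map_mul, s.eq x hx, s.eq y hy, s.eq z hz, s.eq (x * y * z) hxyz]
    ring)
  have nA := s.a_ne x hx
  have nA' := s.b_ne x hx
  have nB := s.a_ne y hy
  have nB' := s.b_ne y hy
  have nC := s.a_ne z hz
  have nC' := s.b_ne z hz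
  have nD := s.a_ne (x * y) hxy
  have nD' := s.b_ne (x * y) hxy
  have nE := s.a_ne (x * y * z) hxyz
  have nE' := s.b_ne (x * y * z) hxyz
  have dA := s.a_deg x
  have dA' := s.b_deg x
  have dB := s.a_deg y
  have dB' := s.b_deg y
  have dC := s.a_deg z
  have dC' := s.b_deg z
  have dD := s.a_deg (x * y)
  have dD' := s.b_deg (x * y)
  have dE := s.a_deg (x * y * z)
  have dE' := s.b_deg (x * y * z)
  have hcx : s.c f x y = G f (s.a x * s.a y * s.b (x * y)) (s.b x * s.b y * s.a (x * y)) := rfl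
  have hcz : s.c f (x * y) z = G f (s.a (x * y) * s.a z * s.b (x * y * z))
    (s.b (x * y) * s.b z * s.a (x * y * z)) := rfl
  rw [hcx, hcz]
  generalize s.a x = A at *
  generalize s.b x = A' at *
  generalize s.a y = B at *
  generalize s.b y = B' at *
  generalize s.a z = C at *
  generalize s.b z = C' at *
  generalize s.a (x * y) = D at *
  generalize s.b (x * y) = D' at *
  generalize s.a (x * y * z) = E at *
  generalize s.b (x * y * z) = E' at *
  -- degrees
  have g1 : D1 = 0 ∨ p.d + D1.natDegree ≤ p.d / 2 + p.d / 2 + (p.d - 1) / 2 := by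
    rw [← hPd]
    refine a1_deg hP0 e1 ?_
    rw [hPd]
    refine (Polynomial.natDegree_sub_le _ _).trans (max_le ?_ ?_)
    · exact Polynomial.natDegree_mul_le_of_le (Polynomial.natDegree_mul_le_of_le dA dB) dD'
    · refine (Polynomial.natDegree_mul_le_of_le
        (Polynomial.natDegree_mul_le_of_le dA' dB') dD).trans ?_
      omega
  have g2 : D2 = 0 ∨ p.d + D2.natDegree ≤ p.d / 2 + p.d / 2 + (p.d - 1) / 2 := by
    rw [← hPd]
    refine a1_deg hP0 e2 ?_
    rw [hPd]
    refine (Polynomial.natDegree_sub_le _ _).trans (max_le ?_ ?_)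
    · exact Polynomial.natDegree_mul_le_of_le (Polynomial.natDegree_mul_le_of_le dC dD) dE'
    · refine (Polynomial.natDegree_mul_le_of_le
        (Polynomial.natDegree_mul_le_of_le dC' dD') dE).trans ?_
      omega
  have g3 : D3 = 0 ∨ p.d + D3.natDegree ≤ p.d / 2 + p.d / 2 + p.d / 2 + (p.d - 1) / 2 := by
    rw [← hPd]
    refine a1_deg hP0 e3 ?_
    rw [hPd]
    refine (Polynomial.natDegree_sub_le _ _).trans (max_le ?_ ?_)
    · exact Polynomial.natDegree_mul_le_of_le (Polynomial.natDegree_mul_le_of_le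
        (Polynomial.natDegree_mul_le_of_le dA dB) dC) dE'
    · refine (Polynomial.natDegree_mul_le_of_le (Polynomial.natDegree_mul_le_of_le
        (Polynomial.natDegree_mul_le_of_le dA' dB') dC') dE).trans ?_
      omega
  have g1' : D1.natDegree + 1 ≤ p.d / 2 + 1 ∧ D1.natDegree < p.d := by
    rcases g1 with h | h
    · rw [h, Polynomial.natDegree_zero]
      omega
    · omega
  have g2' : D2.natDegree < p.d := by
    rcases g2 with h | h
    · rw [h, Polynomial.natDegree_zero]
      omega
    · omega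
  have g3' : D3.natDegree ≤ 2 * (p.d / 2) ∧ D3.natDegree < p.d := by
    rcases g3 with h | h
    · rw [h, Polynomial.natDegree_zero]
      omega
    · omega
  have smD1 : Sm S D1 := hS.sm g1'.2
  have smD2 : Sm S D2 := hS.sm g2'
  have smD3 : Sm S D3 := hS.sm g3'.2
  have smA : Sm S A := hS.sm (by omega)
  have smB : Sm S B := hS.sm (by omega)
  have smC : Sm S C := hS.sm (by omega)
  have smD : Sm S D := hS.sm (by omega)
  have smE : Sm S E := hS.sm (by omega)
  have smA' : Sm S A' := hS.sm (by omega)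
  have smB' : Sm S B' := hS.sm (by omega)
  have smC' : Sm S C' := hS.sm (by omega)
  have smD' : Sm S D' := hS.sm (by omega)
  have smE' : Sm S E' := hS.sm (by omega)
  have hN : 3 * (p.d / 2) ≤ N0 p.d ∧ 2 * (p.d / 2) + (p.d - 1) / 2 ≤ N0 p.d := by
    unfold N0
    omega
  -- the relations
  have hD3 : C * E' * D1 + A' * B' * D2 = D' * D3 := by
    apply mul_left_cancel₀ hP0
    linear_combination D' * e3 - C * E' * e1 - A' * B' * e2
  have hD4 : D1 * C' * E + A * B * D2 = D3 * D := by
    apply mul_left_cancel₀ hP0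
    linear_combination D * e3 - C' * E * e1 - A * B * e2
  have t1 := tri (W := W) (K := K) (f := f) (U := A * B * C * D' * E') (V := A' * B' * C * D * E')
    (T := A' * B' * C' * D' * E) (P := p.P) (D1 := C * E' * D1) (D2 := A' * B' * D2)
    (by simp [nA, nB, nC, nD', nE']) (by simp [nA', nB', nC, nD, nE'])
    (by simp [nA', nB', nC', nD', nE]) hP0 (by linear_combination C * E' * e1)
    (by linear_combination A' * B' * e2)
  have u1 : G f (A * B * C * D' * E') (A' * B' * C * D * E') = G f (A * B * D') (A' * B' * D) := by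
    rw [← G_mul f (c := C * E') (mul_ne_zero nC nE') (A * B * D') (A' * B' * D)]
    congr 1 <;> ring
  have u2 : G f (A' * B' * C * D * E') (A' * B' * C' * D' * E) = G f (D * C * E') (D' * C' * E) := by
    rw [← G_mul f (c := A' * B') (mul_ne_zero nA' nB') (D * C * E') (D' * C' * E)]
    congr 1 <;> ring
  have u3 : G f (A * B * C * D' * E') (A' * B' * C' * D' * E) =
      G f (A * B * C * E') (A' * B' * C' * E) := by
    rw [← G_mul f (c := D') nD' (A * B * C * E') (A' * B' * C' * E)]
    congr 1 <;> ring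
  have u4 : G f (C * E' * D1) (C * E' * D1 + A' * B' * D2) = 0 := by
    rw [hD3]
    refine hV _ _ (A' * B' * D2) hD3 ((smC.mul smE').mul smD1) (smD'.mul smD3)
      ((smA'.mul smB').mul smD2) ?_ ?_
    · rcases g1 with h | h
      · rw [h, mul_zero, Polynomial.natDegree_zero]
        exact Nat.zero_le _
      · refine (Polynomial.natDegree_mul_le_of_le
          (Polynomial.natDegree_mul_le_of_le dC dE') (le_refl D1.natDegree)).trans ?_
        omega
    · refine (Polynomial.natDegree_mul_le_of_le dD' g3'.1).trans ?_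
      omega
  have u5 : G f (C * E' * D1 * (A' * B' * C' * D' * E))
      ((C * E' * D1 + A' * B' * D2) * (A' * B' * C * D * E')) = 0 := by
    have e : G f (C * E' * D1 * (A' * B' * C' * D' * E))
        ((C * E' * D1 + A' * B' * D2) * (A' * B' * C * D * E')) =
        G f (D1 * C' * E) (D3 * D) := by
      rw [hD3, ← G_mul f (c := C * E' * A' * B' * D')
        (by simp [nC, nE', nA', nB', nD']) (D1 * C' * E) (D3 * D)]
      congr 1 <;> ring
    rw [e]
    refine hV _ _ (A * B * D2) hD4 ((smD1.mul smC').mul smE) (smD3.mul smD)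
      ((smA.mul smB).mul smD2) ?_ ?_
    · rcases g1 with h | h
      · rw [h, zero_mul, zero_mul, Polynomial.natDegree_zero]
        exact Nat.zero_le _
      · refine (Polynomial.natDegree_mul_le_of_le
          (Polynomial.natDegree_mul_le_of_le (le_refl D1.natDegree) dC') dE).trans ?_
        omega
    · refine (Polynomial.natDegree_mul_le_of_le g3'.1 dD).trans ?_
      omega
  rw [u1, u2, u3, u4, u5, sub_self, sub_eq_zero] at t1
  exact t1

end SRG
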