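import Pool.Agent.SRG.Defs

set_option autoImplicit false

/-!
# SRG-4: a symmetric 2-cocycle on an abelian group with values in a rational vector space is a
coboundary

Proof: subtracting the constant `c(1, 1)` we may assume `c(1, 1) = 0`, then `c(1, y) = 0` for all
`y` (take `x = y = 1` in `hc`).  Let `X = W × Γ` with the addition
`(w, x) + (w', y) = (w + w' + c(x, y), x y)`.  By `hc` and `hs` this is an abelian group with the
neutral element `(0, 1)`.  The injective homomorphism `i : W → X`, `w ↦ (w, 1)`, has a retraction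
`ρ : X → W` as `W` is divisible.  Put `h(x) = ρ(0, x)`:
`(0, x) + (0, y) = (c(x, y), x y) = i(c(x, y)) + (0, x y)`, so
`h(x) + h(y) = c(x, y) + h(x y)`.
-/

noncomputable section

open scoped Classical

namespace SRG

universe v w

/-- The extension of `Γ` by `W` given by the cocycle `c`. -/
private structure CocX (Γ : Type v) (W : Type w) (c : Γ → Γ → W) where
  w : W
  x : Γ

private lemma coc_ext {Γ : Type v} {W : Type w} {c : Γ → Γ → W} {a b : CocX Γ W c}
    (h1 : a.w = b.w) (h2 : a.x = b.x) : a = b := by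
  cases a
  cases b
  cases h1
  cases h2
  rfl

/-- The group structure of the extension. -/
@[instance_reducible]
private def coc_group {Γ : Type v} [CommGroup Γ] {W : Type w} [AddCommGroup W]
    (c : Γ → Γ → W) (hs : ∀ x y, c x y = c y x)
    (hc : ∀ x y z, c x y + c (x * y) z = c y z + c x (y * z))
    (h1 : ∀ y, c 1 y = 0) : AddCommGroup (CocX Γ W c) where
  add a b := ⟨a.w + b.w + c a.x b.x, a.x * b.x⟩
  zero := ⟨0, 1⟩
  neg a := ⟨- a.w - c a.x a.x⁻¹, a.x⁻¹⟩
  add_assoc a b d := by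
    refine coc_ext ?_ ?_
    · change a.w + b.w + c a.x b.x + d.w + c (a.x * b.x) d.x
        = a.w + (b.w + d.w + c b.x d.x) + c a.x (b.x * d.x)
      have h := hc a.x b.x d.x
      calc a.w + b.w + c a.x b.x + d.w + c (a.x * b.x) d.x
          = a.w + b.w + d.w + (c a.x b.x + c (a.x * b.x) d.x) := by abel
        _ = a.w + b.w + d.w + (c b.x d.x + c a.x (b.x * d.x)) := by rw [h]
        _ = a.w + (b.w + d.w + c b.x d.x) + c a.x (b.x * d.x) := by abel
    · exact mul_assoc a.x b.x d.x
  zero_add a := by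
    refine coc_ext ?_ ?_
    · change 0 + a.w + c 1 a.x = a.w
      rw [h1, zero_add, add_zero]
    · exact one_mul a.x
  add_zero a := by
    refine coc_ext ?_ ?_
    · change a.w + 0 + c a.x 1 = a.w
      rw [hs, h1, add_zero, add_zero]
    · exact mul_one a.x
  nsmul := @nsmulRec _ ⟨⟨0, 1⟩⟩ ⟨fun a b => ⟨a.w + b.w + c a.x b.x, a.x * b.x⟩⟩
  zsmul := @zsmulRec _ ⟨⟨0, 1⟩⟩ ⟨fun a b => ⟨a.w + b.w + c a.x b.x, a.x * b.x⟩⟩
    ⟨fun a => ⟨- a.w - c a.x a.x⁻¹, a.x⁻¹⟩⟩
    (@nsmulRec _ ⟨⟨0, 1⟩⟩ ⟨fun a b => ⟨a.w + b.w + c a.x b.x, a.x * b.x⟩⟩)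
  neg_add_cancel a := by
    refine coc_ext ?_ ?_
    · change - a.w - c a.x a.x⁻¹ + a.w + c a.x⁻¹ a.x = 0
      rw [hs a.x⁻¹ a.x]
      abel
    · exact inv_mul_cancel a.x
  add_comm a b := by
    refine coc_ext ?_ ?_
    · change a.w + b.w + c a.x b.x = b.w + a.w + c b.x a.x
      rw [hs a.x b.x, add_comm a.w b.w]
    · exact mul_comm a.x b.x

@[instance_reducible]
private def coc_div (W : Type w) [AddCommGroup W] [Module ℚ W] : DivisibleBy W ℤ where
  div u n := ((n : ℚ)⁻¹) • u
  div_zero u := by simp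
  div_cancel {n} u hn := by
    rw [← Int.cast_smul_eq_zsmul ℚ n, smul_smul, mul_inv_cancel₀ (Int.cast_ne_zero.mpr hn),
      one_smul]

private lemma coc_main {Γ : Type v} [CommGroup Γ] {W : Type w} [AddCommGroup W] [Module ℚ W]
    (c : Γ → Γ → W) (hs : ∀ x y, c x y = c y x)
    (hc : ∀ x y z, c x y + c (x * y) z = c y z + c x (y * z))
    (h1 : ∀ y, c 1 y = 0) :
    ∃ h : Γ → W, ∀ x y, c x y = h x + h y - h (x * y) := by
  let _ : AddCommGroup (CocX Γ W c) := coc_group c hs hc h1
  let _ : DivisibleBy W ℤ := coc_div W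
  let i : W →+ CocX Γ W c :=
    { toFun := fun u => ⟨u, 1⟩
      map_zero' := rfl
      map_add' := fun u u' => by
        refine coc_ext ?_ ?_
        · change u + u' = u + u' + c 1 1
          rw [h1, add_zero]
        · exact (mul_one (1 : Γ)).symm }
  have hi : Function.Injective i := by
    intro u u' h
    have h' : (i u).w = (i u').w := by rw [h]
    exact h'
  obtain ⟨r, hr⟩ := (Module.Baer.of_divisible W).extension_property_addMonoidHom i hi
    (AddMonoidHom.id W)
  have hri : ∀ u : W, r (i u) = u := by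
    intro u
    have h := DFunLike.congr_fun hr u
    exact h
  refine ⟨fun x => r ⟨0, x⟩, fun x y => ?_⟩
  have e : (⟨0, x⟩ : CocX Γ W c) + ⟨0, y⟩ = i (c x y) + ⟨0, x * y⟩ := by
    refine coc_ext ?_ ?_
    · change (0 : W) + 0 + c x y = c x y + 0 + c 1 (x * y)
      rw [h1, add_zero, add_zero, add_zero, zero_add]
    · exact (one_mul (x * y)).symm
  have e2 : r (⟨0, x⟩ : CocX Γ W c) + r ⟨0, y⟩ = c x y + r ⟨0, x * y⟩ := by
    rw [← map_add, e, map_add, hri]
  exact eq_sub_of_add_eq e2.symm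

theorem exists_h {Γ : Type v} [CommGroup Γ] {W : Type w} [AddCommGroup W] [Module ℚ W]
    (c : Γ → Γ → W) (hs : ∀ x y, c x y = c y x)
    (hc : ∀ x y z, c x y + c (x * y) z = c y z + c x (y * z)) :
    ∃ h : Γ → W, ∀ x y, c x y = h x + h y - h (x * y) := by
  have h1 : ∀ y, c 1 y = c 1 1 := by
    intro y
    have h := hc 1 1 y
    rw [one_mul, one_mul] at h
    exact (add_right_cancel h).symm
  obtain ⟨h, hh⟩ := coc_main (fun x y => c x y - c 1 1) (fun x y => by rw [hs x y])
    (fun x y z => by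
      have e := hc x y z
      calc c x y - c 1 1 + (c (x * y) z - c 1 1)
          = (c x y + c (x * y) z) - c 1 1 - c 1 1 := by abel
        _ = (c y z + c x (y * z)) - c 1 1 - c 1 1 := by rw [e]
        _ = c y z - c 1 1 + (c x (y * z) - c 1 1) := by abel)
    (fun y => by rw [h1 y, sub_self])
  refine ⟨fun x => h x + c 1 1, fun x y => ?_⟩
  have e := hh x y
  calc c x y = (c x y - c 1 1) + c 1 1 := by abel
    _ = (h x + h y - h (x * y)) + c 1 1 := by rw [e]
    _ = h x + c 1 1 + (h y + c 1 1) - (h (x * y) + c 1 1) := by abel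

end SRG
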