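import Pool.Agent.SRG.A1
import Pool.Agent.SRG.Coc
import Pool.Agent.SRG.Mult

set_option autoImplicit false

/-!
# SRG-8: the functions `h` and `L`

`Sec.low`: `Sec.uniq` with `x = r A`, `B = 1`.
`exists_ldata`: the function `c(x, y)` on `kˣ` is a symmetric cocycle by `coc_tri` (the right side
of `coc_tri` is symmetric in `x`, `y`, `z`: `c(x,y) + c(xy,z) = c(y,z) + c(yz,x)`), so
`exists_h` gives `h`.  For constants `a`, `a'` one has `c(r a, r a') = 0` (`Sec.c_zero`,
`Sec.low`), so `h` is additive on constants and `exists_mul` gives `L` (with value `0` at `P`).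
`LData.h_mul`: `c(r A, r B) = 0` by `Sec.low` and `Sec.c_zero`.
`LData.low`: induction with `poly_ind` (on divisors of bounded degree): constants by `hC`; a monic
irreducible `Q` of degree `≤ d / 2` has `s(Q) = Q / 1` (`Sec.low`; `Q ≠ P` as
`d / 2 < d`), so `kk Q = 0` (`G_self`) and `L(Q) = h(Q)`; products by `LData.h_mul`.
`LData.h_eq`: `c(x, r (b x)) = 0`: with `a = a x`, `b = b x`, `y = r b` we have `x y = r a`,
`s(y) = b / 1`, `s(x y) = a / 1` by `Sec.low`, so `s(x) s(y) = s(x y)` and `h(x) + h(r b) = h(r a)`.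
-/

noncomputable section

open Polynomial
open scoped Classical
open Helper11.Gon

namespace SRG

universe u v w

variable {K : Type u} [Field K] {W : Type w} [AddCommGroup W] [Module ℚ W]
  {k : Type v} [Field k] {p : Pl K k} {s : Sec p} {f : FV (RatFunc K) W} {S : Set K[X]}

/-- `s(A) = A / 1` for `A` of degree at most `d / 2`. -/
theorem Sec.low (s : Sec p) {A : K[X]} (hA : A ≠ 0) (hd : A.natDegree ≤ p.d / 2) :
    s.a (p.r A) = A * s.b (p.r A) := by
  have hp := p.d_pos
  have hx : p.r A ≠ 0 := Pl.ne hA (by omega)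
  have h1 := s.uniq hx (A := A) (B := 1) hd (by rw [natDegree_one]; exact Nat.zero_le _)
    (by rw [map_one, mul_one])
  rw [h1, mul_one]

private theorem a1b_c (s : Sec p) (f : FV (RatFunc K) W) {A B : K[X]} (hA : A ≠ 0) (hB : B ≠ 0)
    (hd : (A * B).natDegree ≤ p.d / 2) : s.c f (p.r A) (p.r B) = 0 := by
  have hdm := natDegree_mul hA hB
  refine Sec.c_zero s f ?_
  rw [← map_mul, s.low hA (by omega), s.low hB (by omega), s.low (mul_ne_zero hA hB) hd]
  ring

theorem exists_ldata (s : Sec p) (f : FV (RatFunc K) W) (hS : Adm S p.d)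
    (hV : Van S f (N0 p.d)) : Nonempty (LData s f) := by
  obtain ⟨h', hh'⟩ := exists_h (fun x y : kˣ => s.c f x y) (fun x y => Sec.c_comm s f x y) (by
    intro x y z
    show s.c f x y + s.c f ((x * y : kˣ) : k) z = s.c f y z + s.c f x ((y * z : kˣ) : k)
    rw [Units.val_mul, Units.val_mul, Sec.c_comm s f (x : k) ((y : k) * (z : k)),
      coc_tri s f hS hV x.ne_zero y.ne_zero z.ne_zero,
      coc_tri s f hS hV y.ne_zero z.ne_zero x.ne_zero]
    have e1 : (y : k) * (z : k) * (x : k) = (x : k) * (y : k) * (z : k) := by ring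
    have e2 : s.a (y : k) * s.a (z : k) * s.a (x : k) = s.a (x : k) * s.a (y : k) * s.a (z : k) := by
      ring
    have e3 : s.b (y : k) * s.b (z : k) * s.b (x : k) = s.b (x : k) * s.b (y : k) * s.b (z : k) := by
      ring
    rw [e1, e2, e3])
  have hc : ∀ x y : k, x ≠ 0 → y ≠ 0 → s.c f x y =
      (if hx : x = 0 then 0 else h' (Units.mk0 x hx)) + (if hy : y = 0 then 0 else h' (Units.mk0 y hy)) -
        (if hxy : x * y = 0 then 0 else h' (Units.mk0 (x * y) hxy)) := by
    intro x y hx hy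
    rw [dif_neg hx, dif_neg hy, dif_neg (mul_ne_zero hx hy), Units.mk0_mul]
    exact hh' (Units.mk0 x hx) (Units.mk0 y hy)
  have hr : ∀ c : K, c ≠ 0 → p.r (C c) ≠ 0 := fun c hc0 =>
    Pl.ne (C_ne_zero.2 hc0) (by rw [natDegree_C]; exact p.d_pos)
  obtain ⟨L, hL1, hL2⟩ := exists_mul
    (fun c : K => (if hx : p.r (C c) = 0 then 0 else h' (Units.mk0 (p.r (C c)) hx) : W)) (by
      intro x y hx hy
      have h1 := hc (p.r (C x)) (p.r (C y)) (hr x hx) (hr y hy)
      rw [a1b_c s f (C_ne_zero.2 hx) (C_ne_zero.2 hy)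
        (by rw [← C_mul, natDegree_C]; exact Nat.zero_le _)] at h1
      have h2 : p.r (C (x * y)) = p.r (C x) * p.r (C y) := by rw [C_mul, map_mul]
      simp only [h2]
      exact (sub_eq_zero.1 h1.symm).symm)
    (fun Q => if Q = p.P then 0 else
      (if hx : p.r Q = 0 then 0 else h' (Units.mk0 (p.r Q) hx)) + s.kk f Q)
  exact ⟨{
    h := fun x => if hx : x = 0 then 0 else h' (Units.mk0 x hx)
    L := L
    hc := hc
    hC := hL1
    hP := by rw [hL2 p.P p.monic p.irr, if_pos rfl]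
    hQ := fun Q hm hi hne => by rw [hL2 Q hm hi, if_neg hne] }⟩

theorem LData.h_mul (D : LData s f) {A B : K[X]} (hA : A ≠ 0) (hB : B ≠ 0)
    (hd : (A * B).natDegree ≤ p.d / 2) : D.h (p.r (A * B)) = D.h (p.r A) + D.h (p.r B) := by
  have hp := p.d_pos
  have hdm := natDegree_mul hA hB
  have h1 := D.hc (p.r A) (p.r B) (Pl.ne hA (by omega)) (Pl.ne hB (by omega))
  rw [a1b_c s f hA hB hd] at h1
  rw [map_mul]
  exact (sub_eq_zero.1 h1.symm).symm

theorem LData.low (D : LData s f) {A : K[X]} (hA : A ≠ 0) (hd : A.natDegree ≤ p.d / 2) :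
    D.L (pl A) = D.h (p.r A) := by
  have hp := p.d_pos
  refine poly_ind (M := fun A => A.natDegree ≤ p.d / 2 → D.L (pl A) = D.h (p.r A)) ?_ ?_ ?_ A hA hd
  · intro c hc _
    exact D.hC c hc
  · intro Q hm hi hdQ
    have hne : Q ≠ p.P := by
      rintro rfl
      have h1 : p.P.natDegree = p.d := rfl
      omega
    rw [D.hQ Q hm hi hne]
    unfold Sec.kk
    rw [s.low hm.ne_zero hdQ, G_self, add_zero]
  · intro A B hA hB ihA ihB hdAB
    have hdm := natDegree_mul hA hB
    rw [pl_mul hA hB, map_add, ihA (by omega), ihB (by omega), D.h_mul hA hB hdAB]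

theorem LData.h_eq (D : LData s f) {x : k} (hx : x ≠ 0) :
    D.h x = D.L (pl (s.a x)) - D.L (pl (s.b x)) := by
  have hp := p.d_pos
  have ha := s.a_deg x
  have hb := s.b_deg x
  have hbd : (s.b x).natDegree ≤ p.d / 2 := by omega
  have hy : p.r (s.b x) ≠ 0 := Pl.ne (s.b_ne x hx) (by omega)
  have h1 := D.hc x (p.r (s.b x)) hx hy
  have h2 : s.c f x (p.r (s.b x)) = 0 := by
    refine Sec.c_zero s f ?_
    rw [← s.eq x hx, s.low (s.b_ne x hx) hbd, s.low (s.a_ne x hx) ha]
    ring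
  rw [h2, ← s.eq x hx] at h1
  rw [D.low (s.a_ne x hx) ha, D.low (s.b_ne x hx) hbd]
  exact eq_sub_of_add_eq (sub_eq_zero.1 h1.symm)

/-- `h(c x) = h(c) + h(x)` for a constant `c`, and `s(c x) = c s(x)`. -/
theorem LData.h_C (D : LData s f) {c : K} (hc : c ≠ 0) {x : k} (hx : x ≠ 0) :
    D.h (p.r (C c) * x) = D.h (p.r (C c)) + D.h x := by
  have hp := p.d_pos
  have hcC : (C c : K[X]) ≠ 0 := C_ne_zero.2 hc
  have hd0 : (C c : K[X]).natDegree ≤ p.d / 2 := by
    rw [natDegree_C]
    exact Nat.zero_le _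
  have hy : p.r (C c) ≠ 0 := Pl.ne hcC (by rw [natDegree_C]; exact hp)
  have h1 := D.hc (p.r (C c)) x hy hx
  have h2 : s.c f (p.r (C c)) x = 0 := by
    refine Sec.c_zero s f ?_
    have h3 := s.uniq (mul_ne_zero hy hx) (A := C c * s.a x) (B := s.b x)
      (by rw [natDegree_C_mul hc]; exact s.a_deg x) (s.b_deg x)
      (by rw [map_mul, s.eq x hx, mul_assoc])
    calc s.a (p.r (C c)) * s.a x * s.b (p.r (C c) * x)
        = s.b (p.r (C c)) * (C c * s.a x * s.b (p.r (C c) * x)) := by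
          rw [s.low hcC hd0]
          ring
      _ = s.b (p.r (C c)) * (s.a (p.r (C c) * x) * s.b x) := by rw [h3]
      _ = s.b (p.r (C c)) * s.b x * s.a (p.r (C c) * x) := by ring
  rw [h2] at h1
  exact (sub_eq_zero.1 h1.symm).symm

end SRG
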