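import Pool.Agent.SRG.Defs

set_option autoImplicit false

/-!
# SRG-1: elementary properties of `Sm`, `G`, `pl`

All proofs are short.  `G f A B` is the value of `f` at `A / B` (with `x / 0 = 0`).
`Sm.bd`: an irreducible divisor `Q` of a smooth nonzero `A` is associated to the monic
irreducible `normalize Q`, which lies in `S`.
-/

noncomputable section

open Polynomial
open scoped Classical
open Helper11.Gon

namespace SRG

universe u v w

section
variable {K : Type u} [Field K] {S T : Set K[X]} {A B C P : K[X]}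

lemma sm_zero (S : Set K[X]) : Sm S 0 := Or.inl rfl

lemma sm_C (S : Set K[X]) (c : K) : Sm S (Polynomial.C c) := by
  by_cases hc : c = 0
  · left
    rw [hc, Polynomial.C_0]
  · right
    intro Q _ hQ hd
    exact absurd (isUnit_of_dvd_unit hd (Polynomial.isUnit_C.2 (isUnit_iff_ne_zero.2 hc)))
      hQ.not_isUnit

lemma sm_one (S : Set K[X]) : Sm S 1 := by
  have h := sm_C S (1 : K)
  rwa [Polynomial.C_1] at h

lemma Sm.mul (hA : Sm S A) (hB : Sm S B) : Sm S (A * B) := by
  rcases hA with hA | hA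
  · left
    rw [hA, zero_mul]
  rcases hB with hB | hB
  · left
    rw [hB, mul_zero]
  right
  intro Q hm hi hd
  rcases hi.prime.dvd_or_dvd hd with h | h
  · exact hA Q hm hi h
  · exact hB Q hm hi h

lemma Sm.dvd (hA : Sm S A) (h0 : A ≠ 0) (h : B ∣ A) : Sm S B := by
  rcases hA with hA | hA
  · exact absurd hA h0
  · right
    intro Q hm hi hd
    exact hA Q hm hi (hd.trans h)

lemma Sm.neg (hA : Sm S A) : Sm S (-A) := by
  rcases hA with hA | hA
  · left
    rw [hA, neg_zero]
  · right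
    intro Q hm hi hd
    exact hA Q hm hi ((dvd_neg).1 hd)

lemma Sm.mono (hA : Sm S A) (h : S ⊆ T) : Sm T A := by
  rcases hA with hA | hA
  · left
    exact hA
  · right
    intro Q hm hi hd
    exact h (hA Q hm hi hd)

lemma Sm.not_dvd (hA : Sm S A) (h0 : A ≠ 0) (hm : P.Monic) (hi : Irreducible P) (hP : P ∉ S) :
    ¬ P ∣ A := by
  intro hd
  rcases hA with hA | hA
  · exact h0 hA
  · exact hP (hA P hm hi hd)

lemma Sm.of_insert (hA : Sm (insert P S) A) (h : ¬ P ∣ A) : Sm S A := by
  rcases hA with hA | hA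
  · left
    exact hA
  · right
    intro Q hm hi hd
    rcases Set.mem_insert_iff.1 (hA Q hm hi hd) with hq | hq
    · rw [hq] at hd
      exact absurd hd h
    · exact hq

lemma Sm.bd {m : ℕ} (hS : ∀ Q ∈ S, Q.natDegree ≤ m) (hA : Sm S A) (h0 : A ≠ 0) {Q : K[X]}
    (hQ : Irreducible Q) (h : Q ∣ A) : Q.natDegree ≤ m := by
  rcases hA with hA | hA
  · exact absurd hA h0
  · have hq0 : Q ≠ 0 := hQ.ne_zero
    have hu : IsUnit (Polynomial.C Q.leadingCoeff⁻¹) :=
      Polynomial.isUnit_C.2 (isUnit_iff_ne_zero.2 (inv_ne_zero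
        (Polynomial.leadingCoeff_ne_zero.2 hq0)))
    have hd : Q * Polynomial.C Q.leadingCoeff⁻¹ ∣ A := (hu.mul_right_dvd).2 h
    have hi : Irreducible (Q * Polynomial.C Q.leadingCoeff⁻¹) :=
      (irreducible_mul_isUnit hu).2 hQ
    have h1 := hS _ (hA _ (Polynomial.monic_mul_leadingCoeff_inv hq0) hi hd)
    rwa [Polynomial.natDegree_mul_leadingCoeff_inv Q hq0] at h1

lemma Adm.sm {d : ℕ} (h : Adm S d) (hA : A.natDegree < d) : Sm S A := by
  by_cases h0 : A = 0
  · left
    exact h0
  · right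
    intro Q hm hi hd
    exact h.small Q hm hi (lt_of_le_of_lt (Polynomial.natDegree_le_of_dvd hd h0) hA)

lemma Adm.insert {d : ℕ} (h : Adm S d) (hm : P.Monic) (hi : Irreducible P)
    (hd : P.natDegree = d) : Adm (insert P S) d := by
  refine ⟨?_, ?_, ?_, ?_⟩
  · intro Q hQ
    rcases Set.mem_insert_iff.1 hQ with hq | hq
    · rw [hq]
      exact hm
    · exact h.monic Q hq
  · intro Q hQ
    rcases Set.mem_insert_iff.1 hQ with hq | hq
    · rw [hq]
      exact hi
    · exact h.irr Q hq
  · intro Q hQ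
    rcases Set.mem_insert_iff.1 hQ with hq | hq
    · rw [hq]
      exact hd.le
    · exact h.le Q hq
  · intro Q h1 h2 h3
    exact Set.mem_insert_of_mem _ (h.small Q h1 h2 h3)

end

section
variable {K : Type u} [Field K] {W : Type w} [AddCommGroup W] [Module ℚ W]
  (f : FV (RatFunc K) W)

private lemma basic_map_ne {A : K[X]} (h : A ≠ 0) : algebraMap K[X] (RatFunc K) A ≠ 0 := by
  rw [Ne, map_eq_zero_iff _ (RatFunc.algebraMap_injective K)]
  exact h

lemma G_self (A : K[X]) : G f A A = 0 := by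
  unfold G
  by_cases h : algebraMap K[X] (RatFunc K) A = 0
  · rw [h, div_zero]
    exact f.zero
  · rw [div_self h]
    exact f.one

lemma G_zero_left (B : K[X]) : G f 0 B = 0 := by
  unfold G
  rw [map_zero, zero_div]
  exact f.zero

lemma G_zero_right (A : K[X]) : G f A 0 = 0 := by
  unfold G
  rw [map_zero, div_zero]
  exact f.zero

lemma G_swap (A B : K[X]) : G f A B = - G f B A := by
  unfold G
  rw [← f.inv, inv_div]

lemma G_compl {A B C : K[X]} (h : A + C = B) : G f A B = - G f C B := by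
  by_cases hB : B = 0
  · rw [hB, G_zero_right, G_zero_right, neg_zero]
  · have hb : algebraMap K[X] (RatFunc K) B ≠ 0 := basic_map_ne hB
    have e : algebraMap K[X] (RatFunc K) A / algebraMap K[X] (RatFunc K) B =
        1 - algebraMap K[X] (RatFunc K) C / algebraMap K[X] (RatFunc K) B := by
      rw [eq_sub_iff_add_eq, ← add_div, ← map_add, h, div_self hb]
    unfold G
    rw [e, f.sub]

lemma G_mul {c : K[X]} (hc : c ≠ 0) (A B : K[X]) : G f (c * A) (c * B) = G f A B := by
  have h : algebraMap K[X] (RatFunc K) c ≠ 0 := basic_map_ne hc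
  unfold G
  rw [map_mul, map_mul, mul_div_mul_left _ _ h]

lemma pl_zero : pl (0 : K[X]) = 0 := by
  unfold pl
  rw [map_zero, lg_zero]

lemma pl_one : pl (1 : K[X]) = 0 := by
  unfold pl
  rw [map_one, lg_one]

lemma pl_mul {A B : K[X]} (hA : A ≠ 0) (hB : B ≠ 0) : pl (A * B) = pl A + pl B := by
  unfold pl
  rw [map_mul, lg_mul (basic_map_ne hA) (basic_map_ne hB)]

/-- Use `hom_tors` of `Pool.Agent.Helper11.Gon.Basic`. -/
lemma hom_pl_neg (L : Additive (RatFunc K)ˣ →+ W) (A : K[X]) : L (pl (-A)) = L (pl A) := by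
  unfold pl
  rw [map_neg]
  exact hom_neg L _

lemma lg_div_pl {A B : K[X]} (hA : A ≠ 0) (hB : B ≠ 0) :
    lg (algebraMap K[X] (RatFunc K) A / algebraMap K[X] (RatFunc K) B) = pl A - pl B := by
  unfold pl
  exact lg_div (basic_map_ne hA) (basic_map_ne hB)

/-- Here `1 - A / B = C / B`. -/
lemma G_tw (o : AF (RatFunc K) W) {A B C : K[X]} (h : A + C = B) (hA : A ≠ 0) (hB : B ≠ 0)
    (hC : C ≠ 0) : G (f.tw o) A B = G f A B +
      (o.O (pl A) (pl C) - o.O (pl A) (pl B) - o.O (pl B) (pl C)) := by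
  have hb : algebraMap K[X] (RatFunc K) B ≠ 0 := basic_map_ne hB
  have e : 1 - algebraMap K[X] (RatFunc K) A / algebraMap K[X] (RatFunc K) B =
      algebraMap K[X] (RatFunc K) C / algebraMap K[X] (RatFunc K) B := by
    rw [sub_eq_iff_eq_add, ← add_div, ← map_add, add_comm, h, div_self hb]
  have h1 : G (f.tw o) A B = G f A B +
      o.St (algebraMap K[X] (RatFunc K) A / algebraMap K[X] (RatFunc K) B) := rfl
  rw [h1, AF.St, e, lg_div_pl hA hB, lg_div_pl hC hB]
  have h2 : o.O (pl B) (pl B) = 0 := o.alt _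
  simp only [map_sub, AddMonoidHom.sub_apply, h2]
  abel

end

end SRG
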