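import Pool.Agent.SRG.Basic

set_option autoImplicit false

/-!
# SRG-6: divisors of prescribed degree

A divisor of maximal degree below a bound; two ways to split a polynomial whose irreducible
factors have bounded degree.
-/

noncomputable section

open Polynomial
open scoped Classical
open Helper11.Gon

namespace SRG

universe u v w

variable {K : Type u} [Field K]

private lemma div_deg {Y A B : K[X]} (hY : Y ≠ 0) (h : Y = A * B) :
    A ≠ 0 ∧ B ≠ 0 ∧ Y.natDegree = A.natDegree + B.natDegree := by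
  have hA : A ≠ 0 := by
    rintro rfl
    exact hY (by rw [h, zero_mul])
  have hB : B ≠ 0 := by
    rintro rfl
    exact hY (by rw [h, mul_zero])
  exact ⟨hA, hB, by rw [h, natDegree_mul hA hB]⟩

private lemma div_irr {A : K[X]} (hA : 0 < A.natDegree) :
    ∃ Q B : K[X], Irreducible Q ∧ A = Q * B ∧ 0 < Q.natDegree := by
  have h1 : ¬ IsUnit A := by
    intro h
    rw [natDegree_eq_zero_of_isUnit h] at hA
    exact lt_irrefl _ hA
  have h2 : A ≠ 0 := by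
    rintro rfl
    rw [natDegree_zero] at hA
    exact lt_irrefl _ hA
  obtain ⟨Q, hQ, B, hB⟩ := WfDvdMonoid.exists_irreducible_factor h1 h2
  exact ⟨Q, B, hQ, hB, hQ.natDegree_pos⟩

/-- A divisor of maximal degree among those of degree at most `t`. -/
theorem exists_max_dvd {Y : K[X]} (hY : Y ≠ 0) (t : ℕ) : ∃ Z Z' : K[X], Y = Z * Z' ∧
    Z.natDegree ≤ t ∧ ∀ Z2 : K[X], Z2 ∣ Y → Z2.natDegree ≤ t → Z2.natDegree ≤ Z.natDegree := by
  have h0 : ∃ Z : K[X], Z ∣ Y ∧ Z.natDegree = 0 := ⟨1, one_dvd _, natDegree_one⟩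
  obtain ⟨Z, ⟨Z', hZ⟩, h1⟩ := Nat.findGreatest_spec (P := fun n => ∃ Z : K[X], Z ∣ Y ∧ Z.natDegree = n)
    (Nat.zero_le t) h0
  refine ⟨Z, Z', hZ, ?_, ?_⟩
  · rw [h1]
    exact Nat.findGreatest_le t
  · intro Z2 h2 h3
    rw [h1]
    exact Nat.le_findGreatest h3 ⟨Z2, h2, rfl⟩

theorem exists_div {Y : K[X]} (hY : Y ≠ 0) {m N : ℕ} (hm1 : 1 ≤ m)
    (hm : ∀ Q : K[X], Irreducible Q → Q ∣ Y → Q.natDegree ≤ m) (hN : Y.natDegree ≤ N)
    (h1 : m < 2 * N) : ∃ (Y0 Y1 : K[X]) (n : ℕ), Y = Y0 * Y1 ∧ m < 2 * n ∧ n ≤ m ∧ n ≤ N ∧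
      Y0.natDegree ≤ n ∧ Y1.natDegree ≤ N - n ∧ (Y.natDegree = N → Y0.natDegree = n) := by
  by_cases hA : ∃ Q B : K[X], Irreducible Q ∧ Y = Q * B ∧ m < 2 * Q.natDegree
  · obtain ⟨Q, B, hQ, hB, h2⟩ := hA
    obtain ⟨-, -, h3⟩ := div_deg hY hB
    refine ⟨Q, B, Q.natDegree, hB, h2, hm Q hQ ⟨B, hB⟩, by omega, le_rfl, by omega, fun _ => rfl⟩
  · obtain ⟨Y0, Y1, h2, h3, h4⟩ := exists_max_dvd hY m
    obtain ⟨h5, h6, h7⟩ := div_deg hY h2
    by_cases h8 : m < 2 * Y0.natDegree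
    · exact ⟨Y0, Y1, Y0.natDegree, h2, h8, h3, by omega, le_rfl, by omega, fun _ => rfl⟩
    · have h9 : Y1.natDegree = 0 := by
        by_contra h10
        obtain ⟨Q, B, hQ, hB, hQ0⟩ := div_irr (Nat.pos_of_ne_zero h10)
        have h11 : ¬ m < 2 * Q.natDegree := fun h => hA ⟨Q, Y0 * B, hQ, by rw [h2, hB]; ring, h⟩
        have h12 : (Y0 * Q).natDegree = Y0.natDegree + Q.natDegree := natDegree_mul h5 hQ.ne_zero
        have h13 := h4 (Y0 * Q) ⟨B, by rw [h2, hB]; ring⟩ (by omega)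
        omega
      exact ⟨Y0, Y1, m / 2 + 1, h2, by omega, by omega, by omega, by omega, by omega,
        fun h => by omega⟩

theorem exists_div2 {Y : K[X]} (hY : Y ≠ 0) {d : ℕ}
    (hd : ∀ Q : K[X], Irreducible Q → Q ∣ Y → Q.natDegree ≤ d)
    (h : 2 * Y.natDegree ≤ 3 * d) : ∃ Y1 Y2 : K[X], Y = Y1 * Y2 ∧ Y1.natDegree ≤ d ∧
      2 * Y2.natDegree ≤ Y.natDegree := by
  by_cases h1 : Y.natDegree ≤ d
  · exact ⟨Y, 1, (mul_one Y).symm, h1, by rw [natDegree_one]; omega⟩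
  by_cases hA : ∃ Q B : K[X], Irreducible Q ∧ Y = Q * B ∧ Y.natDegree ≤ 2 * Q.natDegree
  · obtain ⟨Q, B, hQ, hB, h2⟩ := hA
    obtain ⟨-, -, h3⟩ := div_deg hY hB
    exact ⟨Q, B, hB, hd Q hQ ⟨B, hB⟩, by omega⟩
  · obtain ⟨Z, Z', h2, h3, h4⟩ := exists_max_dvd hY (Y.natDegree / 2)
    obtain ⟨h5, h6, h7⟩ := div_deg hY h2
    by_cases h8 : Z'.natDegree ≤ d
    · exact ⟨Z', Z, by rw [h2]; ring, h8, by omega⟩
    · exfalso
      obtain ⟨Q, B, hQ, hB, hQ0⟩ := div_irr (show 0 < Z'.natDegree by omega)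
      obtain ⟨h9, h10, h11⟩ := div_deg h6 hB
      have h12 : ¬ Y.natDegree ≤ 2 * Q.natDegree :=
        fun h => hA ⟨Q, Z * B, hQ, by rw [h2, hB]; ring, h⟩
      have h13 := h4 Q ⟨Z * B, by rw [h2, hB]; ring⟩ (by omega)
      have h14 : (Z * Q).natDegree = Z.natDegree + Q.natDegree := natDegree_mul h5 h9
      have h15 : ¬ (Z * Q).natDegree ≤ Y.natDegree / 2 := by
        intro h
        have h16 := h4 (Z * Q) ⟨B, by rw [h2, hB]; ring⟩ h
        omega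
      have h17 := h4 B ⟨Z * Q, by rw [h2, hB]; ring⟩ (by omega)
      omega

end SRG
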