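import Pool.Agent.SRG.Basic

set_option autoImplicit false

/-!
# SRG-3b: Pade approximation for three polynomials

`pade3`: `(u, v, w) ↦ p0 u + r0 w - q0 v`, from a space of dimension
`(D - p + 1) + (D - q + 1) + (D - r + 1) > D + 1` to the polynomials of degree `≤ D`, has a
nonzero kernel element.  If `w = 0` then `p0 u = q0 v`, `u`, `v` are not `0`, so `q0` divides `u`
and `p0` divides `v`, `deg q0 ≤ D - p`, `deg p0 ≤ D - q`, a contradiction to `D < p + q` as
`deg p0 = p` or `deg q0 = q`; the same for `u` and `v`.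
-/

noncomputable section

open Polynomial
open scoped Classical
open Helper11.Gon

namespace SRG

universe u v w

variable {K : Type u} [Field K]

private lemma pade3_aux {a b x y : K[X]} {p q D : ℕ} (ha : a ≠ 0) (hb : b ≠ 0)
    (hab : IsCoprime a b) (h : a * x = b * y) (hx : x.natDegree ≤ D - p)
    (hy : y.natDegree ≤ D - q) (s : a.natDegree = p ∨ b.natDegree = q) (l : D < p + q)
    (hp : p ≤ D) (hq : q ≤ D) : x = 0 ∧ y = 0 := by
  by_cases hx0 : x = 0
  · refine ⟨hx0, ?_⟩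
    rw [hx0, mul_zero] at h
    rcases mul_eq_zero.1 h.symm with h | h
    · exact absurd h hb
    · exact h
  · exfalso
    have hy0 : y ≠ 0 := by
      intro hy0
      rw [hy0, mul_zero] at h
      rcases mul_eq_zero.1 h with h | h
      · exact ha h
      · exact hx0 h
    have h1 : b ∣ x := hab.symm.dvd_of_dvd_mul_left (Dvd.intro _ h.symm)
    have h2 : a ∣ y := hab.dvd_of_dvd_mul_left (Dvd.intro _ h)
    have h3 := natDegree_le_of_dvd h1 hx0
    have h4 := natDegree_le_of_dvd h2 hy0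
    omega

private lemma pade3_deg {n : ℕ} (f : K[X]) (hf : f ∈ degreeLT K (n + 1)) : f.natDegree ≤ n := by
  rw [mem_degreeLT, degree_lt_iff_coeff_zero] at hf
  rw [natDegree_le_iff_coeff_eq_zero]
  intro N hN
  exact hf N hN

private lemma pade3_rank (n : ℕ) : Module.finrank K (degreeLT K n) = n := by
  rw [(degreeLTEquiv K n).finrank_eq, Module.finrank_fin_fun]

private lemma pade3_fin (n : ℕ) : Module.Finite K (degreeLT K n) :=
  Module.Finite.equiv (degreeLTEquiv K n).symm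

/-- The linear map `(u, v, w) ↦ p0 u + r0 w - q0 v`, coefficients up to `D`. -/
private def pade3_map (p0 q0 r0 : K[X]) (a b c D : ℕ) :
    (degreeLT K a × degreeLT K b × degreeLT K c) →ₗ[K] (Fin (D + 1) → K) where
  toFun z := fun i => (p0 * (z.1 : K[X]) + r0 * (z.2.2 : K[X]) - q0 * (z.2.1 : K[X])).coeff i
  map_add' x y := by
    funext i
    simp only [Prod.fst_add, Prod.snd_add, Submodule.coe_add, Pi.add_apply]
    rw [← coeff_add]
    congr 1
    ring
  map_smul' c x := by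
    funext i
    simp only [Prod.smul_fst, Prod.smul_snd, Submodule.coe_smul, Pi.smul_apply, RingHom.id_apply]
    rw [← coeff_smul]
    congr 1
    simp only [smul_eq_C_mul]
    ring

private lemma pade3_ker {p0 q0 r0 : K[X]} {p q r D : ℕ} (hp : p0.natDegree ≤ p)
    (hq : q0.natDegree ≤ q) (hr : r0.natDegree ≤ r) (hD : p + q + r ≤ 2 * D + 1) (hpD : p ≤ D)
    (hqD : q ≤ D) (hrD : r ≤ D) :
    ∃ u v w : K[X], (u ≠ 0 ∨ v ≠ 0 ∨ w ≠ 0) ∧ u.natDegree ≤ D - p ∧ v.natDegree ≤ D - q ∧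
      w.natDegree ≤ D - r ∧ p0 * u + r0 * w = q0 * v := by
  have := pade3_fin (K := K) (D - p + 1)
  have := pade3_fin (K := K) (D - q + 1)
  have := pade3_fin (K := K) (D - r + 1)
  have hlt : Module.finrank K (Fin (D + 1) → K) <
      Module.finrank K (degreeLT K (D - p + 1) × degreeLT K (D - q + 1) ×
        degreeLT K (D - r + 1)) := by
    rw [Module.finrank_prod, Module.finrank_prod, pade3_rank, pade3_rank, pade3_rank,
      Module.finrank_fin_fun]
    omega
  have hk := LinearMap.ker_ne_bot_of_finrank_lt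
    (f := pade3_map p0 q0 r0 (D - p + 1) (D - q + 1) (D - r + 1) D) hlt
  obtain ⟨z, hz, hz0⟩ := (Submodule.ne_bot_iff _).1 hk
  have hu := pade3_deg (z.1 : K[X]) z.1.2
  have hv := pade3_deg (z.2.1 : K[X]) z.2.1.2
  have hw := pade3_deg (z.2.2 : K[X]) z.2.2.2
  refine ⟨z.1, z.2.1, z.2.2, ?_, hu, hv, hw, ?_⟩
  · by_contra hcon
    push Not at hcon
    obtain ⟨h1, h2, h3⟩ := hcon
    apply hz0
    refine Prod.ext (Subtype.ext h1) (Prod.ext (Subtype.ext h2) (Subtype.ext h3))
  · rw [← sub_eq_zero]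
    have hdeg : (p0 * (z.1 : K[X]) + r0 * (z.2.2 : K[X]) - q0 * (z.2.1 : K[X])).natDegree ≤ D := by
      refine (natDegree_sub_le _ _).trans (max_le ((natDegree_add_le _ _).trans (max_le ?_ ?_)) ?_)
      · exact natDegree_mul_le.trans (by omega)
      · exact natDegree_mul_le.trans (by omega)
      · exact natDegree_mul_le.trans (by omega)
    rw [LinearMap.mem_ker] at hz
    ext i
    rw [coeff_zero]
    by_cases hi : i < D + 1
    · exact congrFun hz ⟨i, hi⟩
    · exact coeff_eq_zero_of_natDegree_lt (by omega)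

theorem pade3 {p0 q0 r0 : K[X]} {p q r D : ℕ} (hp0 : p0 ≠ 0) (hq0 : q0 ≠ 0) (hr0 : r0 ≠ 0)
    (hp : p0.natDegree ≤ p) (hq : q0.natDegree ≤ q)
    (hr : r0.natDegree ≤ r) (hD : p + q + r ≤ 2 * D + 1) (hpD : p ≤ D) (hqD : q ≤ D)
    (hrD : r ≤ D) (hpq : IsCoprime p0 q0) (hpr : IsCoprime p0 r0) (hqr : IsCoprime q0 r0)
    (spq : p0.natDegree = p ∨ q0.natDegree = q) (spr : p0.natDegree = p ∨ r0.natDegree = r)
    (sqr : q0.natDegree = q ∨ r0.natDegree = r) (lpq : D < p + q) (lpr : D < p + r)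
    (lqr : D < q + r) :
    ∃ u v w : K[X], u ≠ 0 ∧ v ≠ 0 ∧ w ≠ 0 ∧ u.natDegree ≤ D - p ∧ v.natDegree ≤ D - q ∧
      w.natDegree ≤ D - r ∧ p0 * u + r0 * w = q0 * v := by
  obtain ⟨u, v, w, h0, hu, hv, hw, h⟩ := pade3_ker hp hq hr hD hpD hqD hrD
  have hu0 : u ≠ 0 := by
    intro hu0
    have h1 : q0 * v = r0 * w := by rw [← h, hu0, mul_zero, zero_add]
    obtain ⟨h2, h3⟩ := pade3_aux hq0 hr0 hqr h1 hv hw sqr lqr hqD hrD
    rcases h0 with h0 | h0 | h0
    · exact h0 hu0
    · exact h0 h2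
    · exact h0 h3
  have hv0 : v ≠ 0 := by
    intro hv0
    have h1 : p0 * u = r0 * (-w) := by
      rw [hv0, mul_zero] at h
      rw [mul_neg]
      exact eq_neg_of_add_eq_zero_left h
    obtain ⟨h2, h3⟩ := pade3_aux hp0 hr0 hpr h1 hu (by rwa [natDegree_neg]) spr lpr hpD hrD
    exact hu0 h2
  have hw0 : w ≠ 0 := by
    intro hw0
    have h1 : p0 * u = q0 * v := by rw [← h, hw0, mul_zero, add_zero]
    obtain ⟨h2, h3⟩ := pade3_aux hp0 hq0 hpq h1 hu hv spq lpq hpD hqD
    exact hu0 h2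
  exact ⟨u, v, w, hu0, hv0, hw0, hu, hv, hw, h⟩

end SRG
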