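import Pool.Agent.SRG.Pade
import Pool.Agent.SRG.Pade3
import Pool.Agent.SRG.Div

set_option autoImplicit false

/-!
# SRG-13: choice of divisors and the three-term Pade approximation

`exists_pq`: `A`, `B` coprime, smooth (all irreducible divisors of degree `≤ d`), of maximal degree
`N` with `4 d < 3 N`, `2 N ≤ 3 d`, and `deg A = N` or `deg B = N` (this is `hN`).  By `exists_div`
(with `m = d`) `A = A0 A1`, `B = B0 B1` with formal degrees `a`, `b` of `A0`, `B0` in `(d/2, d]`.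
If `a + b + d < 2 N` take these.  Otherwise replace `A0`, `a` by `A1`, `N - a`: then
`N - a + b > d` (as `b ≥ 2 N - d - a`, `a ≤ d`, so `N - a + b ≥ 3 N - 3 d > d`) and
`N - a + b < 2 N - d` (as `a ≥ 2 N - d - b`, `b ≤ d`: `b - a ≤ 3 d - 2 N < N - d`).
The last conjuncts (no slack): if `deg A = N` then `deg A0 = a`, and the same for `B`.

`exists_uvw`: `pade3` with `q0 = B0`, `p0 = A0`, `r0 = P` (formal degree `d`), `D = (a + b + d) / 2`
(so `D < N`, `D - a < d`, `D - b < d`, `D - d < d`).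
-/

noncomputable section

open Polynomial
open scoped Classical
open Helper11.Gon

namespace SRG

universe u v w

variable {K : Type u} [Field K] {k : Type v} [Field k] {p : Pl K k}

private lemma uvw_deg {Y A B : K[X]} (hY : Y ≠ 0) (h : Y = A * B) :
    Y.natDegree = A.natDegree + B.natDegree := by
  have hA : A ≠ 0 := by
    rintro rfl
    exact hY (by rw [h, zero_mul])
  have hB : B ≠ 0 := by
    rintro rfl
    exact hY (by rw [h, mul_zero])
  rw [h, natDegree_mul hA hB]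

private lemma uvw_mul {A B : K[X]} {a b n : ℕ} (hA : A.natDegree ≤ a) (hB : B.natDegree ≤ b)
    (h : a + b < n) : (A * B).natDegree < n := by
  have h1 := natDegree_mul_le (p := A) (q := B)
  omega

theorem exists_pq {A B : K[X]} (hA0 : A ≠ 0) (hB0 : B ≠ 0) {d N : ℕ} (hd : 1 ≤ d)
    (hA : ∀ Q : K[X], Irreducible Q → Q ∣ A → Q.natDegree ≤ d)
    (hB : ∀ Q : K[X], Irreducible Q → Q ∣ B → Q.natDegree ≤ d)
    (dA : A.natDegree ≤ N) (dB : B.natDegree ≤ N) (hN : A.natDegree = N ∨ B.natDegree = N)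
    (h1 : 4 * d < 3 * N) (h2 : 2 * N ≤ 3 * d) :
    ∃ (A0 A1 B0 B1 : K[X]) (a b : ℕ), A = A0 * A1 ∧ B = B0 * B1 ∧ A0.natDegree ≤ a ∧
      A1.natDegree ≤ N - a ∧ B0.natDegree ≤ b ∧ B1.natDegree ≤ N - b ∧ a ≤ N ∧ b ≤ N ∧
      d < a + b ∧ a + b + d < 2 * N ∧ a < b + d ∧ b < a + d ∧
      (A0.natDegree = a ∨ B0.natDegree = b) := by
  obtain ⟨A0, A1, a, hA1, a1, a2, a3, a4, a5, a6⟩ := exists_div hA0 hd hA dA (by omega)
  obtain ⟨B0, B1, b, hB1, b1, b2, b3, b4, b5, b6⟩ := exists_div hB0 hd hB dB (by omega)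
  have hAd := uvw_deg hA0 hA1
  by_cases hab : a + b + d < 2 * N
  · refine ⟨A0, A1, B0, B1, a, b, hA1, hB1, a4, a5, b4, b5, a3, b3, by omega, hab, by omega,
      by omega, ?_⟩
    rcases hN with h | h
    · exact Or.inl (a6 h)
    · exact Or.inr (b6 h)
  · refine ⟨A1, A0, B0, B1, N - a, b, by rw [hA1, mul_comm], hB1, a5, by omega, b4, b5, by omega,
      b3, by omega, by omega, by omega, by omega, ?_⟩
    rcases hN with h | h
    · left
      have h7 := a6 h
      omega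
    · exact Or.inr (b6 h)

/-- The decomposition of `A / B` (`A = B` modulo `P`) into two elements of smaller height which
are `1` modulo `P`, up to elements of smaller height. -/
theorem exists_uvw {A B : K[X]} (hA0 : A ≠ 0) (hB0 : B ≠ 0) {N : ℕ}
    (hA : ∀ Q : K[X], Irreducible Q → Q ∣ A → Q.natDegree ≤ p.d)
    (hB : ∀ Q : K[X], Irreducible Q → Q ∣ B → Q.natDegree ≤ p.d)
    (dA : A.natDegree ≤ N) (dB : B.natDegree ≤ N) (hN : A.natDegree = N ∨ B.natDegree = N)
    (h1 : 4 * p.d < 3 * N) (h2 : 2 * N ≤ 3 * p.d) (hAB : IsCoprime A B)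
    (hPA : ¬ p.P ∣ A) (hPB : ¬ p.P ∣ B) :
    ∃ A0 A1 B0 B1 u v w : K[X], A = A0 * A1 ∧ B = B0 * B1 ∧ u ≠ 0 ∧ v ≠ 0 ∧ w ≠ 0 ∧
      u.natDegree < p.d ∧ v.natDegree < p.d ∧ w.natDegree < p.d ∧
      A0 * u + p.P * w = B0 * v ∧
      (A0 * u).natDegree < N ∧ (B0 * v).natDegree < N ∧
      (u * B1).natDegree < N ∧ (v * A1).natDegree < N ∧
      (v * A1).natDegree < 2 * p.d ∧ (u * B1).natDegree < 2 * p.d ∧
      (A1 * w).natDegree < N ∧ (B1 * w).natDegree < N ∧
      (∀ C : K[X], C.natDegree ≤ N - p.d → (C * u).natDegree < N ∧ (C * v).natDegree < N) := by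
  have hd : 1 ≤ p.d := p.d_pos
  obtain ⟨A0, A1, B0, B1, a, b, eA, eB, dA0, dA1, dB0, dB1, haN, hbN, g1, g2, g3, g4, g5⟩ :=
    exists_pq hA0 hB0 hd hA hB dA dB hN h1 h2
  have nA0 : A0 ≠ 0 := by
    rintro rfl
    exact hA0 (by rw [eA, zero_mul])
  have nB0 : B0 ≠ 0 := by
    rintro rfl
    exact hB0 (by rw [eB, zero_mul])
  have cAB : IsCoprime A0 B0 := by
    rw [eA, eB] at hAB
    exact hAB.of_mul_left_left.of_mul_right_left
  have cAP : IsCoprime A0 p.P := by
    have h3 : ¬ p.P ∣ A0 := fun h => hPA (by rw [eA]; exact h.mul_right A1)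
    exact ((p.irr.coprime_iff_not_dvd).2 h3).symm
  have cBP : IsCoprime B0 p.P := by
    have h3 : ¬ p.P ∣ B0 := fun h => hPB (by rw [eB]; exact h.mul_right B1)
    exact ((p.irr.coprime_iff_not_dvd).2 h3).symm
  have hPd : p.P.natDegree = p.d := rfl
  have hD1 : 2 * ((a + b + p.d) / 2) ≤ a + b + p.d := by omega
  have hD2 : a + b + p.d ≤ 2 * ((a + b + p.d) / 2) + 1 := by omega
  generalize (a + b + p.d) / 2 = D at hD1 hD2
  obtain ⟨u, v, w, hu, hv, hw, du, dv, dw, e⟩ := pade3 (p := a) (q := b) (r := p.d) (D := D)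
    nA0 nB0 p.irr.ne_zero dA0 dB0 hPd.le hD2 (by omega) (by omega) (by omega) cAB cAP cBP g5
    (Or.inr hPd) (Or.inr hPd) (by omega) (by omega) (by omega)
  refine ⟨A0, A1, B0, B1, u, v, w, eA, eB, hu, hv, hw, by omega, by omega, by omega, e,
    uvw_mul dA0 du (by omega), uvw_mul dB0 dv (by omega), uvw_mul du dB1 (by omega),
    uvw_mul dv dA1 (by omega), uvw_mul dv dA1 (by omega), uvw_mul du dB1 (by omega),
    uvw_mul dA1 dw (by omega), uvw_mul dB1 dw (by omega), fun C hC => ⟨?_, ?_⟩⟩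
  · exact uvw_mul hC du (by omega)
  · exact uvw_mul hC dv (by omega)

end SRG
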