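import Pool.Agent.SRG.Md
import Pool.Agent.SRG.Uvw

set_option autoImplicit false

/-!
# SRG-14: `f(A / B) = L(A / B)` for `A = B` modulo `P` of degree at most `3 d / 2`

Strong induction on a bound `N` for the degrees (`geq_aux`).  The gcd is divided out, small
degrees are `G_low`, and otherwise `exists_uvw`, `exists_F` and `five3` reduce to smaller degrees
and to values of `f` which vanish by `Van`.
-/

noncomputable section

open Polynomial
open scoped Classical
open Helper11.Gon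

namespace SRG

universe u v w

variable {K : Type u} [Field K] {W : Type w} [AddCommGroup W] [Module ℚ W]
  {k : Type v} [Field k] {p : Pl K k} {s : Sec p} {f : FV (RatFunc K) W} {S : Set K[X]}

private lemma geq_N0 {d N : ℕ} (h : 2 * N ≤ 3 * d) (hd : 1 ≤ d) : N ≤ N0 d := by
  unfold N0
  omega

private lemma geq_F (hS : Adm S p.d) {F X Y : K[X]} (hF : X + p.P * F = Y)
    (hX : X.natDegree < 2 * p.d) (hY : Y.natDegree < 2 * p.d) : Sm S F := by
  by_cases h0 : F = 0
  · rw [h0]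
    exact sm_zero S
  · apply hS.sm
    have h1 : p.P * F = Y - X := by
      rw [← hF]
      ring
    have h2 : (p.P * F).natDegree = p.d + F.natDegree := by
      rw [natDegree_mul p.monic.ne_zero h0]
      rfl
    have h3 : (Y - X).natDegree ≤ max Y.natDegree X.natDegree := natDegree_sub_le Y X
    rw [← h1, h2] at h3
    have h4 : max Y.natDegree X.natDegree < 2 * p.d := max_lt hY hX
    omega

/-- The case of large degree, reduced to smaller degrees. -/
private lemma geq_step (hS : Adm S p.d) (hP : p.P ∉ S) (hV : Van S f (N0 p.d)) (D : LData s f)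
    (hd : 1 ≤ p.d) {N : ℕ} (hN2 : 2 * N ≤ 3 * p.d)
    (ih : ∀ A B : K[X], Sm S A → Sm S B → A ≠ 0 → B ≠ 0 → p.P ∣ A - B → A.natDegree < N →
      B.natDegree < N → G f A B = D.L (pl A) - D.L (pl B))
    {A B : K[X]} (hA : Sm S A) (hB : Sm S B) (hA0 : A ≠ 0) (hB0 : B ≠ 0) (h : p.P ∣ A - B)
    (hAB : A ≠ B) (dA : A.natDegree ≤ N) (dB : B.natDegree ≤ N)
    (hN : A.natDegree = N ∨ B.natDegree = N) (h1 : 4 * p.d < 3 * N) (hc : IsCoprime A B) :
    G f A B = D.L (pl A) - D.L (pl B) := by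
  have hPA : ¬ p.P ∣ A := hA.not_dvd hA0 p.monic p.irr hP
  have hPB : ¬ p.P ∣ B := hB.not_dvd hB0 p.monic p.irr hP
  obtain ⟨A0, A1, B0, B1, u, v, w, eA, eB, hu, hv, hw, du, dv, dw, huvw, d1, d2, d3, d4, d5, d6,
    d7, d8, dC⟩ := exists_uvw (p := p) hA0 hB0 (fun Q hQ hd => hA.bd hS.le hA0 hQ hd)
      (fun Q hQ hd => hB.bd hS.le hB0 hQ hd) dA dB hN h1 hN2 hc hPA hPB
  obtain ⟨E, hE⟩ := h
  have hs : A + p.P * (-E) = B := by
    have : A = B + p.P * E := by
      rw [← hE]
      ring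
    rw [this]
    ring
  have hE0 : -E ≠ 0 := by
    intro h0
    apply hAB
    rw [h0, mul_zero, add_zero] at hs
    exact hs
  obtain ⟨C, hC⟩ : ∃ C : K[X], C = -E := ⟨_, rfl⟩
  rw [← hC] at hs hE0
  have hCd : C.natDegree ≤ N - p.d := by
    have h2 : (p.P * C).natDegree = p.d + C.natDegree := by
      rw [natDegree_mul p.monic.ne_zero hE0]
      rfl
    have h3 : p.P * C = B - A := by
      rw [← hs]
      ring
    have h4 : (B - A).natDegree ≤ max B.natDegree A.natDegree := natDegree_sub_le B A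
    rw [← h3, h2] at h4
    have h5 : max B.natDegree A.natDegree ≤ N := max_le dB dA
    omega
  have hA00 : A0 ≠ 0 := by
    rintro rfl
    exact hA0 (by rw [eA, zero_mul])
  have hA10 : A1 ≠ 0 := by
    rintro rfl
    exact hA0 (by rw [eA, mul_zero])
  have hB00 : B0 ≠ 0 := by
    rintro rfl
    exact hB0 (by rw [eB, zero_mul])
  have hB10 : B1 ≠ 0 := by
    rintro rfl
    exact hB0 (by rw [eB, mul_zero])
  have sA0 : Sm S A0 := hA.dvd hA0 ⟨A1, eA⟩
  have sA1 : Sm S A1 := hA.dvd hA0 ⟨A0, by rw [eA, mul_comm]⟩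
  have sB0 : Sm S B0 := hB.dvd hB0 ⟨B1, eB⟩
  have sB1 : Sm S B1 := hB.dvd hB0 ⟨B0, by rw [eB, mul_comm]⟩
  have su : Sm S u := hS.sm du
  have sv : Sm S v := hS.sm dv
  have sw : Sm S w := hS.sm dw
  have sC : Sm S C := hS.sm (by omega)
  have hcop : IsCoprime B0 p.P := by
    have h2 : ¬ p.P ∣ B0 := fun hh => hPB (hh.trans ⟨B1, eB⟩)
    exact ((Irreducible.coprime_iff_not_dvd p.irr).2 h2).symm
  obtain ⟨F, F1, F2, F3⟩ := exists_F (u := u) (v := v) (w := w) p.monic.ne_zero hcop eA eB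
    (rfl : p.P * C = p.P * C) hs huvw
  have sF : Sm S F := geq_F hS F1 d6 d5
  have key := five3 f (u := u) (v := v) (w := w) hA00 hB00 p.monic.ne_zero hu hv hw hA10 hB10 hE0
    eA eB (rfl : p.P * C = p.P * C) hs huvw
  have hN0 : N ≤ N0 p.d := geq_N0 hN2 hd
  have z1 : G f (C * u) (A1 * w) = 0 :=
    hV _ _ (B0 * F) F2 (sC.mul su) (sA1.mul sw) (sB0.mul sF)
      (le_trans (dC C hCd).1.le hN0) (le_trans d7.le hN0)
  have z2 : G f (C * v) (B1 * w) = 0 :=
    hV _ _ (A0 * F) F3 (sC.mul sv) (sB1.mul sw) (sA0.mul sF)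
      (le_trans (dC C hCd).2.le hN0) (le_trans d8.le hN0)
  have i1 := ih (A0 * u) (B0 * v) (sA0.mul su) (sB0.mul sv) (mul_ne_zero hA00 hu)
    (mul_ne_zero hB00 hv) ⟨-w, by rw [← huvw]; ring⟩ d1 d2
  have i2 := ih (u * B1) (v * A1) (su.mul sB1) (sv.mul sA1) (mul_ne_zero hu hB10)
    (mul_ne_zero hv hA10) ⟨-F, by rw [← F1]; ring⟩ d3 d4
  rw [key, z1, z2, i1, i2, pl_mul hA00 hu, pl_mul hB00 hv, pl_mul hu hB10, pl_mul hv hA10, eA, eB,
    pl_mul hA00 hA10, pl_mul hB00 hB10]
  simp only [map_add]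
  abel

private lemma geq_aux (hS : Adm S p.d) (hP : p.P ∉ S) (hV : Van S f (N0 p.d)) (D : LData s f)
    (hd : 1 ≤ p.d) (N : ℕ) : 2 * N ≤ 3 * p.d → ∀ A B : K[X], Sm S A → Sm S B → A ≠ 0 → B ≠ 0 →
      p.P ∣ A - B → A.natDegree ≤ N → B.natDegree ≤ N →
      G f A B = D.L (pl A) - D.L (pl B) := by
  induction N with
  | zero =>
    intro _ A B hA hB hA0 hB0 h dA dB
    exact G_low hS hP hV D hA hB hA0 hB0 h (by omega) (by omega)
  | succ N ih =>
    intro hN2 A B hA hB hA0 hB0 h dA dB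
    have ih' : ∀ A B : K[X], Sm S A → Sm S B → A ≠ 0 → B ≠ 0 → p.P ∣ A - B →
        A.natDegree < N + 1 → B.natDegree < N + 1 → G f A B = D.L (pl A) - D.L (pl B) :=
      fun A B a b c d e g h => ih (by omega) A B a b c d e (by omega) (by omega)
    by_cases hlt : A.natDegree < N + 1 ∧ B.natDegree < N + 1
    · exact ih' A B hA hB hA0 hB0 h hlt.1 hlt.2
    by_cases hAB : A = B
    · rw [hAB, G_self, sub_self]
    by_cases h3 : 3 * (N + 1) ≤ 4 * p.d
    · exact G_low hS hP hV D hA hB hA0 hB0 h (by omega) (by omega)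
    by_cases hc : IsCoprime A B
    · exact geq_step hS hP hV D hd hN2 ih' hA hB hA0 hB0 h hAB dA dB (by omega) (by omega) hc
    · have hg : ¬ IsUnit (EuclideanDomain.gcd A B) := by
        rwa [EuclideanDomain.gcd_isUnit_iff]
      obtain ⟨g, hgd⟩ : ∃ g : K[X], g = EuclideanDomain.gcd A B := ⟨_, rfl⟩
      rw [← hgd] at hg
      obtain ⟨A', eA⟩ : g ∣ A := hgd ▸ EuclideanDomain.gcd_dvd_left A B
      obtain ⟨B', eB⟩ : g ∣ B := hgd ▸ EuclideanDomain.gcd_dvd_right A B
      have hg0 : g ≠ 0 := by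
        rintro rfl
        exact hA0 (by rw [eA, zero_mul])
      have hA'0 : A' ≠ 0 := by
        rintro rfl
        exact hA0 (by rw [eA, mul_zero])
      have hB'0 : B' ≠ 0 := by
        rintro rfl
        exact hB0 (by rw [eB, mul_zero])
      have hgdeg : 0 < g.natDegree := by
        rw [Nat.pos_iff_ne_zero]
        intro h0
        apply hg
        rw [isUnit_iff_degree_eq_zero]
        rw [degree_eq_natDegree hg0, h0]
        rfl
      have sA' : Sm S A' := hA.dvd hA0 ⟨g, by rw [eA, mul_comm]⟩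
      have sB' : Sm S B' := hB.dvd hB0 ⟨g, by rw [eB, mul_comm]⟩
      have sg : Sm S g := hA.dvd hA0 ⟨A', eA⟩
      have hPg : ¬ p.P ∣ g := sg.not_dvd hg0 p.monic p.irr hP
      have hdv : p.P ∣ A' - B' := by
        have h4 : p.P ∣ g * (A' - B') := by
          rw [mul_sub, ← eA, ← eB]
          exact h
        rcases p.irr.prime.dvd_or_dvd h4 with h5 | h5
        · exact absurd h5 hPg
        · exact h5
      have e1 : A.natDegree = g.natDegree + A'.natDegree := by
        rw [eA, natDegree_mul hg0 hA'0]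
      have e2 : B.natDegree = g.natDegree + B'.natDegree := by
        rw [eB, natDegree_mul hg0 hB'0]
      have h6 := ih' A' B' sA' sB' hA'0 hB'0 hdv (by omega) (by omega)
      rw [eA, eB, G_mul f hg0, h6, pl_mul hg0 hA'0, pl_mul hg0 hB'0]
      simp only [map_add]
      abel

theorem G_eq (hS : Adm S p.d) (hP : p.P ∉ S) (hV : Van S f (N0 p.d)) (D : LData s f)
    {A B : K[X]} (hA : Sm S A) (hB : Sm S B) (hA0 : A ≠ 0) (hB0 : B ≠ 0) (h : p.P ∣ A - B)
    (dA : 2 * A.natDegree ≤ 3 * p.d) (dB : 2 * B.natDegree ≤ 3 * p.d) :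
    G f A B = D.L (pl A) - D.L (pl B) := by
  have hd : 1 ≤ p.d := p.irr.natDegree_pos
  exact geq_aux hS hP hV D hd (max A.natDegree B.natDegree)
    (by rcases max_choice A.natDegree B.natDegree with h1 | h1 <;> rw [h1] <;> assumption)
    A B hA hB hA0 hB0 h (le_max_left _ _) (le_max_right _ _)

end SRG
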