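import Pool.Agent.SRG.Basic

set_option autoImplicit false

/-!
# SRG-17b: alternating forms as linear maps

Let `V = ℚ ⊗[ℤ] ⋀[ℤ]^2 (Additive (RatFunc K)ˣ)`, `V0` the `ℚ`-subspace spanned by the
`1 ⊗ (pl A ∧ pl B)`, `A`, `B` in `Sm S0`, `M = V ⧸ V0`, and for `x ∈ K(t)` let
`D x ∈ M` be the class of `1 ⊗ ((1 - x) ∧ x)` (`lg (1 - x)`, `lg x`).  Alternating forms
`o : AF (RatFunc K) W` vanishing on
`Sm S0` are the same as linear maps `θ : M → W`, `θ` of the class of `1 ⊗ (v ∧ v')` being
`o.O v v'`, and `o.O (lg (1 - x)) (lg x) = - o.St x` (`AF.swap`).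

Below, `M` is presented by generators and relations: it is the quotient of the free vector space on
the pairs `(a, b)` by the bilinearity relations, the `(a, a)` and the `(pl A, pl B)`.
-/

noncomputable section

open Polynomial
open scoped Classical
open Helper11.Gon

namespace SRG

universe u v w

variable {K : Type u} [Field K] {W : Type w} [AddCommGroup W] [Module ℚ W]

/-- The relations. -/
private def glueb_R (S0 : Set K[X]) :
    Set ((Additive (RatFunc K)ˣ × Additive (RatFunc K)ˣ) →₀ ℚ) :=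
  {z | (∃ a b c, z = Finsupp.single (a + b, c) 1 - Finsupp.single (a, c) 1 -
      Finsupp.single (b, c) 1) ∨
    (∃ a b c, z = Finsupp.single (a, b + c) 1 - Finsupp.single (a, b) 1 -
      Finsupp.single (a, c) 1) ∨
    (∃ a, z = Finsupp.single (a, a) 1) ∨
    ∃ A B : K[X], Sm S0 A ∧ Sm S0 B ∧ z = Finsupp.single (pl A, pl B) 1}

/-- Alternating forms vanishing on `Sm S0`, as linear maps. -/
theorem exists_univ (S0 : Set K[X]) : ∃ (M : Type u) (_ : AddCommGroup M) (_ : Module ℚ M)
    (D : RatFunc K → M),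
    ∀ (W : Type w) [AddCommGroup W] [Module ℚ W],
      (∀ θ : M →ₗ[ℚ] W, ∃ o : AF (RatFunc K) W,
        (∀ A B : K[X], Sm S0 A → Sm S0 B → o.O (pl A) (pl B) = 0) ∧
        ∀ x, θ (D x) = - o.St x) ∧
      (∀ o : AF (RatFunc K) W,
        (∀ A B : K[X], Sm S0 A → Sm S0 B → o.O (pl A) (pl B) = 0) →
        ∃ θ : M →ₗ[ℚ] W, ∀ x, θ (D x) = - o.St x) := by
  refine ⟨((Additive (RatFunc K)ˣ × Additive (RatFunc K)ˣ) →₀ ℚ) ⧸
    Submodule.span ℚ (glueb_R S0), inferInstance, inferInstance,
    fun x => (Submodule.span ℚ (glueb_R S0)).mkQ (Finsupp.single (lg (1 - x), lg x) 1), ?_⟩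
  intro W _ _
  constructor
  · intro θ
    have hz : ∀ z ∈ glueb_R S0, θ ((Submodule.span ℚ (glueb_R S0)).mkQ z) = 0 := by
      intro z hz
      have : (Submodule.span ℚ (glueb_R S0)).mkQ z = 0 := by
        rw [Submodule.mkQ_apply, Submodule.Quotient.mk_eq_zero]
        exact Submodule.subset_span hz
      rw [this, map_zero]
    have h1 : ∀ a b c, θ ((Submodule.span ℚ (glueb_R S0)).mkQ (Finsupp.single (a + b, c) 1)) =
        θ ((Submodule.span ℚ (glueb_R S0)).mkQ (Finsupp.single (a, c) 1)) +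
        θ ((Submodule.span ℚ (glueb_R S0)).mkQ (Finsupp.single (b, c) 1)) := by
      intro a b c
      have h := hz _ (Or.inl ⟨a, b, c, rfl⟩)
      rw [map_sub, map_sub, map_sub, map_sub] at h
      linear_combination (norm := module) h
    have h2 : ∀ a b c, θ ((Submodule.span ℚ (glueb_R S0)).mkQ (Finsupp.single (a, b + c) 1)) =
        θ ((Submodule.span ℚ (glueb_R S0)).mkQ (Finsupp.single (a, b) 1)) +
        θ ((Submodule.span ℚ (glueb_R S0)).mkQ (Finsupp.single (a, c) 1)) := by
      intro a b c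
      have h := hz _ (Or.inr (Or.inl ⟨a, b, c, rfl⟩))
      rw [map_sub, map_sub, map_sub, map_sub] at h
      linear_combination (norm := module) h
    have h3 : ∀ a, θ ((Submodule.span ℚ (glueb_R S0)).mkQ (Finsupp.single (a, a) 1)) = 0 :=
      fun a => hz _ (Or.inr (Or.inr (Or.inl ⟨a, rfl⟩)))
    refine ⟨⟨AddMonoidHom.mk' (fun a => AddMonoidHom.mk' (fun b =>
      θ ((Submodule.span ℚ (glueb_R S0)).mkQ (Finsupp.single (a, b) 1))) (h2 a)) ?_, ?_⟩, ?_, ?_⟩
    · intro a b
      ext c
      exact h1 a b c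
    · intro a
      exact h3 a
    · intro A B hA hB
      exact hz _ (Or.inr (Or.inr (Or.inr ⟨A, B, hA, hB, rfl⟩)))
    · intro x
      rw [AF.St, ← AF.swap]
      rfl
  · intro o ho
    have key : ∀ z ∈ glueb_R S0, Finsupp.linearCombination ℚ
        (fun p : Additive (RatFunc K)ˣ × Additive (RatFunc K)ˣ => o.O p.1 p.2) z = 0 := by
      intro z hz
      have hz' : (∃ a b c, z = Finsupp.single (a + b, c) 1 - Finsupp.single (a, c) 1 -
          Finsupp.single (b, c) 1) ∨
        (∃ a b c, z = Finsupp.single (a, b + c) 1 - Finsupp.single (a, b) 1 -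
          Finsupp.single (a, c) 1) ∨
        (∃ a, z = Finsupp.single (a, a) 1) ∨
        ∃ A B : K[X], Sm S0 A ∧ Sm S0 B ∧ z = Finsupp.single (pl A, pl B) 1 := hz
      clear hz
      rcases hz' with ⟨a, b, c, rfl⟩ | ⟨a, b, c, rfl⟩ | ⟨a, rfl⟩ | ⟨A, B, hA, hB, rfl⟩
      · simp [Finsupp.linearCombination_single]
      · simp [Finsupp.linearCombination_single]
      · simp [Finsupp.linearCombination_single, o.alt]
      · simp [Finsupp.linearCombination_single, ho A B hA hB]
    refine ⟨Submodule.liftQ _ (Finsupp.linearCombination ℚ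
      (fun p : Additive (RatFunc K)ˣ × Additive (RatFunc K)ˣ => o.O p.1 p.2)) ?_, ?_⟩
    · rw [Submodule.span_le]
      intro z hz
      exact key z hz
    · intro x
      have e : Finsupp.linearCombination ℚ
        (fun p : Additive (RatFunc K)ˣ × Additive (RatFunc K)ˣ => o.O p.1 p.2)
          (Finsupp.single (lg (1 - x), lg x) 1) = - o.St x := by
        rw [Finsupp.linearCombination_single, one_smul, AF.St, ← AF.swap]
      exact e

end SRG
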