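import Pool.Agent.SRG.GlueA
import Pool.Agent.SRG.GlueB

set_option autoImplicit false

/-!
# SRG-17c: gluing alternating forms

`exists_univ` (with `M`, `D`) turns the forms `o` in `h` into linear maps `θ i : M → W` with
`θ i (D x) = - o.St x = f.g x` for `x ∈ T i` (`(f.tw o).g x = f.g x + o.St x`); `lin_ext` with
`X = RatFunc K`, `g = f.g` gives `θ`; `exists_univ` turns it into `o`.
-/

noncomputable section

open Polynomial
open scoped Classical
open Helper11.Gon

namespace SRG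

universe u v w

variable {K : Type u} [Field K] {W : Type w} [AddCommGroup W] [Module ℚ W]

theorem glue (S0 : Set K[X]) (f : FV (RatFunc K) W) {ι : Type v} [Nonempty ι]
    (T : ι → Set (RatFunc K)) (hT : Directed (· ⊆ ·) T)
    (h : ∀ i, ∃ o : AF (RatFunc K) W,
      (∀ A B : K[X], Sm S0 A → Sm S0 B → o.O (pl A) (pl B) = 0) ∧
      ∀ x ∈ T i, (f.tw o).g x = 0) :
    ∃ o : AF (RatFunc K) W,
      (∀ A B : K[X], Sm S0 A → Sm S0 B → o.O (pl A) (pl B) = 0) ∧
      ∀ i, ∀ x ∈ T i, (f.tw o).g x = 0 := by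
  obtain ⟨M, iM, iM2, D, hD⟩ := exists_univ.{u, w} S0
  have hW := hD W
  obtain ⟨θ, hθ⟩ := lin_ext T hT D f.g (by
    intro i
    obtain ⟨o, ho, hx⟩ := h i
    obtain ⟨θ, hθ⟩ := hW.2 o ho
    refine ⟨θ, fun x hxi => ?_⟩
    have h1 : f.g x + o.St x = 0 := hx x hxi
    rw [hθ x]
    exact (eq_neg_of_add_eq_zero_left h1).symm)
  obtain ⟨o, ho, hx⟩ := hW.1 θ
  refine ⟨o, ho, fun i x hxi => ?_⟩
  have h1 := hθ i x hxi
  rw [hx x] at h1
  change f.g x + o.St x = 0
  rw [← h1, neg_add_cancel]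

end SRG
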