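import Pool.Agent.SRG.Glob
import Pool.Agent.SRG.Glue

set_option autoImplicit false

/-!
# SRG-18b: the induction over the primes, passage to the limit

`ex_le`: `glue` with the index set of finite sets `T` of monic irreducibles of degree `d`
(`T ↦ Fr (S ∪ T) (N0 d)`, `van_iff`; `A`, `B`, `C` have only finitely many monic irreducible
divisors: `Polynomial` is a factorial ring, e.g. `UniqueFactorizationMonoid.normalizedFactors`).
`ex_next`: let `S = lt K (d + 1)`: by `h` there is `o` with `Van S (f.tw o) (N0 d)`;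
`3 d / 2 ≤ N0 d`;
`raise` with `m = d`, `M = d` gives the height `d + (3 (d/2 + 1) + 1) / 2 ≥ 3 (d + 1) / 2`, then
`raise` with `m = d + 1`, `M = d` gives `N0 (d + 1)`.
`ex_all`: induction on `n ≥ d`: for `n = d` by `ex_base`, `ex_le`, `ex_next`; from `n` to `n + 1`
by `ex_le` (with `S = lt K (n + 1)`, `adm_lt`) and `ex_next`.
-/

noncomputable section

open Polynomial
open scoped Classical
open Helper11.Gon

namespace SRG

universe u v w

variable {K : Type u} [Field K] {W : Type w} [AddCommGroup W] [Module ℚ W]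

private lemma glob2_fin {A : K[X]} (hA : A ≠ 0) :
    {Q : K[X] | Q.Monic ∧ Irreducible Q ∧ Q ∣ A}.Finite := by
  apply Set.Finite.subset (Finset.finite_toSet
    (UniqueFactorizationMonoid.normalizedFactors A).toFinset)
  rintro Q ⟨h1, h2, h3⟩
  rw [Finset.mem_coe, Multiset.mem_toFinset,
    UniqueFactorizationMonoid.mem_normalizedFactors_iff' hA]
  exact ⟨h2, h1.normalize_eq_self, h3⟩

private lemma glob2_ex {d : ℕ} (A : K[X]) (hA : Sm (lt K (d + 1)) A) :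
    ∃ T : Finset K[X], (∀ Q ∈ T, Q.Monic ∧ Irreducible Q ∧ Q.natDegree = d) ∧
      ∀ S : Set K[X], Adm S d → (T : Set K[X]) ⊆ S → Sm S A := by
  rcases hA with h0 | hA
  · exact ⟨∅, fun Q hQ => absurd hQ (Finset.notMem_empty Q), fun S _ _ => Or.inl h0⟩
  by_cases h0 : A = 0
  · exact ⟨∅, fun Q hQ => absurd hQ (Finset.notMem_empty Q), fun S _ _ => Or.inl h0⟩
  refine ⟨(glob2_fin h0).toFinset.filter (fun Q => Q.natDegree = d), fun Q hQ => ?_,
    fun S hS hT => Or.inr fun Q h1 h2 h3 => ?_⟩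
  · rw [Finset.mem_filter, Set.Finite.mem_toFinset] at hQ
    exact ⟨hQ.1.1, hQ.1.2.1, hQ.2⟩
  · have h4 := (hA Q h1 h2 h3).2.2
    rcases Nat.lt_or_ge Q.natDegree d with h5 | h5
    · exact hS.small Q h1 h2 h5
    · apply hT
      rw [Finset.mem_coe, Finset.mem_filter, Set.Finite.mem_toFinset]
      exact ⟨⟨h1, h2, h3⟩, by omega⟩

private lemma glob2_adm {S : Set K[X]} {d : ℕ} (hS : Adm S d) (T : Finset K[X])
    (hT : ∀ Q ∈ T, Q.Monic ∧ Irreducible Q ∧ Q.natDegree = d) : Adm (S ∪ (T : Set K[X])) d where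
  monic := fun Q h => h.elim (hS.monic Q) fun h' => (hT Q (Finset.mem_coe.1 h')).1
  irr := fun Q h => h.elim (hS.irr Q) fun h' => (hT Q (Finset.mem_coe.1 h')).2.1
  le := fun Q h => h.elim (hS.le Q) fun h' => (hT Q (Finset.mem_coe.1 h')).2.2.le
  small := fun Q h1 h2 h3 => Or.inl (hS.small Q h1 h2 h3)

private lemma glob2_mono {S S' : Set K[X]} (h : S ⊆ S') (N : ℕ) : Fr S N ⊆ Fr S' N := by
  rintro x ⟨A, B, C, h1, h2, h3, h4, h5, h6, h7⟩
  exact ⟨A, B, C, h1, h2.mono h, h3.mono h, h4.mono h, h5, h6, h7⟩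

private lemma glob2_van {S : Set K[X]} {f : FV (RatFunc K) W} {N N' : ℕ} (h : N ≤ N')
    (hV : Van S f N') : Van S f N :=
  fun A B C h1 h2 h3 h4 h5 h6 => hV A B C h1 h2 h3 h4 (h5.trans h) (h6.trans h)

/-- All primes of degree `d` are added. -/
theorem ex_le {S0 S : Set K[X]} (h0 : S0 ⊆ S) {d : ℕ} (hS : Adm S d)
    (f : FV (RatFunc K) W) (h : EX S0 S f (N0 d)) : EX S0 (lt K (d + 1)) f (N0 d) := by
  haveI : Nonempty {T : Finset K[X] // ∀ Q ∈ T, Q.Monic ∧ Irreducible Q ∧ Q.natDegree = d} :=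
    ⟨⟨∅, fun Q hQ => absurd hQ (Finset.notMem_empty Q)⟩⟩
  have hdir : Directed (· ⊆ ·) (fun T : {T : Finset K[X] //
      ∀ Q ∈ T, Q.Monic ∧ Irreducible Q ∧ Q.natDegree = d} =>
      Fr (S ∪ (T.1 : Set K[X])) (N0 d)) := by
    intro T T'
    refine ⟨⟨T.1 ∪ T'.1, fun Q hQ => ?_⟩, ?_, ?_⟩
    · rcases Finset.mem_union.1 hQ with hQ | hQ
      · exact T.2 Q hQ
      · exact T'.2 Q hQ
    · refine glob2_mono (Set.union_subset_union_right S ?_) _
      exact Finset.coe_subset.2 Finset.subset_union_left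
    · refine glob2_mono (Set.union_subset_union_right S ?_) _
      exact Finset.coe_subset.2 Finset.subset_union_right
  have hfin : ∀ T : {T : Finset K[X] //
      ∀ Q ∈ T, Q.Monic ∧ Irreducible Q ∧ Q.natDegree = d},
      ∃ o : AF (RatFunc K) W,
        (∀ A B : K[X], Sm S0 A → Sm S0 B → o.O (pl A) (pl B) = 0) ∧
        ∀ x ∈ Fr (S ∪ (T.1 : Set K[X])) (N0 d), (f.tw o).g x = 0 := by
    rintro ⟨T, hT⟩
    obtain ⟨o, ho, hV⟩ := ex_fin h0 hS f h T hT
    exact ⟨o, ho, (van_iff _ _ _).1 hV⟩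
  obtain ⟨o, ho, hv⟩ := glue S0 f _ hdir hfin
  refine ⟨o, ho, fun A B C h1 h2 h3 h4 h5 h6 => ?_⟩
  obtain ⟨TA, hTA, hA⟩ := glob2_ex A h2
  obtain ⟨TB, hTB, hB⟩ := glob2_ex B h3
  obtain ⟨TC, hTC, hC⟩ := glob2_ex C h4
  have hT : ∀ Q ∈ TA ∪ TB ∪ TC, Q.Monic ∧ Irreducible Q ∧ Q.natDegree = d := by
    intro Q hQ
    rw [Finset.mem_union, Finset.mem_union] at hQ
    rcases hQ with (hQ | hQ) | hQ
    · exact hTA Q hQ
    · exact hTB Q hQ
    · exact hTC Q hQ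
  have hS' := glob2_adm hS _ hT
  have eA : (TA : Set K[X]) ⊆ S ∪ ((TA ∪ TB ∪ TC : Finset K[X]) : Set K[X]) := by
    intro Q hQ
    exact Or.inr (Finset.mem_coe.2 (Finset.mem_union_left _ (Finset.mem_union_left _
      (Finset.mem_coe.1 hQ))))
  have eB : (TB : Set K[X]) ⊆ S ∪ ((TA ∪ TB ∪ TC : Finset K[X]) : Set K[X]) := by
    intro Q hQ
    exact Or.inr (Finset.mem_coe.2 (Finset.mem_union_left _ (Finset.mem_union_right _
      (Finset.mem_coe.1 hQ))))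
  have eC : (TC : Set K[X]) ⊆ S ∪ ((TA ∪ TB ∪ TC : Finset K[X]) : Set K[X]) := by
    intro Q hQ
    exact Or.inr (Finset.mem_coe.2 (Finset.mem_union_right _ (Finset.mem_coe.1 hQ)))
  exact hv ⟨TA ∪ TB ∪ TC, hT⟩ _ ⟨A, B, C, h1, hA _ hS' eA, hB _ hS' eB, hC _ hS' eC, h5, h6,
    rfl⟩

theorem ex_next {S0 : Set K[X]} {d : ℕ} (hd : 1 ≤ d) (f : FV (RatFunc K) W)
    (h : EX S0 (lt K (d + 1)) f (N0 d)) : EX S0 (lt K (d + 1)) f (N0 (d + 1)) := by
  obtain ⟨o, ho, hV⟩ := h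
  refine ⟨o, ho, ?_⟩
  have h1 : Van (lt K (d + 1)) (f.tw o) (3 * d / 2) :=
    glob2_van (by unfold N0; omega) hV
  have hS2 : ∀ A : K[X], A.natDegree ≤ d → Sm (lt K (d + 1)) A := fun A hA =>
    (adm_lt (d + 1)).sm (Nat.lt_succ_iff.2 hA)
  have h2 := raise hd (Nat.le_succ d) (adm_lt' d).le hS2 (f.tw o) h1
  have h3 : Van (lt K (d + 1)) (f.tw o) (3 * (d + 1) / 2) := glob2_van (by omega) h2
  have h4 := raise (M := d) (Nat.succ_le_succ (Nat.zero_le d)) le_rfl (adm_lt (d + 1)).le hS2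
    (f.tw o) h3
  exact glob2_van (by unfold N0; omega) h4

theorem ex_all {S0 : Set K[X]} {d : ℕ} (hd : 1 ≤ d) (hS : Adm S0 d) (f : FV (RatFunc K) W)
    (hV : Van S0 f (3 * d / 2)) (n : ℕ) (hn : d ≤ n) :
    EX S0 (lt K (n + 1)) f (N0 (n + 1)) := by
  induction n, hn using Nat.le_induction with
  | base => exact ex_next hd f (ex_le (Set.Subset.refl S0) hS f (ex_base hd hS f hV))
  | succ n hn ih =>
    have h0 : S0 ⊆ lt K (n + 1) := fun Q hQ =>
      ⟨hS.monic Q hQ, hS.irr Q hQ, Nat.lt_succ_iff.2 ((hS.le Q hQ).trans hn)⟩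
    exact ex_next (by omega) f (ex_le h0 (adm_lt (n + 1)) f ih)

end SRG
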