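import Mathlib

set_option autoImplicit false

/-!
# SRG-17a: linear maps on a directed union

Let `T∞` be the union of the `T i`.  The linear maps `D' : (T∞ →₀ ℚ) → M` and
`g' : (T∞ →₀ ℚ) → W` satisfy `ker D' ≤ ker g'`: a finitely supported function on `T∞` has support in
one `T i` (directedness), where `θ i` exists.  So `g'` induces a linear map on the range of `D'`,
and this extends to `M` (`LinearMap.exists_extend`).
-/

noncomputable section

open scoped Classical

namespace SRG

universe u v w x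

/-- A linear map vanishing on the kernel of another one factors through it. -/
private theorem gluea_factor {L : Type u} {M : Type x} {W : Type w} [AddCommGroup L] [Module ℚ L]
    [AddCommGroup M] [Module ℚ M] [AddCommGroup W] [Module ℚ W] (lD : L →ₗ[ℚ] M) (lg : L →ₗ[ℚ] W)
    (h : LinearMap.ker lD ≤ LinearMap.ker lg) : ∃ θ : M →ₗ[ℚ] W, ∀ z, θ (lD z) = lg z := by
  obtain ⟨θ, hθ⟩ := LinearMap.exists_extend
    (((LinearMap.ker lD).liftQ lg h).comp lD.quotKerEquivRange.symm.toLinearMap)
  refine ⟨θ, fun z => ?_⟩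
  have h1 := LinearMap.congr_fun hθ ⟨lD z, LinearMap.mem_range_self lD z⟩
  have h2 : lD.quotKerEquivRange.symm ⟨lD z, LinearMap.mem_range_self lD z⟩ =
      (LinearMap.ker lD).mkQ z := LinearMap.quotKerEquivRange_symm_apply_image lD z _
  simp only [LinearMap.comp_apply, Submodule.subtype_apply, LinearEquiv.coe_coe] at h1
  rw [h1, h2, Submodule.mkQ_apply, Submodule.liftQ_apply]

/-- Linear maps on a directed union. -/
theorem lin_ext {X : Type u} {ι : Type v} [Nonempty ι] (T : ι → Set X)
    (hT : Directed (· ⊆ ·) T) {M : Type x} [AddCommGroup M] [Module ℚ M] {W : Type w}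
    [AddCommGroup W] [Module ℚ W] (D : X → M) (g : X → W)
    (h : ∀ i, ∃ θ : M →ₗ[ℚ] W, ∀ x ∈ T i, θ (D x) = g x) :
    ∃ θ : M →ₗ[ℚ] W, ∀ i, ∀ x ∈ T i, θ (D x) = g x := by
  have key : ∀ z ∈ Finsupp.supported ℚ ℚ (⋃ i, T i), ∃ θ : M →ₗ[ℚ] W,
      θ (Finsupp.linearCombination ℚ D z) = Finsupp.linearCombination ℚ g z := by
    intro z hz
    obtain ⟨i, hi⟩ := Directed.exists_mem_subset_of_finset_subset_biUnion hT
      ((Finsupp.mem_supported ℚ z).1 hz)
    obtain ⟨θ, hθ⟩ := h i
    refine ⟨θ, ?_⟩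
    rw [Finsupp.linearCombination_apply, Finsupp.linearCombination_apply, Finsupp.sum,
      Finsupp.sum, map_sum]
    refine Finset.sum_congr rfl fun x hx => ?_
    rw [map_smul, hθ x (hi hx)]
  obtain ⟨θ, hθ⟩ := gluea_factor
    ((Finsupp.linearCombination ℚ D).domRestrict (Finsupp.supported ℚ ℚ (⋃ i, T i)))
    ((Finsupp.linearCombination ℚ g).domRestrict (Finsupp.supported ℚ ℚ (⋃ i, T i)))
    (by
      intro z hz
      rw [LinearMap.mem_ker, LinearMap.domRestrict_apply] at hz ⊢
      obtain ⟨θ, hθ⟩ := key z.1 z.2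
      rw [← hθ, hz, map_zero])
  refine ⟨θ, fun i x hx => ?_⟩
  have hm : Finsupp.single x (1 : ℚ) ∈ Finsupp.supported ℚ ℚ (⋃ i, T i) :=
    Finsupp.single_mem_supported ℚ 1 (Set.mem_iUnion_of_mem i hx)
  have h1 := hθ ⟨Finsupp.single x 1, hm⟩
  rw [LinearMap.domRestrict_apply, LinearMap.domRestrict_apply,
    Finsupp.linearCombination_single, Finsupp.linearCombination_single, one_smul, one_smul] at h1
  exact h1

end SRG
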