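import Pool.Agent.SRG.A1

set_option autoImplicit false

/-!
# SRG-9a: the first triangle for `Y / s(Y)`

`e1 = d / 2`, `e2 = (d - 1) / 2`, `e1 + e2 + 1 = d`; everything of degree `< d` is smooth
(`Adm.sm`).  For smooth nonzero `Y`, `p.r Y ≠ 0` (`Sm.not_dvd`, `p.ker`).
Let `s(Y) = a1/b1`, `s(Y Z) = a/b`.  `tri` with `U = Y Z b1 b`,
`V = a1 Z b`, `T = a b1`: `U/V = Y/s(Y)`, `U/T = Y Z/s(Y Z)` (`G_mul`).  `U - V = P D1`,
`D1 = Z b D1'`,
`P D1' = Y b1 - a1`, `deg D1' ≤ deg Y + e2 - d ≤ e2` (or `D1' = 0`);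
`P D2 = a1 Z b - a b1`, `deg D2 ≤ deg Z - 1` (or `D2 = 0`); `D1 + D2 = b1 D3'`,
`P D3' = Y Z b - a`, `deg D3' ≤ deg (Y Z) + e2 - d ≤ d - 1`.  All are smooth, and the two terms
on the right of `tri` are `G f (Z b D1') (b1 D3')`, complement `D2`, and (after cancellation)
`G f (D1' a) (D3' a1)`, complement `D2 Y`; heights `≤ deg (Y Z) - 1 ≤ N0 d`: both are `0` by `hV`.
-/

noncomputable section

open Polynomial
open scoped Classical
open Helper11.Gon

namespace SRG

universe u v w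

variable {K : Type u} [Field K] {W : Type w} [AddCommGroup W] [Module ℚ W]
  {k : Type v} [Field k] {p : Pl K k} {s : Sec p} {f : FV (RatFunc K) W} {S : Set K[X]}

private lemma k1_deg (p : Pl K k) {A B D : K[X]} {m : ℕ} (h : A - B = p.P * D)
    (hA : A.natDegree ≤ m) (hB : B.natDegree < p.d) : D = 0 ∨ D.natDegree + p.d ≤ m := by
  by_cases hD : D = 0
  · exact Or.inl hD
  · right
    have h1 : (p.P * D).natDegree = p.P.natDegree + D.natDegree :=
      natDegree_mul p.irr.ne_zero hD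
    have h2 : (A - B).natDegree ≤ max A.natDegree B.natDegree := natDegree_sub_le A B
    have h3 : p.d = p.P.natDegree := rfl
    rw [h, h1] at h2
    rcases le_max_iff.mp h2 with h4 | h4 <;> omega

private lemma k1_sm {d : ℕ} (hS : Adm S d) {D : K[X]} {m : ℕ} (h : D = 0 ∨ D.natDegree + d ≤ m)
    (hm : m < d + d) : Sm S D := by
  rcases h with h | h
  · rw [h]; exact sm_zero S
  · exact hS.sm (by omega)

theorem kk_tri1 (hS : Adm S p.d) (hP : p.P ∉ S) (hV : Van S f (N0 p.d)) {Y Z : K[X]}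
    (hY : Sm S Y) (hZ : Sm S Z) (hY0 : Y ≠ 0) (hZ0 : Z ≠ 0) (dY : Y.natDegree ≤ p.d)
    (dZ : Z.natDegree ≤ p.d) (dYZ : 2 * (Y * Z).natDegree ≤ 3 * p.d) :
    s.kk f Y + G f (s.a (p.r Y) * Z * s.b (p.r (Y * Z))) (s.b (p.r Y) * s.a (p.r (Y * Z))) =
      s.kk f (Y * Z) := by
  have hd := Pl.d_pos p
  have ry : p.r Y ≠ 0 := fun h => hY.not_dvd hY0 p.monic p.irr hP ((p.ker Y).mp h)
  have rz : p.r Z ≠ 0 := fun h => hZ.not_dvd hZ0 p.monic p.irr hP ((p.ker Z).mp h)
  have ryz : p.r (Y * Z) ≠ 0 := by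
    rw [map_mul]; exact mul_ne_zero ry rz
  have ea1 := s.eq (p.r Y) ry
  have ea := s.eq (p.r (Y * Z)) ryz
  have a10 := s.a_ne (p.r Y) ry
  have b10 := s.b_ne (p.r Y) ry
  have a0 := s.a_ne (p.r (Y * Z)) ryz
  have b0 := s.b_ne (p.r (Y * Z)) ryz
  have da1 := s.a_deg (p.r Y)
  have db1 := s.b_deg (p.r Y)
  have da := s.a_deg (p.r (Y * Z))
  have db := s.b_deg (p.r (Y * Z))
  have dyz : (Y * Z).natDegree = Y.natDegree + Z.natDegree := natDegree_mul hY0 hZ0
  unfold Sec.kk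
  generalize s.a (p.r Y) = a1 at *
  generalize s.b (p.r Y) = b1 at *
  generalize s.a (p.r (Y * Z)) = a at *
  generalize s.b (p.r (Y * Z)) = b at *
  -- the three quotients
  obtain ⟨D1, hD1⟩ : p.P ∣ Y * b1 - a1 := by
    rw [← p.ker, map_sub, map_mul, ea1, sub_self]
  obtain ⟨D2, hD2⟩ : p.P ∣ a1 * Z * b - a * b1 := by
    rw [← p.ker, map_sub, map_mul, map_mul, map_mul, ea1, ea, map_mul]
    ring
  obtain ⟨D3, hD3⟩ : p.P ∣ Y * Z * b - a := by
    rw [← p.ker, map_sub, map_mul, ea, sub_self]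
  have hP0 : p.P ≠ 0 := p.irr.ne_zero
  -- degrees
  have m1 : (Y * b1).natDegree ≤ Y.natDegree + (p.d - 1) / 2 :=
    natDegree_mul_le.trans (by omega)
  have m2 : (a1 * Z * b).natDegree ≤ p.d / 2 + Z.natDegree + (p.d - 1) / 2 := by
    refine natDegree_mul_le.trans ?_
    have := natDegree_mul_le (p := a1) (q := Z)
    omega
  have m2' : (a * b1).natDegree < p.d := by
    have := natDegree_mul_le (p := a) (q := b1)
    omega
  have m3 : (Y * Z * b).natDegree ≤ Y.natDegree + Z.natDegree + (p.d - 1) / 2 := by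
    refine natDegree_mul_le.trans ?_
    omega
  have q1 := k1_deg p hD1 m1 (by omega)
  have q2 := k1_deg p hD2 m2 m2'
  have q3 := k1_deg p hD3 m3 (by omega)
  have s1 : Sm S D1 := k1_sm hS q1 (by omega)
  have s2 : Sm S D2 := k1_sm hS q2 (by omega)
  have s3 : Sm S D3 := k1_sm hS q3 (by omega)
  have sa : Sm S a := hS.sm (by omega)
  have sb : Sm S b := hS.sm (by omega)
  have sa1 : Sm S a1 := hS.sm (by omega)
  have sb1 : Sm S b1 := hS.sm (by omega)
  have hN : p.d + p.d / 2 - 1 ≤ N0 p.d := by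
    unfold N0; omega
  -- the relation between the quotients
  have r1 : Z * b * D1 + D2 = b1 * D3 := by
    apply mul_left_cancel₀ hP0
    linear_combination b1 * hD3 - Z * b * hD1 - hD2
  have r2 : D1 * a + D2 * Y = D3 * a1 := by
    apply mul_left_cancel₀ hP0
    linear_combination a1 * hD3 - a * hD1 - Y * hD2
  -- the first term on the right of `tri`
  have t1 : G f (Z * b * D1) (Z * b * D1 + D2) = 0 := by
    refine hV _ _ D2 rfl ((hZ.mul sb).mul s1) ?_ s2 ?_ ?_
    · rw [r1]; exact sb1.mul s3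
    · rcases q1 with q | q
      · rw [q, mul_zero]; simp
      · have h1 := natDegree_mul_le (p := Z * b) (q := D1)
        have h2 := natDegree_mul_le (p := Z) (q := b)
        omega
    · rw [r1]
      rcases q3 with q | q
      · rw [q, mul_zero]; simp
      · have h1 := natDegree_mul_le (p := b1) (q := D3)
        omega
  have t2 : G f (D1 * a) (D3 * a1) = 0 := by
    refine hV _ _ (D2 * Y) r2 (s1.mul sa) (s3.mul sa1) (s2.mul hY) ?_ ?_
    · rcases q1 with q | q
      · rw [q, zero_mul]; simp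
      · have h1 := natDegree_mul_le (p := D1) (q := a)
        omega
    · rcases q3 with q | q
      · rw [q, zero_mul]; simp
      · have h1 := natDegree_mul_le (p := D3) (q := a1)
        omega
  have ht := tri f (U := Y * Z * b1 * b) (V := a1 * Z * b) (T := a * b1) (P := p.P)
    (D1 := Z * b * D1) (D2 := D2)
    (mul_ne_zero (mul_ne_zero (mul_ne_zero hY0 hZ0) b10) b0)
    (mul_ne_zero (mul_ne_zero a10 hZ0) b0) (mul_ne_zero a0 b10) hP0
    (by linear_combination Z * b * hD1) (by linear_combination hD2)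
  have hc : Z * b * b1 ≠ 0 := mul_ne_zero (mul_ne_zero hZ0 b0) b10
  have t3 : G f (Z * b * D1 * (a * b1)) ((Z * b * D1 + D2) * (a1 * Z * b)) = 0 := by
    rw [r1, show Z * b * D1 * (a * b1) = Z * b * b1 * (D1 * a) by ring,
      show b1 * D3 * (a1 * Z * b) = Z * b * b1 * (D3 * a1) by ring, G_mul f hc, t2]
  rw [t1, t3, sub_zero] at ht
  rw [show Y * Z * b1 * b = Z * b * (Y * b1) by ring, show a1 * Z * b = Z * b * a1 by ring,
    G_mul f (mul_ne_zero hZ0 b0)] at ht
  rw [show Z * b * (Y * b1) = b1 * (Y * Z * b) by ring, show a * b1 = b1 * a by ring,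
    G_mul f b10] at ht
  rw [show a1 * Z * b = Z * b * a1 by ring]
  exact sub_eq_zero.mp ht

end SRG
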