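import Pool.Agent.SRG.A1

set_option autoImplicit false

/-!
# SRG-9b: the second triangle for `Y / s(Y)`

The five-term relation `tri` for the three polynomials `a1 Z b2 b`, `a1 a2 b`, `a b1 b2`, where
`s(Y) = a1/b1`, `s(Z) = a2/b2`, `s(Y Z) = a/b`; both terms on the right vanish by `Van`.
-/

noncomputable section

open Polynomial
open scoped Classical
open Helper11.Gon

namespace SRG

universe u v w

variable {K : Type u} [Field K] {W : Type w} [AddCommGroup W] [Module ℚ W]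
  {k : Type v} [Field k] {p : Pl K k} {s : Sec p} {f : FV (RatFunc K) W} {S : Set K[X]}

private theorem k2_deg {P D A : K[X]} {m e : ℕ} (hP : P ≠ 0) (h : A = P * D)
    (hA : A.natDegree ≤ m) (hm : m ≤ P.natDegree + e) : D.natDegree ≤ e := by
  by_cases hD : D = 0
  · rw [hD, natDegree_zero]
    exact Nat.zero_le _
  · have h1 : A.natDegree = P.natDegree + D.natDegree := by
      rw [h, natDegree_mul hP hD]
    omega

private theorem k2_mul {A B : K[X]} {m n : ℕ} (hA : A.natDegree ≤ m) (hB : B.natDegree ≤ n) :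
    (A * B).natDegree ≤ m + n :=
  natDegree_mul_le_of_le hA hB

private theorem k2_sub {A B : K[X]} {m : ℕ} (hA : A.natDegree ≤ m) (hB : B.natDegree ≤ m) :
    (A - B).natDegree ≤ m :=
  (natDegree_sub_le _ _).trans (max_le hA hB)

theorem kk_tri2 (hS : Adm S p.d) (hP : p.P ∉ S) (hV : Van S f (N0 p.d)) {Y Z : K[X]}
    (hY : Sm S Y) (hZ : Sm S Z) (hY0 : Y ≠ 0) (hZ0 : Z ≠ 0) (dY : Y.natDegree ≤ p.d)
    (dZ : Z.natDegree ≤ p.d) :
    s.kk f Z + s.c f (p.r Y) (p.r Z) =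
      G f (s.a (p.r Y) * Z * s.b (p.r (Y * Z))) (s.b (p.r Y) * s.a (p.r (Y * Z))) := by
  have hP0 : p.P ≠ 0 := p.irr.ne_zero
  have hd1 : 1 ≤ p.d := p.d_pos
  have hy : p.r Y ≠ 0 := fun h => hY.not_dvd hY0 p.monic p.irr hP ((p.ker Y).1 h)
  have hz : p.r Z ≠ 0 := fun h => hZ.not_dvd hZ0 p.monic p.irr hP ((p.ker Z).1 h)
  have hyz : p.r Y * p.r Z ≠ 0 := mul_ne_zero hy hz
  rw [map_mul]
  unfold Sec.kk Sec.c
  have ea1 := s.eq _ hy
  have ea2 := s.eq _ hz
  have ea := s.eq _ hyz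
  have na1 := s.a_ne _ hy
  have nb1 := s.b_ne _ hy
  have na2 := s.a_ne _ hz
  have nb2 := s.b_ne _ hz
  have na := s.a_ne _ hyz
  have nb := s.b_ne _ hyz
  have da1 := s.a_deg (p.r Y)
  have db1 := s.b_deg (p.r Y)
  have da2 := s.a_deg (p.r Z)
  have db2 := s.b_deg (p.r Z)
  have da := s.a_deg (p.r Y * p.r Z)
  have db := s.b_deg (p.r Y * p.r Z)
  generalize s.a (p.r Y) = a1 at *
  generalize s.b (p.r Y) = b1 at *
  generalize s.a (p.r Z) = a2 at *
  generalize s.b (p.r Z) = b2 at *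
  generalize s.a (p.r Y * p.r Z) = a at *
  generalize s.b (p.r Y * p.r Z) = b at *
  -- the quotients by `P`
  obtain ⟨D1', e1⟩ : p.P ∣ Z * b2 - a2 := by
    rw [← p.ker, map_sub, map_mul, ea2, sub_self]
  obtain ⟨D2, e2⟩ : p.P ∣ a1 * a2 * b - a * b1 * b2 := by
    rw [← p.ker]
    simp only [map_sub, map_mul]
    rw [ea1, ea2, ea]
    ring
  obtain ⟨D3', e3⟩ : p.P ∣ a1 * Z * b - a * b1 := by
    rw [← p.ker]
    simp only [map_sub, map_mul]
    rw [ea1, ea]
    ring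
  have hD : a1 * b * D1' + D2 = b2 * D3' := by
    refine mul_left_cancel₀ hP0 ?_
    have h1 : p.P * (a1 * b * D1' + D2) = a1 * b * (p.P * D1') + p.P * D2 := by ring
    have h2 : p.P * (b2 * D3') = b2 * (p.P * D3') := by ring
    rw [h1, h2, ← e1, ← e2, ← e3]
    ring
  -- degrees
  have hdP : p.P.natDegree = p.d := rfl
  have dD1 : D1'.natDegree ≤ (p.d - 1) / 2 := by
    refine k2_deg (m := p.d + (p.d - 1) / 2) hP0 e1 (k2_sub (k2_mul dZ db2) ?_) (by rw [hdP])
    exact da2.trans (by omega)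
  have dD3 : D3'.natDegree ≤ p.d - 1 := by
    refine k2_deg (m := p.d + (p.d - 1)) hP0 e3 (k2_sub ?_ ?_) (by rw [hdP])
    · exact (k2_mul (k2_mul da1 dZ) db).trans (by omega)
    · exact (k2_mul da db1).trans (by omega)
  have dD2 : D2.natDegree ≤ p.d - 1 := by
    refine k2_deg (m := p.d + (p.d - 1)) hP0 e2 (k2_sub ?_ ?_) (by rw [hdP])
    · exact (k2_mul (k2_mul da1 da2) db).trans (by omega)
    · exact (k2_mul (k2_mul da db1) db2).trans (by omega)
  have sa1 : Sm S a1 := hS.sm (by omega)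
  have sb1 : Sm S b1 := hS.sm (by omega)
  have sa2 : Sm S a2 := hS.sm (by omega)
  have sb2 : Sm S b2 := hS.sm (by omega)
  have sa : Sm S a := hS.sm (by omega)
  have sb : Sm S b := hS.sm (by omega)
  have sD1 : Sm S D1' := hS.sm (by omega)
  have sD2 : Sm S D2 := hS.sm (by omega)
  have sD3 : Sm S D3' := hS.sm (by omega)
  have hN : N0 p.d = p.d - 1 + (3 * (p.d / 2 + 1) + 1) / 2 := rfl
  -- the two terms on the right
  have z1 : G f (a1 * b * D1') (a1 * b * D1' + D2) = 0 := by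
    refine hV _ _ D2 rfl ((sa1.mul sb).mul sD1) ?_ sD2 ?_ ?_
    · rw [hD]
      exact sb2.mul sD3
    · exact (k2_mul (k2_mul da1 db) dD1).trans (by omega)
    · rw [hD]
      exact (k2_mul db2 dD3).trans (by omega)
  have z2 : G f (D1' * a * b1) (D3' * a2) = 0 := by
    refine hV _ _ (D2 * Z) ?_ ((sD1.mul sa).mul sb1) (sD3.mul sa2) (sD2.mul hZ) ?_ ?_
    · refine mul_left_cancel₀ (mul_ne_zero (mul_ne_zero na1 nb) nb2) ?_
      have h1 : a1 * b * b2 * (D3' * a2) = b2 * D3' * (a1 * a2 * b) := by ring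
      rw [h1, ← hD]
      linear_combination (D2 * (a1 * b)) * e1 - (a1 * b * D1') * e2
    · exact (k2_mul (k2_mul dD1 da) db1).trans (by omega)
    · exact (k2_mul dD3 da2).trans (by omega)
  have key := tri f (U := a1 * b * (Z * b2)) (V := a1 * b * a2) (T := b2 * (b1 * a)) (P := p.P)
    (D1 := a1 * b * D1') (D2 := D2) (mul_ne_zero (mul_ne_zero na1 nb) (mul_ne_zero hZ0 nb2))
    (mul_ne_zero (mul_ne_zero na1 nb) na2) (mul_ne_zero nb2 (mul_ne_zero nb1 na)) hP0
    (by linear_combination (a1 * b) * e1) (by linear_combination e2)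
  rw [z1, G_mul f (mul_ne_zero na1 nb)] at key
  have h3 : G f (a1 * b * D1' * (b2 * (b1 * a))) ((a1 * b * D1' + D2) * (a1 * b * a2)) = 0 := by
    have h4 : a1 * b * D1' * (b2 * (b1 * a)) = a1 * b * b2 * (D1' * a * b1) := by ring
    have h5 : (a1 * b * D1' + D2) * (a1 * b * a2) = a1 * b * b2 * (D3' * a2) := by
      rw [hD]
      ring
    rw [h4, h5, G_mul f (mul_ne_zero (mul_ne_zero na1 nb) nb2), z2]
  have h6 : G f (a1 * b * (Z * b2)) (b2 * (b1 * a)) = G f (a1 * Z * b) (b1 * a) := by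
    have h7 : a1 * b * (Z * b2) = b2 * (a1 * Z * b) := by ring
    rw [h7, G_mul f nb2]
  have h8 : a1 * b * a2 = a1 * a2 * b := by ring
  have h9 : b2 * (b1 * a) = b1 * b2 * a := by ring
  rw [h3, h6, sub_zero, sub_eq_zero, h8, h9] at key
  exact key

end SRG
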