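import Pool.Agent.SRG.A1b
import Pool.Agent.SRG.K1
import Pool.Agent.SRG.K2
import Pool.Agent.SRG.Div

set_option autoImplicit false

/-!
# SRG-10: `f(Y / s(Y)) = L(Y / s(Y))` for smooth `Y` of degree at most `3 d / 2`

First `deg Y ≤ d` by induction on the factorisation (`sm_ind` with
`M Y := Y.natDegree ≤ p.d → s.kk f Y = D.L (pl Y) - D.h (p.r Y)`), then `exists_div2`.
Here `p.r Y ≠ 0` for smooth nonzero `Y` (`Sm.not_dvd`, `p.ker`), `D.hc` expresses `s.c`, and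
`D.hQ` applies to `Q ∈ S` as `Q ≠ P`.  Constants `c`: `kk (C c) = 0`, because
`s(c) = c / 1` (`Sec.low`), and `D.hC`.
-/

noncomputable section

open Polynomial
open scoped Classical
open Helper11.Gon

namespace SRG

universe u v w

variable {K : Type u} [Field K] {W : Type w} [AddCommGroup W] [Module ℚ W]
  {k : Type v} [Field k] {p : Pl K k} {s : Sec p} {f : FV (RatFunc K) W} {S : Set K[X]}

theorem kk_mul (hS : Adm S p.d) (hP : p.P ∉ S) (hV : Van S f (N0 p.d)) {Y Z : K[X]}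
    (hY : Sm S Y) (hZ : Sm S Z) (hY0 : Y ≠ 0) (hZ0 : Z ≠ 0) (dY : Y.natDegree ≤ p.d)
    (dZ : Z.natDegree ≤ p.d) (dYZ : 2 * (Y * Z).natDegree ≤ 3 * p.d) :
    s.kk f (Y * Z) = s.kk f Y + s.kk f Z + s.c f (p.r Y) (p.r Z) := by
  rw [← kk_tri1 hS hP hV hY hZ hY0 hZ0 dY dZ dYZ, ← kk_tri2 hS hP hV hY hZ hY0 hZ0 dY dZ]
  abel

theorem kk_eq (hS : Adm S p.d) (hP : p.P ∉ S) (hV : Van S f (N0 p.d)) (D : LData s f)
    {Y : K[X]} (hY : Sm S Y) (hY0 : Y ≠ 0) (dY : 2 * Y.natDegree ≤ 3 * p.d) :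
    s.kk f Y = D.L (pl Y) - D.h (p.r Y) := by
  have hr : ∀ A : K[X], Sm S A → A ≠ 0 → p.r A ≠ 0 := fun A hA hA0 h =>
    hA.not_dvd hA0 p.monic p.irr hP ((p.ker A).1 h)
  have hmul : ∀ A B : K[X], Sm S A → Sm S B → A ≠ 0 → B ≠ 0 → A.natDegree ≤ p.d →
      B.natDegree ≤ p.d → 2 * (A * B).natDegree ≤ 3 * p.d →
      s.kk f A = D.L (pl A) - D.h (p.r A) → s.kk f B = D.L (pl B) - D.h (p.r B) →
      s.kk f (A * B) = D.L (pl (A * B)) - D.h (p.r (A * B)) := by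
    intro A B hA hB hA0 hB0 dA dB dAB eA eB
    rw [kk_mul hS hP hV hA hB hA0 hB0 dA dB dAB, eA, eB, pl_mul hA0 hB0, map_add, map_mul,
      D.hc _ _ (hr A hA hA0) (hr B hB hB0)]
    abel
  have hlow : ∀ A : K[X], A ≠ 0 → Sm S A → A.natDegree ≤ p.d →
      s.kk f A = D.L (pl A) - D.h (p.r A) := by
    intro A hA0 hA
    refine sm_ind (S := S)
      (M := fun A => A.natDegree ≤ p.d → s.kk f A = D.L (pl A) - D.h (p.r A)) ?_ ?_ ?_ A hA0 hA
    · intro c hc _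
      rw [D.hC c hc, sub_self]
      unfold Sec.kk
      rw [s.low (C_ne_zero.2 hc) (by rw [natDegree_C]; exact Nat.zero_le _), G_self]
    · intro Q hQ hm hi _
      have hne : Q ≠ p.P := by
        rintro rfl
        exact hP hQ
      rw [D.hQ Q hm hi hne]
      abel
    · intro A B hA0 hB0 hA hB ihA ihB hdAB
      have hdm := natDegree_mul hA0 hB0
      exact hmul A B hA hB hA0 hB0 (by omega) (by omega) (by omega) (ihA (by omega))
        (ihB (by omega))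
  obtain ⟨Y1, Y2, h1, h2, h3⟩ := exists_div2 hY0
    (fun Q hQ hd => hY.bd (fun Q hQ => hS.le Q hQ) hY0 hQ hd) dY
  have h10 : Y1 ≠ 0 := by
    rintro rfl
    exact hY0 (by rw [h1, zero_mul])
  have h20 : Y2 ≠ 0 := by
    rintro rfl
    exact hY0 (by rw [h1, mul_zero])
  have s1 : Sm S Y1 := hY.dvd hY0 ⟨Y2, h1⟩
  have s2 : Sm S Y2 := hY.dvd hY0 ⟨Y1, by rw [h1, mul_comm]⟩
  have d2 : Y2.natDegree ≤ p.d := by omega
  rw [h1] at dY ⊢
  exact hmul Y1 Y2 s1 s2 h10 h20 h2 d2 dY (hlow Y1 h10 s1 h2) (hlow Y2 h20 s2 d2)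

end SRG
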