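import Pool.Agent.SRG.A1

set_option autoImplicit false

/-!
# SRG-11a: the first triangle for `A / R`

`e1 = d / 2`, `e2 = (d - 1) / 2`, `e1 + e2 + 1 = d`; everything of degree `< d` is smooth
(`Adm.sm`).  For smooth nonzero `Y`, `p.r Y ≠ 0` (`Sm.not_dvd`, `p.ker`).
Let `s(Y) = a1/b1`, `s(Z) = a2/b2`, `s(Y Z) = a/b`, `r R = r (Y Z)`, `deg R < d`.
`tri` with `U = Y Z b1`, `V = a1 Z`, `T = R b1`; `P D1' = Y b1 - a1`, `D1 = Z D1'`,
`deg D1' ≤ deg Y + e2 - d`; `P D3' = Y Z - R`, `D1 + D2 = b1 D3'`, `deg D3' ≤ deg (Y Z) - d`;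
`P D2 = a1 Z - R b1`, `deg D2 ≤ max (e1 + deg Z) (d - 1 + e2) - d < d`.
The two terms on the right of `tri` are
`G f (Z D1') (b1 D3')`, complement `D2`, and (after cancellation, `G_mul`)
`G f (D1' R) (D3' a1)`, complement `D2 Y`.  Heights `≤ d + e2`: both are `0` by `hV`
(`4 deg Z ≤ 3 d` by `dZ`, `dYZ`).
-/

noncomputable section

open Polynomial
open scoped Classical
open Helper11.Gon

namespace SRG

universe u v w

variable {K : Type u} [Field K] {W : Type w} [AddCommGroup W] [Module ℚ W]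
  {k : Type v} [Field k] {p : Pl K k} {s : Sec p} {f : FV (RatFunc K) W} {S : Set K[X]}

private lemma m1_deg {P D X : K[X]} {n : ℕ} (hP : P.Monic) (h : P * D = X)
    (hn : X.natDegree ≤ n) : D.natDegree ≤ n - P.natDegree := by
  by_cases hD : D = 0
  · rw [hD, natDegree_zero]
    exact Nat.zero_le _
  · have h1 : (P * D).natDegree = P.natDegree + D.natDegree := hP.natDegree_mul' hD
    rw [h] at h1
    omega

theorem mod_tri1 (hS : Adm S p.d) (hP : p.P ∉ S) (hV : Van S f (N0 p.d)) {Y Z R : K[X]}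
    (hY : Sm S Y) (hZ : Sm S Z) (hY0 : Y ≠ 0) (hZ0 : Z ≠ 0) (hR0 : R ≠ 0)
    (hR : R.natDegree < p.d) (hr : p.r R = p.r (Y * Z)) (dY : Y.natDegree ≤ p.d)
    (dZ : 2 * Z.natDegree ≤ (Y * Z).natDegree) (dYZ : 2 * (Y * Z).natDegree ≤ 3 * p.d) :
    s.kk f Y + G f (s.a (p.r Y) * Z) (s.b (p.r Y) * R) = G f (Y * Z) R := by
  have hx : p.r Y ≠ 0 := by
    intro h
    exact hY.not_dvd hY0 p.monic p.irr hP ((p.ker Y).1 h)
  have ha0 := s.a_ne _ hx
  have hb0 := s.b_ne _ hx
  have hab := s.eq _ hx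
  have da := s.a_deg (p.r Y)
  have db := s.b_deg (p.r Y)
  have hk : s.kk f Y = G f (Y * s.b (p.r Y)) (s.a (p.r Y)) := rfl
  rw [hk]
  generalize s.a (p.r Y) = A at *
  generalize s.b (p.r Y) = B at *
  have hd : 0 < p.d := p.irr.natDegree_pos
  have hdP : p.P.natDegree = p.d := rfl
  have hdm : (Y * Z).natDegree = Y.natDegree + Z.natDegree := natDegree_mul hY0 hZ0
  have z1 : p.r (Y * B - A) = 0 := by
    rw [map_sub, map_mul, hab, sub_self]
  have z2 : p.r (A * Z - R * B) = 0 := by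
    rw [map_sub, map_mul, map_mul, hab, hr, map_mul]
    ring
  have z3 : p.r (Y * Z - R) = 0 := by
    rw [map_sub, hr, sub_self]
  obtain ⟨D1, h1⟩ := (p.ker _).1 z1
  obtain ⟨D2, h2⟩ := (p.ker _).1 z2
  obtain ⟨D3, h3⟩ := (p.ker _).1 z3
  have hP0 : p.P ≠ 0 := p.irr.ne_zero
  have e1 : D1.natDegree ≤ max (Y.natDegree + B.natDegree) A.natDegree - p.P.natDegree := by
    refine m1_deg p.monic h1.symm ((natDegree_sub_le _ _).trans ?_)
    exact max_le_max natDegree_mul_le le_rfl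
  have e2 : D2.natDegree ≤ max (A.natDegree + Z.natDegree) (R.natDegree + B.natDegree) -
      p.P.natDegree := by
    refine m1_deg p.monic h2.symm ((natDegree_sub_le _ _).trans ?_)
    exact max_le_max natDegree_mul_le natDegree_mul_le
  have e3 : D3.natDegree ≤ max (Y * Z).natDegree R.natDegree - p.P.natDegree :=
    m1_deg p.monic h3.symm (natDegree_sub_le _ _)
  rw [hdP] at e1 e2 e3
  have s1 : Z * D1 + D2 = B * D3 := by
    apply mul_left_cancel₀ hP0
    linear_combination (-Z) * h1 - h2 + B * h3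
  have s2 : D1 * R + D2 * Y = D3 * A := by
    apply mul_left_cancel₀ hP0
    linear_combination (-R) * h1 - Y * h2 + A * h3
  have smA : Sm S A := hS.sm (by omega)
  have smB : Sm S B := hS.sm (by omega)
  have smR : Sm S R := hS.sm hR
  have sm1 : Sm S D1 := hS.sm (by omega)
  have sm2 : Sm S D2 := hS.sm (by omega)
  have sm3 : Sm S D3 := hS.sm (by omega)
  have hN : N0 p.d = p.d - 1 + (3 * (p.d / 2 + 1) + 1) / 2 := rfl
  have m1 : (Z * D1).natDegree ≤ Z.natDegree + D1.natDegree := natDegree_mul_le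
  have m2 : (B * D3).natDegree ≤ B.natDegree + D3.natDegree := natDegree_mul_le
  have m3 : (D1 * R).natDegree ≤ D1.natDegree + R.natDegree := natDegree_mul_le
  have m4 : (D3 * A).natDegree ≤ D3.natDegree + A.natDegree := natDegree_mul_le
  have v1 : G f (Z * D1) (B * D3) = 0 :=
    hV _ _ D2 s1 (hZ.mul sm1) (smB.mul sm3) sm2 (by rw [hN]; omega) (by rw [hN]; omega)
  have v2 : G f (D1 * R) (D3 * A) = 0 :=
    hV _ _ (D2 * Y) s2 (sm1.mul smR) (sm3.mul smA) (sm2.mul hY) (by rw [hN]; omega)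
      (by rw [hN]; omega)
  have key := tri f (U := Y * Z * B) (V := A * Z) (T := R * B) (P := p.P) (D1 := Z * D1)
    (D2 := D2) (mul_ne_zero (mul_ne_zero hY0 hZ0) hb0) (mul_ne_zero ha0 hZ0)
    (mul_ne_zero hR0 hb0) hP0 (by linear_combination Z * h1) (by linear_combination h2)
  rw [s1, v1] at key
  have c1 : G f (Y * Z * B) (A * Z) = G f (Y * B) A := by
    rw [← G_mul f hZ0 (Y * B) A]
    congr 1
    · ring
    · ring
  have c2 : G f (Y * Z * B) (R * B) = G f (Y * Z) R := by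
    rw [← G_mul f hb0 (Y * Z) R]
    congr 1
    · ring
    · ring
  have c3 : G f (Z * D1 * (R * B)) (B * D3 * (A * Z)) = G f (D1 * R) (D3 * A) := by
    rw [← G_mul f (mul_ne_zero hZ0 hb0) (D1 * R) (D3 * A)]
    congr 1
    · ring
    · ring
  rw [c1, c2, c3, v2, mul_comm R B] at key
  linear_combination (norm := module) key

end SRG
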