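import Pool.Agent.SRG.A1

set_option autoImplicit false

/-!
# SRG-11b: the second triangle for `A / R`

`e1 = d / 2`, `e2 = (d - 1) / 2`, `e1 + e2 + 1 = d`; everything of degree `< d` is smooth
(`Adm.sm`).  For smooth nonzero `Y`, `p.r Y ≠ 0` (`Sm.not_dvd`, `p.ker`).
Let `s(Y) = a1/b1`, `s(Z) = a2/b2`, `s(Y Z) = a/b`, `r R = r (Y Z)`, `deg R < d`.
`tri` with `U = a1 Z b2`, `V = a1 a2`, `T = R b1 b2`; `P D1' = Z b2 - a2`, `D1 = a1 D1'`,
`deg D1' ≤ deg Z + e2 - d ≤ e2`;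
`P D3' = a1 Z - R b1`, `D1 + D2 = b2 D3'`, `deg D3' ≤ max (e1 + deg Z) (d - 1 + e2) - d < d`;
`P D2 = a1 a2 - R b1 b2`, `deg D2 ≤ max (2 e1 - d) (2 e2 - 1)`.  The two terms on the right of
`tri` are `G f (a1 D1') (b2 D3')`, complement `D2`, and (after cancellation, `G_mul`)
`G f (D1' R b1) (D3' a2)`, complement `D2 Z`.
The degree of `D1' R b1` is `≤ deg Z + 2 e2 - 1`, of `D3' a2` is
`≤ max (deg Z + 2 e1 - d) (d - 2)`: as `4 deg Z ≤ 3 d` the heights are `≤ N0 d`, and both terms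
are `0` by `hV`.
-/

noncomputable section

open Polynomial
open scoped Classical
open Helper11.Gon

namespace SRG

universe u v w

variable {K : Type u} [Field K] {W : Type w} [AddCommGroup W] [Module ℚ W]
  {k : Type v} [Field k] {p : Pl K k} {s : Sec p} {f : FV (RatFunc K) W} {S : Set K[X]}

private lemma m2_div (p : Pl K k) {A B X Y : K[X]} (h : p.r (A * B) = p.r (X * Y)) :
    ∃ D : K[X], A * B - X * Y = p.P * D := by
  have h1 : p.r (A * B - X * Y) = 0 := by rw [map_sub, h, sub_self]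
  exact (p.ker _).1 h1

private lemma m2_deg (p : Pl K k) {X D : K[X]} (h : X = p.P * D) {m : ℕ}
    (hX : X.natDegree ≤ m) : D.natDegree ≤ m - p.d := by
  by_cases hD : D = 0
  · rw [hD, natDegree_zero]
    exact Nat.zero_le _
  · have h1 : X.natDegree = p.P.natDegree + D.natDegree := by
      rw [h, natDegree_mul p.monic.ne_zero hD]
    have h2 : p.P.natDegree = p.d := rfl
    omega

private lemma m2_sub {A B : K[X]} {m n : ℕ} (hA : A.natDegree ≤ m) (hB : B.natDegree ≤ n) :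
    (A - B).natDegree ≤ max m n :=
  (natDegree_sub_le A B).trans (max_le_max hA hB)

private lemma m2_mul {A B : K[X]} {m n : ℕ} (hA : A.natDegree ≤ m) (hB : B.natDegree ≤ n) :
    (A * B).natDegree ≤ m + n :=
  natDegree_mul_le.trans (Nat.add_le_add hA hB)

theorem mod_tri2 (hS : Adm S p.d) (hP : p.P ∉ S) (hV : Van S f (N0 p.d)) {Y Z R : K[X]}
    (hY : Sm S Y) (hZ : Sm S Z) (hY0 : Y ≠ 0) (hZ0 : Z ≠ 0) (hR0 : R ≠ 0)
    (hR : R.natDegree < p.d) (hr : p.r R = p.r (Y * Z)) (dZ : 4 * Z.natDegree ≤ 3 * p.d) :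
    s.kk f Z + G f (s.a (p.r Y) * s.a (p.r Z)) (s.b (p.r Y) * s.b (p.r Z) * R) =
      G f (s.a (p.r Y) * Z) (s.b (p.r Y) * R) := by
  have hd := p.d_pos
  have hy : p.r Y ≠ 0 := fun h => (Sm.not_dvd hY hY0 p.monic p.irr hP) ((p.ker _).1 h)
  have hz : p.r Z ≠ 0 := fun h => (Sm.not_dvd hZ hZ0 p.monic p.irr hP) ((p.ker _).1 h)
  have a1n := s.a_ne _ hy
  have b1n := s.b_ne _ hy
  have a2n := s.a_ne _ hz
  have b2n := s.b_ne _ hz
  have a1d := s.a_deg (p.r Y)
  have b1d := s.b_deg (p.r Y)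
  have a2d := s.a_deg (p.r Z)
  have b2d := s.b_deg (p.r Z)
  have e1 := s.eq _ hy
  have e2 := s.eq _ hz
  have er : p.r R = p.r Y * p.r Z := by rw [hr, map_mul]
  unfold Sec.kk
  generalize s.a (p.r Y) = a1 at *
  generalize s.b (p.r Y) = b1 at *
  generalize s.a (p.r Z) = a2 at *
  generalize s.b (p.r Z) = b2 at *
  obtain ⟨D1, h1⟩ := m2_div p (A := Z) (B := b2) (X := a2) (Y := 1) (by
    rw [map_mul, map_mul, map_one, mul_one, e2])
  obtain ⟨D3, h3⟩ := m2_div p (A := a1) (B := Z) (X := R) (Y := b1) (by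
    rw [map_mul, map_mul, e1, er]
    ring)
  obtain ⟨D2, h2⟩ := m2_div p (A := a1) (B := a2) (X := R) (Y := b1 * b2) (by
    rw [map_mul, map_mul, map_mul, e1, e2, er]
    ring)
  have hP0 : p.P ≠ 0 := p.monic.ne_zero
  have h4 : a1 * D1 + D2 = b2 * D3 := by
    apply mul_left_cancel₀ hP0
    linear_combination (-a1) * h1 - h2 + b2 * h3
  have key := tri f (U := a1 * Z * b2) (V := a1 * a2) (T := R * b1 * b2) (P := p.P)
    (D1 := a1 * D1) (D2 := D2) (mul_ne_zero (mul_ne_zero a1n hZ0) b2n) (mul_ne_zero a1n a2n)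
    (mul_ne_zero (mul_ne_zero hR0 b1n) b2n) hP0 (by linear_combination a1 * h1)
    (by linear_combination h2)
  -- degrees
  have d1 : D1.natDegree ≤ max (Z.natDegree + (p.d - 1) / 2) (p.d / 2 + 0) - p.d :=
    m2_deg p h1 (m2_sub (m2_mul le_rfl b2d) (m2_mul a2d natDegree_one.le))
  have d3 : D3.natDegree ≤ max (p.d / 2 + Z.natDegree) ((p.d - 1) + (p.d - 1) / 2) - p.d :=
    m2_deg p h3 (m2_sub (m2_mul a1d le_rfl) (m2_mul (Nat.le_sub_one_of_lt hR) b1d))
  have d2 : D2.natDegree ≤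
      max (p.d / 2 + p.d / 2) ((p.d - 1) + ((p.d - 1) / 2 + (p.d - 1) / 2)) - p.d :=
    m2_deg p h2 (m2_sub (m2_mul a1d a2d) (m2_mul (Nat.le_sub_one_of_lt hR) (m2_mul b1d b2d)))
  have sa1 : Sm S a1 := hS.sm (by omega)
  have sb1 : Sm S b1 := hS.sm (by omega)
  have sa2 : Sm S a2 := hS.sm (by omega)
  have sb2 : Sm S b2 := hS.sm (by omega)
  have sR : Sm S R := hS.sm hR
  have s1 : Sm S D1 := hS.sm (by omega)
  have s2 : Sm S D2 := hS.sm (by omega)
  have s3 : Sm S D3 := hS.sm (by omega)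
  have t1 : G f (a1 * D1) (a1 * D1 + D2) = 0 := by
    refine hV (a1 * D1) (a1 * D1 + D2) D2 rfl (sa1.mul s1) ?_ s2 ?_ ?_
    · rw [h4]
      exact sb2.mul s3
    · refine (m2_mul a1d d1).trans ?_
      unfold N0
      omega
    · rw [h4]
      refine (m2_mul b2d d3).trans ?_
      unfold N0
      omega
  have t2 : G f (a1 * D1 * (R * b1 * b2)) ((a1 * D1 + D2) * (a1 * a2)) = 0 := by
    have q1 : a1 * D1 * (R * b1 * b2) = (a1 * b2) * (D1 * R * b1) := by ring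
    have q2 : (a1 * D1 + D2) * (a1 * a2) = (a1 * b2) * (D3 * a2) := by
      rw [h4]
      ring
    have hc : a1 * b2 ≠ 0 := mul_ne_zero a1n b2n
    rw [q1, q2, G_mul f hc]
    refine hV (D1 * R * b1) (D3 * a2) (D2 * Z) ?_ ((s1.mul sR).mul sb1) (s3.mul sa2)
      (s2.mul hZ) ?_ ?_
    · apply mul_left_cancel₀ hc
      apply mul_left_cancel₀ hP0
      linear_combination (-(a1 * b2 * R * b1)) * h1 - (a1 * b2 * Z) * h2 + (a1 * b2 * a2) * h3
    · refine (m2_mul (m2_mul d1 (Nat.le_sub_one_of_lt hR)) b1d).trans ?_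
      unfold N0
      omega
    · refine (m2_mul d3 a2d).trans ?_
      unfold N0
      omega
  rw [t1, t2, sub_self] at key
  have r1 : G f (a1 * Z * b2) (a1 * a2) = G f (Z * b2) a2 := by
    rw [mul_assoc, G_mul f a1n]
  have r2 : G f (a1 * Z * b2) (R * b1 * b2) = G f (a1 * Z) (b1 * R) := by
    rw [mul_comm (a1 * Z) b2, mul_comm (R * b1) b2, G_mul f b2n, mul_comm R b1]
  have r3 : R * b1 * b2 = b1 * b2 * R := by ring
  rw [r1, r2, r3] at key
  exact sub_eq_zero.1 key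

end SRG
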