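import Pool.Agent.SRG.A1

set_option autoImplicit false

/-!
# SRG-11c: the third triangle for `A / R`

`e1 = d / 2`, `e2 = (d - 1) / 2`, `e1 + e2 + 1 = d`; everything of degree `< d` is smooth
(`Adm.sm`).  For smooth nonzero `Y`, `p.r Y ≠ 0` (`Sm.not_dvd`, `p.ker`).
Let `s(Y) = a1/b1`, `s(Z) = a2/b2`, `s(Y Z) = a/b`, `r R = r (Y Z)`, `deg R < d`.
`tri` with `U = a1 a2 b`, `V = a b1 b2`, `T = R b1 b2 b`; `P D1 = a1 a2 b - a b1 b2`,
`deg D1 ≤ e1 - 1`; `P D2' = a - R b`, `D2 = b1 b2 D2'`, `deg D2' ≤ e2 - 1`;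
`P D3' = a1 a2 - R b1 b2`, `D1 + D2 = b D3'`, `deg D3' ≤ max (2 e1 - d) (2 e2 - 1)` (or they are
`0`).  The two terms on the right of `tri` are `G f D1 (b D3')`, complement `b1 b2 D2'`, and
(after cancellation, `G_mul`) `G f (D1 R) (D3' a)`, complement
`D2' a1 a2`.  Heights `≤ d + e1 - 2`: both are `0` by `hV`.
-/

noncomputable section

open Polynomial
open scoped Classical
open Helper11.Gon

namespace SRG

universe u v w

variable {K : Type u} [Field K] {W : Type w} [AddCommGroup W] [Module ℚ W]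
  {k : Type v} [Field k] {p : Pl K k} {s : Sec p} {f : FV (RatFunc K) W} {S : Set K[X]}

private lemma m3_deg (p : Pl K k) {D X : K[X]} {m : ℕ} (h : X = p.P * D) (hX : X.natDegree ≤ m) :
    D.natDegree ≤ m - p.d := by
  by_cases hD : D = 0
  · rw [hD, natDegree_zero]
    exact Nat.zero_le _
  · have h1 : X.natDegree = p.d + D.natDegree := by
      rw [h, p.monic.natDegree_mul' hD]
      rfl
    omega

private lemma m3_sub {A B : K[X]} {m n l : ℕ} (hA : A.natDegree ≤ m) (hB : B.natDegree ≤ n)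
    (h1 : m ≤ l) (h2 : n ≤ l) : (A - B).natDegree ≤ l :=
  (natDegree_sub_le A B).trans (max_le (hA.trans h1) (hB.trans h2))

private lemma m3_mul {A B : K[X]} {m n : ℕ} (hA : A.natDegree ≤ m) (hB : B.natDegree ≤ n) :
    (A * B).natDegree ≤ m + n :=
  natDegree_mul_le.trans (add_le_add hA hB)

theorem mod_tri3 (hS : Adm S p.d) (hP : p.P ∉ S) (hV : Van S f (N0 p.d)) {Y Z R : K[X]}
    (hY : Sm S Y) (hZ : Sm S Z) (hY0 : Y ≠ 0) (hZ0 : Z ≠ 0) (hR0 : R ≠ 0)
    (hR : R.natDegree < p.d) (hr : p.r R = p.r (Y * Z)) :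
    s.c f (p.r Y) (p.r Z) + G f (s.a (p.r R)) (s.b (p.r R) * R) =
      G f (s.a (p.r Y) * s.a (p.r Z)) (s.b (p.r Y) * s.b (p.r Z) * R) := by
  have hPne : p.P ≠ 0 := p.monic.ne_zero
  have hx : p.r Y ≠ 0 := fun h => hY.not_dvd hY0 p.monic p.irr hP ((p.ker Y).1 h)
  have hy : p.r Z ≠ 0 := fun h => hZ.not_dvd hZ0 p.monic p.irr hP ((p.ker Z).1 h)
  rw [map_mul] at hr
  rw [hr]
  have hxy : p.r Y * p.r Z ≠ 0 := mul_ne_zero hx hy
  unfold Sec.c
  have ea1 := s.eq _ hx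
  have ea2 := s.eq _ hy
  have ea := s.eq _ hxy
  have na1 := s.a_ne _ hx
  have na2 := s.a_ne _ hy
  have na := s.a_ne _ hxy
  have nb1 := s.b_ne _ hx
  have nb2 := s.b_ne _ hy
  have nb := s.b_ne _ hxy
  have da1 := s.a_deg (p.r Y)
  have da2 := s.a_deg (p.r Z)
  have da := s.a_deg (p.r Y * p.r Z)
  have db1 := s.b_deg (p.r Y)
  have db2 := s.b_deg (p.r Z)
  have db := s.b_deg (p.r Y * p.r Z)
  generalize s.a (p.r Y) = a1 at *
  generalize s.a (p.r Z) = a2 at *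
  generalize s.a (p.r Y * p.r Z) = a at *
  generalize s.b (p.r Y) = b1 at *
  generalize s.b (p.r Z) = b2 at *
  generalize s.b (p.r Y * p.r Z) = b at *
  have hd1 : 1 ≤ p.d := by omega
  have hR' : R.natDegree ≤ p.d - 1 := by omega
  obtain ⟨D1, hD1⟩ : p.P ∣ a1 * a2 * b - a * b1 * b2 := by
    rw [← p.ker]
    simp only [map_sub, map_mul, ea1, ea2, ea]
    ring
  obtain ⟨D2, hD2⟩ : p.P ∣ a - R * b := by
    rw [← p.ker]
    simp only [map_sub, map_mul, ea, hr]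
    ring
  obtain ⟨D3, hD3⟩ : p.P ∣ a1 * a2 - R * b1 * b2 := by
    rw [← p.ker]
    simp only [map_sub, map_mul, ea1, ea2, hr]
    ring
  have h12 : D1 + b1 * b2 * D2 = b * D3 := by
    refine mul_left_cancel₀ hPne ?_
    linear_combination - hD1 - b1 * b2 * hD2 + b * hD3
  have h23 : D1 * R + a1 * a2 * D2 = D3 * a := by
    refine mul_left_cancel₀ hPne ?_
    linear_combination - R * hD1 - a1 * a2 * hD2 + a * hD3
  have dD1 : D1.natDegree ≤ (p.d / 2 + p.d / 2 + (p.d - 1) / 2) - p.d :=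
    m3_deg p hD1 (m3_sub (m3_mul (m3_mul da1 da2) db) (m3_mul (m3_mul da db1) db2) le_rfl (by omega))
  have dD2 : D2.natDegree ≤ (p.d / 2 + (p.d - 1) + (p.d - 1) / 2) - p.d :=
    m3_deg p hD2 (m3_sub da (m3_mul hR' db) (by omega) (by omega))
  have dD2' : D2.natDegree ≤ (p.d - 1 + (p.d - 1) / 2) - p.d :=
    m3_deg p hD2 (m3_sub da (m3_mul hR' db) (by omega) (by omega))
  have dD3 : D3.natDegree ≤ max (p.d / 2 + p.d / 2) (p.d - 1 + (p.d - 1) / 2 + (p.d - 1) / 2) - p.d :=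
    m3_deg p hD3 (m3_sub (m3_mul da1 da2) (m3_mul (m3_mul hR' db1) db2)
      (le_max_left _ _) (le_max_right _ _))
  have dD3' : D3.natDegree ≤ p.d - 1 := by
    refine dD3.trans ?_
    omega
  have t := tri f (U := a1 * a2 * b) (V := a * b1 * b2) (T := R * b1 * b2 * b) (P := p.P) (D1 := D1)
    (D2 := b1 * b2 * D2) (mul_ne_zero (mul_ne_zero na1 na2) nb) (mul_ne_zero (mul_ne_zero na nb1) nb2)
    (mul_ne_zero (mul_ne_zero (mul_ne_zero hR0 nb1) nb2) nb) hPne hD1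
    (by linear_combination b1 * b2 * hD2)
  rw [h12] at t
  have sD1 : Sm S D1 := hS.sm (by omega)
  have sD2 : Sm S D2 := hS.sm (by omega)
  have sD3 : Sm S D3 := hS.sm (by omega)
  have sa1 : Sm S a1 := hS.sm (by omega)
  have sa2 : Sm S a2 := hS.sm (by omega)
  have sa : Sm S a := hS.sm (by omega)
  have sb1 : Sm S b1 := hS.sm (by omega)
  have sb2 : Sm S b2 := hS.sm (by omega)
  have sb : Sm S b := hS.sm (by omega)
  have sR : Sm S R := hS.sm hR
  have z1 : G f D1 (b * D3) = 0 := by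
    refine hV D1 (b * D3) (b1 * b2 * D2) h12 sD1 (sb.mul sD3) ((sb1.mul sb2).mul sD2) ?_ ?_
    · unfold N0
      omega
    · refine (m3_mul db dD3).trans ?_
      unfold N0
      omega
  have z2 : G f (D1 * (R * b1 * b2 * b)) (b * D3 * (a * b1 * b2)) = 0 := by
    have h1 := G_mul f (c := b1 * b2 * b) (mul_ne_zero (mul_ne_zero nb1 nb2) nb) (D1 * R) (D3 * a)
    have e1 : D1 * (R * b1 * b2 * b) = b1 * b2 * b * (D1 * R) := by ring
    have e2 : b * D3 * (a * b1 * b2) = b1 * b2 * b * (D3 * a) := by ring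
    rw [e1, e2, h1]
    refine hV (D1 * R) (D3 * a) (a1 * a2 * D2) h23 (sD1.mul sR) (sD3.mul sa)
      ((sa1.mul sa2).mul sD2) ?_ ?_
    · refine (m3_mul dD1 hR.le).trans ?_
      unfold N0
      omega
    · refine (m3_mul dD3 da).trans ?_
      unfold N0
      omega
  have g1 : G f (a * b1 * b2) (R * b1 * b2 * b) = G f a (b * R) := by
    have h1 := G_mul f (c := b1 * b2) (mul_ne_zero nb1 nb2) a (b * R)
    have e1 : a * b1 * b2 = b1 * b2 * a := by ring
    have e2 : R * b1 * b2 * b = b1 * b2 * (b * R) := by ring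
    rw [e1, e2, h1]
  have g2 : G f (a1 * a2 * b) (R * b1 * b2 * b) = G f (a1 * a2) (b1 * b2 * R) := by
    have h1 := G_mul f (c := b) nb (a1 * a2) (b1 * b2 * R)
    have e1 : a1 * a2 * b = b * (a1 * a2) := by ring
    have e2 : R * b1 * b2 * b = b * (b1 * b2 * R) := by ring
    rw [e1, e2, h1]
  have e3 : b1 * b2 * a = a * b1 * b2 := by ring
  rw [z1, z2, g1, g2, sub_zero, sub_eq_zero] at t
  rw [e3]
  exact t

end SRG
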