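import Pool.Agent.SRG.Kk
import Pool.Agent.SRG.M1
import Pool.Agent.SRG.M2
import Pool.Agent.SRG.M3

set_option autoImplicit false

/-!
# SRG-12: `f(A / B) = L(A / B)` for small heights

`G_mod`: `exists_div2` gives `A = Y Z`; `G_mod_tri`, `kk_mul` (`deg Z ≤ d`) give
`G f A R = kk A - kk R`; then `kk_eq` twice, with `p.r A = p.r R` (`p.ker`, `P ∣ A - A %ₘ P`).
`G_low`: let `R = A %ₘ P = B %ₘ P` and apply `tri` to `U = A`, `V = R`, `T = B`:
`A - R = P D1`, `R - B = P D2`, the degrees of `D1`, `D2`, `D1 + D2` are `≤ N - d < d` where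
`3 N ≤ 4 d`; the terms are `G f D1 (D1 + D2)`, complement `D2`, and
`G f (D1 B) ((D1 + D2) R)`, complement `D2 A`; the heights are
`≤ 2 N - d ≤ N0 d` (and `(D1 + D2) R` has degree `≤ N - 1`).  Then `G_mod` for `A` and `B`
(`G_swap`).
-/

noncomputable section

open Polynomial
open scoped Classical
open Helper11.Gon

namespace SRG

universe u v w

variable {K : Type u} [Field K] {W : Type w} [AddCommGroup W] [Module ℚ W]
  {k : Type v} [Field k] {p : Pl K k} {s : Sec p} {f : FV (RatFunc K) W} {S : Set K[X]}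

theorem G_mod_tri (hS : Adm S p.d) (hP : p.P ∉ S) (hV : Van S f (N0 p.d)) {Y Z R : K[X]}
    (hY : Sm S Y) (hZ : Sm S Z) (hY0 : Y ≠ 0) (hZ0 : Z ≠ 0) (hR0 : R ≠ 0)
    (hR : R.natDegree < p.d) (hr : p.r R = p.r (Y * Z)) (dY : Y.natDegree ≤ p.d)
    (dZ : 2 * Z.natDegree ≤ (Y * Z).natDegree) (dYZ : 2 * (Y * Z).natDegree ≤ 3 * p.d) :
    G f (Y * Z) R = s.kk f Y + s.kk f Z + s.c f (p.r Y) (p.r Z) - s.kk f R := by
  have h1 := mod_tri1 (s := s) hS hP hV hY hZ hY0 hZ0 hR0 hR hr dY dZ dYZ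
  have h2 := mod_tri2 (s := s) hS hP hV hY hZ hY0 hZ0 hR0 hR hr (by omega)
  have h3 := mod_tri3 (s := s) hS hP hV hY hZ hY0 hZ0 hR0 hR hr
  have h4 : G f (s.a (p.r R)) (s.b (p.r R) * R) = - s.kk f R := by
    rw [Sec.kk, ← G_swap, mul_comm]
  rw [← h1, ← h2, ← h3, h4]
  abel

private lemma md_not_dvd (hP : p.P ∉ S) {A : K[X]} (hA : Sm S A) (hA0 : A ≠ 0) :
    ¬ p.P ∣ A := hA.not_dvd hA0 p.monic p.irr hP

private lemma md_r (p : Pl K k) (A : K[X]) : p.r (A %ₘ p.P) = p.r A := by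
  have h1 : p.r (p.P * (A /ₘ p.P)) = 0 := (p.ker _).2 (dvd_mul_right _ _)
  have h2 := modByMonic_add_div A p.P
  have h3 : p.r (A %ₘ p.P + p.P * (A /ₘ p.P)) = p.r A := by rw [h2]
  rw [map_add, h1, add_zero] at h3
  exact h3

private lemma md_ne (hP : p.P ∉ S) {A : K[X]} (hA : Sm S A) (hA0 : A ≠ 0) :
    A %ₘ p.P ≠ 0 := by
  intro h
  exact md_not_dvd hP hA hA0 ((modByMonic_eq_zero_iff_dvd p.monic).1 h)

private lemma md_deg (p : Pl K k) (A : K[X]) : (A %ₘ p.P).natDegree < p.d := by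
  have h1 : p.P.natDegree ≠ 0 := ne_of_gt p.irr.natDegree_pos
  by_cases h : A %ₘ p.P = 0
  · rw [h, natDegree_zero]
    exact Nat.pos_of_ne_zero h1
  · exact natDegree_lt_natDegree h (degree_modByMonic_lt A p.monic)

theorem G_mod (hS : Adm S p.d) (hP : p.P ∉ S) (hV : Van S f (N0 p.d)) (D : LData s f)
    {A : K[X]} (hA : Sm S A) (hA0 : A ≠ 0) (dA : 2 * A.natDegree ≤ 3 * p.d) :
    G f A (A %ₘ p.P) = D.L (pl A) - D.L (pl (A %ₘ p.P)) := by
  have hR0 := md_ne hP hA hA0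
  have hRd := md_deg p A
  have hRr := md_r p A
  obtain ⟨Y, Z, hYZ, dY, dZ⟩ := exists_div2 hA0
    (fun Q hQ hQA => hA.bd hS.le hA0 hQ hQA) dA
  have hY0 : Y ≠ 0 := by
    rintro rfl
    exact hA0 (by rw [hYZ, zero_mul])
  have hZ0 : Z ≠ 0 := by
    rintro rfl
    exact hA0 (by rw [hYZ, mul_zero])
  have hY : Sm S Y := hA.dvd hA0 (hYZ ▸ dvd_mul_right Y Z)
  have hZ : Sm S Z := hA.dvd hA0 (hYZ ▸ dvd_mul_left Z Y)
  have e1 : G f (Y * Z) (A %ₘ p.P) =
      s.kk f Y + s.kk f Z + s.c f (p.r Y) (p.r Z) - s.kk f (A %ₘ p.P) := by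
    refine G_mod_tri hS hP hV hY hZ hY0 hZ0 hR0 hRd ?_ dY ?_ ?_
    · rw [hRr, ← hYZ]
    · rw [← hYZ]
      exact dZ
    · rw [← hYZ]
      exact dA
  have e2 : s.kk f (Y * Z) = s.kk f Y + s.kk f Z + s.c f (p.r Y) (p.r Z) := by
    refine kk_mul hS hP hV hY hZ hY0 hZ0 dY (by omega) ?_
    rw [← hYZ]
    exact dA
  rw [← e2, ← hYZ, kk_eq hS hP hV D hA hA0 dA,
    kk_eq hS hP hV D (hS.sm hRd) hR0 (by omega), hRr] at e1
  rw [e1]
  abel

theorem G_low (hS : Adm S p.d) (hP : p.P ∉ S) (hV : Van S f (N0 p.d)) (D : LData s f)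
    {A B : K[X]} (hA : Sm S A) (hB : Sm S B) (hA0 : A ≠ 0) (hB0 : B ≠ 0) (h : p.P ∣ A - B)
    (dA : 3 * A.natDegree ≤ 4 * p.d) (dB : 3 * B.natDegree ≤ 4 * p.d) :
    G f A B = D.L (pl A) - D.L (pl B) := by
  have hd : 0 < p.d := p.irr.natDegree_pos
  have hR0 := md_ne hP hA hA0
  have hRd := md_deg p A
  have eR : A %ₘ p.P = B %ₘ p.P := by
    have h1 : (A - B) %ₘ p.P = 0 := (modByMonic_eq_zero_iff_dvd p.monic).2 h
    rw [sub_modByMonic] at h1
    exact sub_eq_zero.1 h1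
  have gA := G_mod hS hP hV D hA hA0 (by omega)
  have gB := G_mod hS hP hV D hB hB0 (by omega)
  rw [← eR] at gB
  have eA : A - A %ₘ p.P = p.P * (A /ₘ p.P) := by
    have := modByMonic_add_div A p.P
    linear_combination -this
  have eB : A %ₘ p.P - B = p.P * (-(B /ₘ p.P)) := by
    rw [eR]
    have := modByMonic_add_div B p.P
    linear_combination this
  have d1 : (A /ₘ p.P).natDegree = A.natDegree - p.d := natDegree_divByMonic A p.monic
  have d2 : (-(B /ₘ p.P)).natDegree = B.natDegree - p.d := by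
    rw [natDegree_neg]
    exact natDegree_divByMonic B p.monic
  generalize A %ₘ p.P = R at *
  generalize A /ₘ p.P = D1 at *
  generalize -(B /ₘ p.P) = D2 at *
  have d3 : (D1 + D2).natDegree ≤ max D1.natDegree D2.natDegree := natDegree_add_le _ _
  have t := tri (f := f) hA0 hR0 hB0 p.monic.ne_zero eA eB
  have d4 : (D1 + D2).natDegree < p.d := by omega
  have z1 : G f D1 (D1 + D2) = 0 := by
    refine hV D1 (D1 + D2) D2 rfl (hS.sm (by omega)) (hS.sm d4) (hS.sm (by omega)) ?_ ?_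
    · unfold N0
      omega
    · unfold N0
      omega
  have z2 : G f (D1 * B) ((D1 + D2) * R) = 0 := by
    have d5 : (D1 * B).natDegree ≤ D1.natDegree + B.natDegree := natDegree_mul_le
    have d6 : ((D1 + D2) * R).natDegree ≤ (D1 + D2).natDegree + R.natDegree := natDegree_mul_le
    refine hV (D1 * B) ((D1 + D2) * R) (D2 * A) ?_ ((hS.sm (by omega)).mul hB)
      ((hS.sm d4).mul (hS.sm hRd)) ((hS.sm (by omega)).mul hA) ?_ ?_
    · linear_combination D2 * eA - D1 * eB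
    · unfold N0
      omega
    · unfold N0
      omega
  rw [z1, z2, sub_zero, gA, G_swap f R B, gB] at t
  rw [← sub_eq_zero]
  rw [← neg_eq_zero, ← t]
  abel

end SRG
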