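import Pool.Agent.SRG.Main
import Pool.Agent.SRG.Place
import Pool.Agent.Helper14.Gon.Fun

set_option autoImplicit false

/-!
# SRG-24a: five-term functions kill `R_2`

`ex ψ` is the extension of `ψ` to `ℤ[P¹(K)]` with value `0` at `∞`.
`pull0`: `exists_pull` for the closed point `t = c` (`P = X - C c`, `r = evalRingHom c`), with
`spec` of `Helper14.Gon.Iface`.
`ex_R2`: `R 2 K` is generated by `{0}`, `{∞}` and the `α(0) - α(1)`, `α ∈ A 2 (RatFunc K)`
(`R_add_two`, `relFrom`, `A_two`).  Let `φ0`, `φ1` be given by `pull0` for `c = 0, 1` and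
`g = φ0.diff φ1`.  It vanishes on constants, so `rigid0` gives `o` with
`g x = o.O (lg (1 - x)) (lg x)`; so the extension of `g` to `ℤ[P¹(K(t))]` factors through `delta2`
and vanishes at `α`.  (`lg` of `Helper11.Gon` and `Helper14.Gon` have the same definition.)
-/

noncomputable section

open Polynomial
open scoped Classical

namespace SRG

universe u v w

variable {K : Type u} [Field K] {W : Type w} [AddCommGroup W] [Module ℚ W]

/-- The extension of a five-term function to `ℤ[P¹(K)]`. -/
def ex (ψ : FV K W) : Helper14.Gon.ZP K →+ W :=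
  Helper14.Gon.ext (fun x : Helper14.Gon.P1 K => x.elim 0 ψ.g)

theorem pull0 (c : K) (ψ : FV K W) : ∃ φ : FV (RatFunc K) W,
    ∀ x : RatFunc K, φ.g x = (Helper14.Gon.spec c (some x)).elim 0 ψ.g := by
  have hker : ∀ A : K[X], evalRingHom c A = 0 ↔ (X - C c : K[X]) ∣ A := by
    intro A
    rw [coe_evalRingHom, dvd_iff_isRoot, IsRoot.def]
  let p : Pl K K :=
    { P := X - C c
      monic := monic_X_sub_C c
      irr := irreducible_X_sub_C c
      r := evalRingHom c
      surj := fun a => ⟨C a, by simp⟩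
      ker := hker }
  obtain ⟨φ, hφ⟩ := exists_pull p ψ
  refine ⟨φ, fun x => ?_⟩
  have hB : x.denom ≠ 0 := x.denom_ne_zero
  have hdvd : ∀ A : K[X], p.P ∣ A ↔ A.eval c = 0 := by
    intro A
    have := hker A
    rw [coe_evalRingHom] at this
    exact this.symm
  have hcop : ¬ p.P ∣ x.num ∨ ¬ p.P ∣ x.denom := by
    rw [hdvd, hdvd]
    obtain ⟨a, b, hab⟩ := RatFunc.isCoprime_num_denom x
    have hev2 : a.eval c * x.num.eval c + b.eval c * x.denom.eval c = 1 := by
      have := congrArg (eval c) hab
      simpa using this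
    by_contra hcon
    push Not at hcon
    rw [hcon.1, hcon.2] at hev2
    simp at hev2
  obtain ⟨h1, h2⟩ := hφ x.num x.denom hB hcop
  have hG : G φ x.num x.denom = φ.g x := by
    rw [G, RatFunc.num_div_denom]
  rw [hG, hdvd] at h1 h2
  simp only [Helper14.Gon.spec]
  by_cases hc : x.denom.eval c = 0
  · rw [if_pos hc, h1 hc]; rfl
  · rw [if_neg hc, h2 hc]; rfl

/-- The alternating map given by an alternating form. -/
private def r2_alt {F : Type v} [Field F] (o : Helper11.Gon.AF F W) :
    (Additive Fˣ) [⋀^Fin 2]→ₗ[ℤ] W where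
  toFun v := o.O (v 0) (v 1)
  map_update_add' := by
    intro _ v i x y
    fin_cases i
    · simp
    · simp
  map_update_smul' := by
    intro _ v i m x
    fin_cases i
    · simp
    · simp
  map_eq_zero_of_eq' := by
    intro v i j hij hne
    have h01 : v 0 = v 1 := by
      fin_cases i <;> fin_cases j
      · exact absurd rfl hne
      · exact hij
      · exact hij.symm
      · exact absurd rfl hne
    change o.O (v 0) (v 1) = 0
    rw [h01]
    exact o.alt _

/-- The homomorphism on the exterior square given by an alternating form. -/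
private def r2_L {F : Type v} [Field F] (o : Helper11.Gon.AF F W) :
    Helper14.Gon.L2 F →+ W :=
  (exteriorPower.alternatingMapLinearEquiv (r2_alt o)).toAddMonoidHom

private lemma r2_L_wdg {F : Type v} [Field F] (o : Helper11.Gon.AF F W)
    (a b : Additive Fˣ) : r2_L o (Helper14.Gon.wdg a b) = o.O a b := by
  change exteriorPower.alternatingMapLinearEquiv (r2_alt o)
    (exteriorPower.ιMulti ℤ 2 ![a, b]) = o.O a b
  rw [exteriorPower.alternatingMapLinearEquiv_apply_ιMulti]
  rfl

private lemma r2_spec {c : K} {ψ : FV K W} {φ : FV (RatFunc K) W}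
    (h : ∀ x : RatFunc K, φ.g x = (Helper14.Gon.spec c (some x)).elim 0 ψ.g)
    (α : Helper14.Gon.ZP (RatFunc K)) :
    ex ψ (Helper14.Gon.specZ c α) =
      Helper14.Gon.ext (fun x : Helper14.Gon.P1 (RatFunc K) => x.elim 0 φ.g) α := by
  have e : (ex ψ).comp (Helper14.Gon.specZ c) =
      Helper14.Gon.ext (fun x : Helper14.Gon.P1 (RatFunc K) => x.elim 0 φ.g) := by
    refine Helper14.Gon.hom_ext fun x => ?_
    rw [AddMonoidHom.comp_apply, Helper14.Gon.specZ_single, ex,
      Helper14.Gon.ext_single, Helper14.Gon.ext_single]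
    cases x with
    | none => rfl
    | some x =>
      congr 1
      exact (h x).symm
  exact DFunLike.congr_fun e α

theorem ex_R2 (ψ : FV K W) {r : Helper14.Gon.ZP K} (hr : r ∈ Helper14.Gon.R 2 K) :
    ex ψ r = 0 := by
  obtain ⟨φ0, h0⟩ := pull0 (0 : K) ψ
  obtain ⟨φ1, h1⟩ := pull0 (1 : K) ψ
  have hconst : ∀ c : K, (φ0.diff φ1).g (RatFunc.C c) = 0 := by
    intro c
    change φ0.g (RatFunc.C c) - φ1.g (RatFunc.C c) = 0
    rw [h0, h1, Helper14.Gon.spec_C, Helper14.Gon.spec_C, sub_self]
  obtain ⟨o, -, ho⟩ := rigid0 (φ0.diff φ1) hconst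
  have key : ∀ α : Helper14.Gon.ZP (RatFunc K),
      ex ψ (Helper14.Gon.specZ 0 α - Helper14.Gon.specZ 1 α) =
        r2_L o (Helper14.Gon.delta2 (RatFunc K) α) := by
    intro α
    rw [map_sub, r2_spec h0, r2_spec h1]
    have e : Helper14.Gon.ext (fun x : Helper14.Gon.P1 (RatFunc K) => x.elim 0 φ0.g) -
        Helper14.Gon.ext (fun x : Helper14.Gon.P1 (RatFunc K) => x.elim 0 φ1.g) =
        (r2_L o).comp (Helper14.Gon.delta2 (RatFunc K)) := by
      refine Helper14.Gon.hom_ext fun x => ?_
      rw [AddMonoidHom.sub_apply, Helper14.Gon.ext_br, Helper14.Gon.ext_br,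
        AddMonoidHom.comp_apply, Helper14.Gon.delta2, Helper14.Gon.ext_br]
      cases x with
      | none =>
        change (0 : W) - 0 = r2_L o 0
        rw [map_zero, sub_zero]
      | some x =>
        change φ0.g x - φ1.g x = r2_L o (Helper14.Gon.wdg _ _)
        rw [r2_L_wdg]
        exact ho x
    exact DFunLike.congr_fun e α
  have hle : Helper14.Gon.R 2 K ≤ (ex ψ).ker := by
    rw [Helper14.Gon.R_add_two 0, Helper14.Gon.relFrom, AddSubgroup.closure_le]
    rintro ξ ((hξ | hξ) | ⟨α, hα, rfl⟩)
    · subst hξ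
      change ex ψ (Helper14.Gon.br (some 0)) = 0
      rw [ex, Helper14.Gon.ext_br]
      exact ψ.zero
    · rw [Set.mem_singleton_iff] at hξ
      subst hξ
      change ex ψ (Helper14.Gon.br none) = 0
      rw [ex, Helper14.Gon.ext_br]
      rfl
    · change ex ψ (Helper14.Gon.specZ 0 α - Helper14.Gon.specZ 1 α) = 0
      rw [key α]
      have h3 : Helper14.Gon.delta2 (RatFunc K) α = 0 := by
        have h4 : α ∈ Helper14.Gon.A 2 (RatFunc K) := hα
        rw [Helper14.Gon.A_two] at h4
        exact h4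
      rw [h3, map_zero]
  exact hle hr

end SRG
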