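import Pool.Agent.SRG.Tri
import Pool.Agent.SRG.Pade3
import Pool.Agent.SRG.Div

set_option autoImplicit false

/-!
# SRG-15a: raising the height, the induction step

All of `A`, `B`, `C` are nonzero, pairwise coprime (as `A`, `B` are coprime), the maximum of their
degrees is `N' = N + 1`, and at least two of them have degree `N'`.  By `exists_div` (`Sm.bd`)
write `A = A0 A1`, `B = B0 B1`, `C = C0 C1` with formal degrees `a`, `b`, `c` in `(m/2, m]`.
Let `D = (a + b + c) / 2 ≤ 3 m / 2 < N'`.  `pade3` (`p0 = A0`, `q0 = B0`, `r0 = C0`; all the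
inequalities hold as `a, b, c` are in `(m/2, m]`, and at most one of `A`, `B`, `C` has degree
`< N'`) gives `A0 u + C0 w = B0 v` with nonzero `u`, `v`, `w` of degrees `≤ D - a`, `D - b`,
`D - c`, which are `≤ m - 1 ≤ M`, so smooth.  `exists_F` (`p = A0`, `q = B0`, `r = C0`) gives `F`,
and `deg F ≤ N' + D - (a + b + c) ≤ M`
(from `C0 F = v A1 - u B1`: the degrees on the right are `≤ N' - a + D - b` resp.
`N' - b + D - a`; if `deg C0 < c` then `deg C < N'`, so `deg B = N'`, `deg B0 = b`, and one uses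
`B0 F = A1 w - C1 u` instead), so `F` is smooth (or `0`).  In `five3` the first term on the right
has height `≤ D ≤ 3 m / 2` (it is `0` by `hV`), the others have height `≤ N` (as `D < a + b`,
`D < a + c`, `D < b + c`), they are `0` by `ih`.
-/

noncomputable section

open Polynomial
open scoped Classical
open Helper11.Gon

namespace SRG

universe u v w

variable {K : Type u} [Field K] {W : Type w} [AddCommGroup W] [Module ℚ W]

private lemma raises_mul {p q : K[X]} {a b : ℕ} (hp : p.natDegree ≤ a) (hq : q.natDegree ≤ b) :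
    (p * q).natDegree ≤ a + b := natDegree_mul_le.trans (add_le_add hp hq)

private lemma raises_F {r F X Y : K[X]} {c e : ℕ} (hr : r ≠ 0) (hF : F ≠ 0) (hc : r.natDegree = c)
    (h : X + r * F = Y) (hX : X.natDegree ≤ e) (hY : Y.natDegree ≤ e) : c + F.natDegree ≤ e := by
  have h1 : r * F = Y - X := by rw [← h]; ring
  have h2 : (r * F).natDegree ≤ e := by
    rw [h1]
    exact (natDegree_sub_le _ _).trans (max_le hY hX)
  rw [natDegree_mul hr hF, hc] at h2
  exact h2

private lemma raises_two {A B C : K[X]} {n : ℕ} (hs : A + C = B) (dA : A.natDegree ≤ n)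
    (dB : B.natDegree ≤ n) (hn : A.natDegree = n ∨ B.natDegree = n) :
    C.natDegree ≤ n ∧ (A.natDegree = n ∨ C.natDegree = n) ∧ (B.natDegree = n ∨ C.natDegree = n) := by
  have h1 : C = B - A := by rw [← hs]; ring
  have hC : C.natDegree ≤ n := by
    rw [h1]
    exact (natDegree_sub_le _ _).trans (max_le dB dA)
  refine ⟨hC, ?_, ?_⟩
  · by_cases hA : A.natDegree = n
    · exact Or.inl hA
    · right
      have hlt : A.natDegree < B.natDegree := by
        have := hn.resolve_left hA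
        omega
      rw [h1, natDegree_sub_eq_left_of_natDegree_lt hlt]
      exact hn.resolve_left hA
  · by_cases hB : B.natDegree = n
    · exact Or.inl hB
    · right
      have hlt : B.natDegree < A.natDegree := by
        have := hn.resolve_right hB
        omega
      rw [h1, natDegree_sub_eq_right_of_natDegree_lt hlt]
      exact hn.resolve_right hB

/-- The induction step for coprime `A`, `B`, `C` of exact height `N`. -/
theorem raise_step {S : Set K[X]} {m M N : ℕ} (hm : 1 ≤ m) (hM : m ≤ M + 1)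
    (hS1 : ∀ Q ∈ S, Q.natDegree ≤ m) (hS2 : ∀ A : K[X], A.natDegree ≤ M → Sm S A)
    (f : FV (RatFunc K) W) (hV : Van S f (3 * m / 2)) (hN1 : 3 * m / 2 < N + 1)
    (hN2 : N + 1 ≤ M + (3 * (m / 2 + 1) + 1) / 2) (ih : Van S f N) {A B C : K[X]}
    (hs : A + C = B) (hA : Sm S A) (hB : Sm S B) (hC : Sm S C) (hA0 : A ≠ 0) (hB0 : B ≠ 0)
    (hC0 : C ≠ 0) (hAB : IsCoprime A B) (dA : A.natDegree ≤ N + 1) (dB : B.natDegree ≤ N + 1)
    (hN : A.natDegree = N + 1 ∨ B.natDegree = N + 1) : G f A B = 0 := by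
  obtain ⟨dC, hAC', hBC'⟩ := raises_two hs dA dB hN
  have hm2 : m < 2 * (N + 1) := by omega
  obtain ⟨A0, A1, a, eA, a1, a2, a3, a4, a5, a6⟩ := exists_div hA0 hm
    (fun Q hQ h => Sm.bd hS1 hA hA0 hQ h) dA hm2
  obtain ⟨B0, B1, b, eB, b1, b2, b3, b4, b5, b6⟩ := exists_div hB0 hm
    (fun Q hQ h => Sm.bd hS1 hB hB0 hQ h) dB hm2
  obtain ⟨C0, C1, c, eC, c1, c2, c3, c4, c5, c6⟩ := exists_div hC0 hm
    (fun Q hQ h => Sm.bd hS1 hC hC0 hQ h) dC hm2
  have nA0 : A0 ≠ 0 := by rintro rfl; exact hA0 (by rw [eA, zero_mul])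
  have nA1 : A1 ≠ 0 := by rintro rfl; exact hA0 (by rw [eA, mul_zero])
  have nB0 : B0 ≠ 0 := by rintro rfl; exact hB0 (by rw [eB, zero_mul])
  have nB1 : B1 ≠ 0 := by rintro rfl; exact hB0 (by rw [eB, mul_zero])
  have nC0 : C0 ≠ 0 := by rintro rfl; exact hC0 (by rw [eC, zero_mul])
  have nC1 : C1 ≠ 0 := by rintro rfl; exact hC0 (by rw [eC, mul_zero])
  -- coprimality
  have cAC : IsCoprime A C := by
    have h1 : C = B + A * (-1) := by rw [← hs]; ring
    rw [h1]
    exact hAB.add_mul_left_right (-1)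
  have cBC : IsCoprime B C := by
    have h1 : C = -A + B * 1 := by rw [← hs]; ring
    rw [h1]
    exact (hAB.symm.neg_right).add_mul_left_right 1
  have kAB : IsCoprime A0 B0 := by
    rw [eA, eB] at hAB
    exact (hAB.of_mul_left_left).of_mul_right_left
  have kAC : IsCoprime A0 C0 := by
    rw [eA, eC] at cAC
    exact (cAC.of_mul_left_left).of_mul_right_left
  have kBC : IsCoprime B0 C0 := by
    rw [eB, eC] at cBC
    exact (cBC.of_mul_left_left).of_mul_right_left
  -- degrees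
  have sAB : A0.natDegree = a ∨ B0.natDegree = b := hN.imp a6 b6
  have sAC : A0.natDegree = a ∨ C0.natDegree = c := hAC'.imp a6 c6
  have sBC : B0.natDegree = b ∨ C0.natDegree = c := hBC'.imp b6 c6
  obtain ⟨D, hD⟩ : ∃ D, D = (a + b + c) / 2 := ⟨_, rfl⟩
  have lab : D < a + b := by omega
  have lac : D < a + c := by omega
  have lbc : D < b + c := by omega
  have aD : a ≤ D := by omega
  have bD : b ≤ D := by omega
  have cD : c ≤ D := by omega
  obtain ⟨u, v, w, hu, hv, hw, du, dv, dw, h⟩ := pade3 nA0 nB0 nC0 a4 b4 c4 (by omega) aD bD cD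
    kAB kAC kBC sAB sAC sBC lab lac lbc
  have D3 : D ≤ 3 * m / 2 := by omega
  have sU : Sm S u := hS2 u (by omega)
  have sV : Sm S v := hS2 v (by omega)
  have sW : Sm S w := hS2 w (by omega)
  obtain ⟨F, f1, f2, f3⟩ := exists_F nC0 kBC eA eB eC hs h
  have sA0 : Sm S A0 := Sm.dvd hA hA0 ⟨A1, eA⟩
  have sA1 : Sm S A1 := Sm.dvd hA hA0 ⟨A0, by rw [eA]; ring⟩
  have sB0 : Sm S B0 := Sm.dvd hB hB0 ⟨B1, eB⟩
  have sB1 : Sm S B1 := Sm.dvd hB hB0 ⟨B0, by rw [eB]; ring⟩
  have sC0 : Sm S C0 := Sm.dvd hC hC0 ⟨C1, eC⟩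
  have sC1 : Sm S C1 := Sm.dvd hC hC0 ⟨C0, by rw [eC]; ring⟩
  have g1 : (u * B1).natDegree ≤ (D - a) + (N + 1 - b) := raises_mul du b5
  have g2 : (v * A1).natDegree ≤ (D - b) + (N + 1 - a) := raises_mul dv a5
  have g3 : (C1 * u).natDegree ≤ (N + 1 - c) + (D - a) := raises_mul c5 du
  have g4 : (A1 * w).natDegree ≤ (N + 1 - a) + (D - c) := raises_mul a5 dw
  have g5 : (C1 * v).natDegree ≤ (N + 1 - c) + (D - b) := raises_mul c5 dv
  have g6 : (B1 * w).natDegree ≤ (N + 1 - b) + (D - c) := raises_mul b5 dw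
  have g7 : (A0 * u).natDegree ≤ a + (D - a) := raises_mul a4 du
  have g8 : (B0 * v).natDegree ≤ b + (D - b) := raises_mul b4 dv
  have sF : Sm S F := by
    by_cases hF : F = 0
    · rw [hF]
      exact sm_zero S
    · apply hS2
      rcases sBC with hb | hc
      · have := raises_F nB0 hF hb f2 (e := D + (N + 1) - a - c) (by omega) (by omega)
        omega
      · have := raises_F nC0 hF hc f1 (e := D + (N + 1) - a - b) (by omega) (by omega)
        omega
  rw [five3 f nA0 nB0 nC0 hu hv hw nA1 nB1 nC1 eA eB eC hs h]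
  rw [hV (A0 * u) (B0 * v) (C0 * w) h (sA0.mul sU) (sB0.mul sV) (sC0.mul sW) (by omega) (by omega),
    ih (u * B1) (v * A1) (C0 * F) f1 (sU.mul sB1) (sV.mul sA1) (sC0.mul sF) (by omega) (by omega),
    ih (C1 * u) (A1 * w) (B0 * F) f2 (sC1.mul sU) (sA1.mul sW) (sB0.mul sF) (by omega) (by omega),
    ih (C1 * v) (B1 * w) (A0 * F) f3 (sC1.mul sV) (sB1.mul sW) (sA0.mul sF) (by omega) (by omega)]
  simp

end SRG
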