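import Pool.Agent.SRG.Tri
import Pool.Agent.SRG.Pade

set_option autoImplicit false

/-!
# SRG-23a: five-term functions vanishing at the elements which are `1` modulo `P`

Write `e1 = d / 2`, `e2 = (d - 1) / 2`.  `small`: let `A + C = B` be smooth of degree
`≤ d + e2`, `ξ = r A / r B` (not `0`, `1`), `y = a / b = s(ξ)`.  The five-term relation for
`x = A / B` and `y` (if `x ≠ y`): `y / x = a B / (b A)`, `(1 - x) / (1 - y) = C b / ((b - a) B)`,
`(1 - x⁻¹) / (1 - y⁻¹) = C a / ((b - a) A)`; `P` divides the differences of numerator and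
denominator, the quotient by `P` is (up to sign) the same polynomial `(A b - a B) / P`
of degree `≤ d + e2 + e1 - d < d`, so smooth: the three values are `0` by `h`
(`b - a ≠ 0` as `ξ ≠ 1`, of degree `< d`, smooth).
(`five3` with `A' = A`, `B' = B`, `C' = C`, `p = q = r = 1`, `u = a`, `v = b`, `w = b - a` is this
relation.)
-/

noncomputable section

open Polynomial
open scoped Classical
open Helper11.Gon

namespace SRG

universe u v w

variable {K : Type u} [Field K] {W : Type w} [AddCommGroup W] [Module ℚ W]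
  {k : Type v} [Field k] {p : Pl K k} {S : Set K[X]}

theorem small (s : Sec p) (hS : Adm S p.d) (hP : p.P ∉ S) (f : FV (RatFunc K) W)
    (h : ∀ A B C : K[X], A ≠ 0 → B ≠ 0 → Sm S A → Sm S B → Sm S C → A - B = p.P * C →
      G f A B = 0) {A B C : K[X]} (hs : A + C = B) (hA0 : A ≠ 0) (hB0 : B ≠ 0) (hC0 : C ≠ 0)
    (hA : Sm S A) (hB : Sm S B) (hC : Sm S C) (dA : A.natDegree ≤ p.d + (p.d - 1) / 2)
    (dB : B.natDegree ≤ p.d + (p.d - 1) / 2) :
    G f A B = G f (s.a (p.r A / p.r B)) (s.b (p.r A / p.r B)) := by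
  have hd := p.d_pos
  have nA : p.r A ≠ 0 := fun e => hA.not_dvd hA0 p.monic p.irr hP ((p.ker A).1 e)
  have nB : p.r B ≠ 0 := fun e => hB.not_dvd hB0 p.monic p.irr hP ((p.ker B).1 e)
  have nC : p.r C ≠ 0 := fun e => hC.not_dvd hC0 p.monic p.irr hP ((p.ker C).1 e)
  have nx : p.r A / p.r B ≠ 0 := div_ne_zero nA nB
  obtain ⟨x, hx⟩ : ∃ x, x = p.r A / p.r B := ⟨_, rfl⟩
  have hxB : x * p.r B = p.r A := by rw [hx, div_mul_cancel₀ _ nB]
  rw [← hx] at nx ⊢
  have a0 := s.a_ne x nx
  have b0 := s.b_ne x nx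
  have da := s.a_deg x
  have db := s.b_deg x
  have he := s.eq x nx
  have rb : p.r (s.b x) ≠ 0 := Pl.ne b0 (by omega)
  have w0 : s.b x - s.a x ≠ 0 := by
    intro e
    have e1 : p.r (s.b x) = p.r (s.a x) := by rw [sub_eq_zero.1 e]
    rw [he] at e1
    have e2 : x = 1 := by
      have e3 : (x - 1) * p.r (s.b x) = 0 := by linear_combination -e1
      exact sub_eq_zero.1 ((mul_eq_zero.1 e3).resolve_right rb)
    rw [e2, one_mul] at hxB
    apply nC
    have e4 : p.r A + p.r C = p.r B := by rw [← map_add, hs]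
    linear_combination e4 + hxB
  have dw : (s.b x - s.a x).natDegree < p.d := by
    have h1 := natDegree_sub_le (s.b x) (s.a x)
    have h2 : max (s.b x).natDegree (s.a x).natDegree < p.d := max_lt (by omega) (by omega)
    omega
  have sa : Sm S (s.a x) := hS.sm (by omega)
  have sb : Sm S (s.b x) := hS.sm (by omega)
  have sw : Sm S (s.b x - s.a x) := hS.sm dw
  obtain ⟨E, hE⟩ : p.P ∣ s.a x * B - s.b x * A := by
    rw [← p.ker, map_sub, map_mul, map_mul, he]
    linear_combination p.r (s.b x) * hxB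
  have dE : E.natDegree < p.d := by
    rcases eq_or_ne E 0 with e0 | e0
    · rw [e0, natDegree_zero]
      omega
    have h1 := natDegree_mul p.irr.ne_zero e0
    rw [← hE] at h1
    have h2 := natDegree_sub_le (s.a x * B) (s.b x * A)
    have h3 := natDegree_mul_le (p := s.a x) (q := B)
    have h4 := natDegree_mul_le (p := s.b x) (q := A)
    have h5 : max (s.a x * B).natDegree (s.b x * A).natDegree ≤
        p.d / 2 + (p.d + (p.d - 1) / 2) := max_le (by omega) (by omega)
    have h6 : p.d = p.P.natDegree := rfl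
    omega
  have sE : Sm S E := hS.sm dE
  have key := five3 f (A := A) (B := B) (C := C) (A' := A) (B' := B) (C' := C) (p := 1) (q := 1)
    (r := 1) (u := s.a x) (v := s.b x) (w := s.b x - s.a x) one_ne_zero one_ne_zero one_ne_zero
    a0 b0 w0 hA0 hB0 hC0 (one_mul A).symm (one_mul B).symm (one_mul C).symm hs (by ring)
  rw [one_mul, one_mul] at key
  rw [key, h (s.a x * B) (s.b x * A) E (mul_ne_zero a0 hB0) (mul_ne_zero b0 hA0) (sa.mul hB)
    (sb.mul hA) sE hE, h (C * s.a x) (A * (s.b x - s.a x)) E (mul_ne_zero hC0 a0)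
    (mul_ne_zero hA0 w0) (hC.mul sa) (hA.mul sw) sE (by rw [← hE, ← hs]; ring),
    h (C * s.b x) (B * (s.b x - s.a x)) E (mul_ne_zero hC0 b0) (mul_ne_zero hB0 w0) (hC.mul sb)
    (hB.mul sw) sE (by rw [← hE, ← hs]; ring)]
  rw [sub_zero, add_zero, sub_zero]

end SRG
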