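import Pool.Agent.SRG.Red1

set_option autoImplicit false

/-!
# SRG-23b: the five-term function on the residue field

`bar`: `ψ(ξ) = f(s(ξ))` for `ξ ≠ 0, 1`, and `ψ(0) = ψ(1) = 0`; five-term relation: for
`ξ ≠ η` use the five-term relation for `s(ξ)`, `s(η)`: the three other elements are smooth of height
`≤ max (e1 + e2) (2 e1) ≤ d + e2` (`e1 = d / 2`, `e2 = (d - 1) / 2`), so `small` gives their values
(numerators, denominators and their differences have degree `≤ d` and are products of polynomials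
of degree `< d`, or of degree `< d`); the same for `inv`
(`1 / s(ξ)` has height `≤ e1`) and `sub`.
-/

noncomputable section

open Polynomial
open scoped Classical
open Helper11.Gon

namespace SRG

universe u v w

variable {K : Type u} [Field K] {W : Type w} [AddCommGroup W] [Module ℚ W]
  {k : Type v} [Field k] {p : Pl K k} {S : Set K[X]}

private lemma red2_dpos (p : Pl K k) : 0 < p.d := p.irr.natDegree_pos

private lemma red2_r_ne {A : K[X]} (h0 : A ≠ 0) (hd : A.natDegree < p.d) : p.r A ≠ 0 := by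
  intro h
  have h1 := Polynomial.natDegree_le_of_dvd ((p.ker A).1 h) h0
  unfold Pl.d at hd
  omega

private lemma red2_key (s : Sec p) (hS : Adm S p.d) (hP : p.P ∉ S) (f : FV (RatFunc K) W)
    (h : ∀ A B C : K[X], A ≠ 0 → B ≠ 0 → Sm S A → Sm S B → Sm S C → A - B = p.P * C →
      G f A B = 0) {A B C : K[X]} (z : k) (hz0 : z ≠ 0) (hz1 : z ≠ 1) (hs : A + C = B)
    (hrB : p.r B ≠ 0) (hrA : p.r A = z * p.r B)
    (hA : Sm S A) (hB : Sm S B) (hC : Sm S C) (dA : A.natDegree ≤ p.d + (p.d - 1) / 2)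
    (dB : B.natDegree ≤ p.d + (p.d - 1) / 2) :
    G f A B = G f (s.a z) (s.b z) := by
  have hA0 : A ≠ 0 := by
    rintro rfl
    rw [map_zero] at hrA
    exact mul_ne_zero hz0 hrB hrA.symm
  have hB0 : B ≠ 0 := by
    rintro rfl
    exact hrB (map_zero _)
  have hC0 : C ≠ 0 := by
    rintro rfl
    rw [add_zero] at hs
    rw [hs] at hrA
    have : (1 - z) * p.r B = 0 := by
      linear_combination hrA
    rcases mul_eq_zero.1 this with h1 | h1
    · exact hz1 (sub_eq_zero.1 h1).symm
    · exact hrB h1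
  have h1 := small s hS hP f h hs hA0 hB0 hC0 hA hB hC dA dB
  have h2 : p.r A / p.r B = z := by
    rw [hrA, mul_div_cancel_right₀ _ hrB]
  rw [h2] at h1
  exact h1

theorem bar (s : Sec p) (hS : Adm S p.d) (hP : p.P ∉ S) (f : FV (RatFunc K) W)
    (h : ∀ A B C : K[X], A ≠ 0 → B ≠ 0 → Sm S A → Sm S B → Sm S C → A - B = p.P * C →
      G f A B = 0) : ∃ ψ : FV k W, ∀ ξ : k, ξ ≠ 0 → ξ ≠ 1 →
        ψ.g ξ = G f (s.a ξ) (s.b ξ) := by
  have hd := red2_dpos p
  have hab : ∀ x : k, x ≠ 0 → (s.a x).natDegree ≤ p.d / 2 ∧ (s.b x).natDegree ≤ (p.d - 1) / 2 ∧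
      p.r (s.b x) ≠ 0 ∧ p.r (s.a x) ≠ 0 ∧ p.r (s.a x) = x * p.r (s.b x) ∧
      Sm S (s.a x) ∧ Sm S (s.b x) ∧ Sm S (s.a x - s.b x) ∧ Sm S (s.b x - s.a x) ∧
      (s.a x - s.b x).natDegree ≤ p.d / 2 ∧ (s.b x - s.a x).natDegree ≤ p.d / 2 := by
    intro x hx
    have h1 := s.a_deg x
    have h2 := s.b_deg x
    have h3 : (s.a x - s.b x).natDegree ≤ p.d / 2 :=
      (Polynomial.natDegree_sub_le _ _).trans (max_le h1 (by omega))
    have h4 : (s.b x - s.a x).natDegree ≤ p.d / 2 :=
      (Polynomial.natDegree_sub_le _ _).trans (max_le (by omega) h1)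
    exact ⟨h1, h2, red2_r_ne (s.b_ne x hx) (by omega), red2_r_ne (s.a_ne x hx) (by omega),
      s.eq x hx, hS.sm (by omega), hS.sm (by omega), hS.sm (by omega), hS.sm (by omega), h3, h4⟩
  let g : k → W := fun x => if x = 0 ∨ x = 1 then 0 else G f (s.a x) (s.b x)
  have hg : ∀ x : k, x ≠ 0 → x ≠ 1 → g x = G f (s.a x) (s.b x) := by
    intro x h0 h1
    exact if_neg (by rintro (h | h); exacts [h0 h, h1 h])
  have hg0 : ∀ x : k, x = 0 ∨ x = 1 → g x = 0 := fun x hx => if_pos hx
  refine ⟨⟨g, hg0 0 (Or.inl rfl), hg0 1 (Or.inr rfl), ?_, ?_, ?_⟩, hg⟩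
  · intro x
    by_cases hx : x = 0 ∨ x = 1
    · have h1 : x⁻¹ = 0 ∨ x⁻¹ = 1 := by
        rcases hx with rfl | rfl
        · left; exact inv_zero
        · right; exact inv_one
      rw [hg0 _ hx, hg0 _ h1, neg_zero]
    · obtain ⟨h0, h1⟩ := not_or.1 hx
      obtain ⟨d1, d2, rb, ra, re, sa, sb, sab, sba, d3, d4⟩ := hab x h0
      have h1' : x⁻¹ ≠ 1 := fun hh => h1 (inv_eq_one.1 hh)
      rw [hg x h0 h1, hg _ (inv_ne_zero h0) h1', ← G_swap]
      refine (red2_key s hS hP f h (C := s.a x - s.b x) x⁻¹ (inv_ne_zero h0) h1' (by ring) ra ?_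
        sb sa sab (by omega) (by omega)).symm
      rw [re, inv_mul_cancel_left₀ h0]
  · intro x
    by_cases hx : x = 0 ∨ x = 1
    · have h1 : 1 - x = 0 ∨ 1 - x = 1 := by
        rcases hx with rfl | rfl
        · right; exact sub_zero _
        · left; exact sub_self _
      rw [hg0 _ hx, hg0 _ h1, neg_zero]
    · obtain ⟨h0, h1⟩ := not_or.1 hx
      obtain ⟨d1, d2, rb, ra, re, sa, sb, sab, sba, d3, d4⟩ := hab x h0
      have h0' : 1 - x ≠ 0 := fun hh => h1 (sub_eq_zero.1 hh).symm
      have h1' : 1 - x ≠ 1 := fun hh => h0 (by linear_combination -hh)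
      rw [hg x h0 h1, hg _ h0' h1']
      rw [← red2_key s hS hP f h (A := s.b x - s.a x) (B := s.b x) (C := s.a x) (1 - x) h0' h1'
        (by ring) rb (by rw [map_sub, re]; ring) sba sb sa (by omega) (by omega)]
      exact G_compl f (by ring)
  · intro x y hx0 hx1 hy0 hy1 hxy
    obtain ⟨d1, d2, rb, ra, re, sa, sb, sab, sba, d3, d4⟩ := hab x hx0
    obtain ⟨d1', d2', rb', ra', re', sa', sb', sab', sba', d3', d4'⟩ := hab y hy0
    have hx1' : 1 - x ≠ 0 := fun hh => hx1 (sub_eq_zero.1 hh).symm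
    have hy1' : 1 - y ≠ 0 := fun hh => hy1 (sub_eq_zero.1 hh).symm
    have hyx : y - x ≠ 0 := fun hh => hxy (sub_eq_zero.1 hh).symm
    have rab : p.r (s.a x - s.b x) = -(1 - x) * p.r (s.b x) := by
      rw [map_sub, re]; ring
    have rba : p.r (s.b x - s.a x) = (1 - x) * p.r (s.b x) := by
      rw [map_sub, re]; ring
    have rab' : p.r (s.a y - s.b y) = -(1 - y) * p.r (s.b y) := by
      rw [map_sub, re']; ring
    have rba' : p.r (s.b y - s.a y) = (1 - y) * p.r (s.b y) := by
      rw [map_sub, re']; ring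
    have z1 : y / x ≠ 0 := div_ne_zero hy0 hx0
    have z1' : y / x ≠ 1 := fun hh => hxy ((div_eq_one_iff_eq hx0).1 hh).symm
    have e2 : (1 - x⁻¹) / (1 - y⁻¹) = ((1 - x) * y) / (x * (1 - y)) := by
      have : 1 - y⁻¹ ≠ 0 := by
        intro hh
        apply hy1
        have := sub_eq_zero.1 hh
        exact inv_eq_one.1 this.symm
      rw [div_eq_div_iff this (mul_ne_zero hx0 hy1')]
      field_simp
      ring
    have z2 : ((1 - x) * y) / (x * (1 - y)) ≠ 0 :=
      div_ne_zero (mul_ne_zero hx1' hy0) (mul_ne_zero hx0 hy1')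
    have z2' : ((1 - x) * y) / (x * (1 - y)) ≠ 1 := by
      rw [Ne, div_eq_one_iff_eq (mul_ne_zero hx0 hy1')]
      intro hh
      exact hyx (by linear_combination hh)
    have z3 : (1 - x) / (1 - y) ≠ 0 := div_ne_zero hx1' hy1'
    have z3' : (1 - x) / (1 - y) ≠ 1 := by
      rw [Ne, div_eq_one_iff_eq hy1']
      intro hh
      exact hyx (by linear_combination hh)
    have k1 : G f (s.a y * s.b x) (s.b y * s.a x) = G f (s.a (y / x)) (s.b (y / x)) := by
      have dd : (s.b y * s.a x - s.a y * s.b x).natDegree < p.d := by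
        refine lt_of_le_of_lt (Polynomial.natDegree_sub_le _ _) (max_lt ?_ ?_)
        · exact lt_of_le_of_lt Polynomial.natDegree_mul_le (by omega)
        · exact lt_of_le_of_lt Polynomial.natDegree_mul_le (by omega)
      refine red2_key s hS hP f h (C := s.b y * s.a x - s.a y * s.b x) (y / x) z1 z1' (by ring)
        ?_ ?_ (sa'.mul sb) (sb'.mul sa) (hS.sm dd)
        (Polynomial.natDegree_mul_le.trans (by omega))
        (Polynomial.natDegree_mul_le.trans (by omega))
      · rw [map_mul]
        exact mul_ne_zero rb' ra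
      · rw [map_mul, map_mul, re, re']
        field_simp
    have k2 : G f ((s.a x - s.b x) * s.a y) (s.a x * (s.a y - s.b y)) =
        G f (s.a (((1 - x) * y) / (x * (1 - y)))) (s.b (((1 - x) * y) / (x * (1 - y)))) := by
      have dd : (s.b x * s.a y - s.a x * s.b y).natDegree < p.d := by
        refine lt_of_le_of_lt (Polynomial.natDegree_sub_le _ _) (max_lt ?_ ?_)
        · exact lt_of_le_of_lt Polynomial.natDegree_mul_le (by omega)
        · exact lt_of_le_of_lt Polynomial.natDegree_mul_le (by omega)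
      refine red2_key s hS hP f h (C := s.b x * s.a y - s.a x * s.b y) _ z2 z2' (by ring)
        ?_ ?_ (sab.mul sa') (sa.mul sab') (hS.sm dd)
        (Polynomial.natDegree_mul_le.trans (by omega))
        (Polynomial.natDegree_mul_le.trans (by omega))
      · rw [map_mul, rab']
        exact mul_ne_zero ra (mul_ne_zero (neg_ne_zero.2 hy1') rb')
      · rw [map_mul, map_mul, rab, rab', re, re']
        field_simp
    have k3 : G f ((s.b x - s.a x) * s.b y) (s.b x * (s.b y - s.a y)) =
        G f (s.a ((1 - x) / (1 - y))) (s.b ((1 - x) / (1 - y))) := by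
      have dd : (s.a x * s.b y - s.b x * s.a y).natDegree < p.d := by
        refine lt_of_le_of_lt (Polynomial.natDegree_sub_le _ _) (max_lt ?_ ?_)
        · exact lt_of_le_of_lt Polynomial.natDegree_mul_le (by omega)
        · exact lt_of_le_of_lt Polynomial.natDegree_mul_le (by omega)
      refine red2_key s hS hP f h (C := s.a x * s.b y - s.b x * s.a y) _ z3 z3' (by ring)
        ?_ ?_ (sba.mul sb') (sb.mul sba') (hS.sm dd)
        (Polynomial.natDegree_mul_le.trans (by omega))
        (Polynomial.natDegree_mul_le.trans (by omega))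
      · rw [map_mul, rba']
        exact mul_ne_zero rb (mul_ne_zero hy1' rb')
      · rw [map_mul, map_mul, rba, rba']
        field_simp
    rw [e2]
    change g x - g y + g (y / x) - g (((1 - x) * y) / (x * (1 - y))) +
      g ((1 - x) / (1 - y)) = 0
    rw [hg x hx0 hx1, hg y hy0 hy1, hg _ z1 z1', hg _ z2 z2', hg _ z3 z3', ← k1, ← k2, ← k3]
    have nz : ∀ A : K[X], A ≠ 0 → algebraMap K[X] (RatFunc K) A ≠ 0 := fun A hA hh =>
      hA ((IsFractionRing.injective K[X] (RatFunc K)) (by rw [hh, map_zero]))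
    have nza := nz _ (s.a_ne x hx0)
    have nzb := nz _ (s.b_ne x hx0)
    have nza' := nz _ (s.a_ne y hy0)
    have nzb' := nz _ (s.b_ne y hy0)
    have ne1 : s.b x - s.a x ≠ 0 := by
      intro hh
      rw [hh, map_zero] at rba
      exact mul_ne_zero hx1' rb rba.symm
    have ne1' : s.b y - s.a y ≠ 0 := by
      intro hh
      rw [hh, map_zero] at rba'
      exact mul_ne_zero hy1' rb' rba'.symm
    have ne2 : s.a x * s.b y - s.a y * s.b x ≠ 0 := by
      intro hh
      have h1 : p.r (s.a x * s.b y - s.a y * s.b x) = 0 := by rw [hh, map_zero]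
      rw [map_sub, map_mul, map_mul, re, re'] at h1
      have h2 : (y - x) * (p.r (s.b x) * p.r (s.b y)) = 0 := by linear_combination -h1
      exact mul_ne_zero hyx (mul_ne_zero rb rb') h2
    have n1 := nz _ ne1
    have n1' := nz _ ne1'
    have n2 := nz _ ne2
    rw [map_sub] at n1 n1' n2
    rw [map_mul, map_mul] at n2
    set α := algebraMap K[X] (RatFunc K) (s.a x) with hα
    set β := algebraMap K[X] (RatFunc K) (s.b x) with hβ
    set α' := algebraMap K[X] (RatFunc K) (s.a y) with hα'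
    set β' := algebraMap K[X] (RatFunc K) (s.b y) with hβ'
    have X0 : α / β ≠ 0 := div_ne_zero nza nzb
    have X1 : α / β ≠ 1 := by
      rw [Ne, div_eq_one_iff_eq nzb]
      intro hh
      exact n1 (by rw [hh, sub_self])
    have Y0 : α' / β' ≠ 0 := div_ne_zero nza' nzb'
    have Y1 : α' / β' ≠ 1 := by
      rw [Ne, div_eq_one_iff_eq nzb']
      intro hh
      exact n1' (by rw [hh, sub_self])
    have XY : α / β ≠ α' / β' := by
      rw [Ne, div_eq_div_iff nzb nzb']
      intro hh
      exact n2 (by rw [hh, sub_self])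
    have key := f.five _ _ X0 X1 Y0 Y1 XY
    have q1 : α' / β' / (α / β) = (α' * β) / (β' * α) := by
      field_simp
    have q2 : (1 - (α / β)⁻¹) / (1 - (α' / β')⁻¹) = ((α - β) * α') / (α * (α' - β')) := by
      have m1 : α' - β' ≠ 0 := by
        intro hh
        exact n1' (by linear_combination -hh)
      have m2 : 1 - (α' / β')⁻¹ ≠ 0 := by
        rw [inv_div, one_sub_div nza']
        exact div_ne_zero m1 nza'
      rw [div_eq_div_iff m2 (mul_ne_zero nza m1), inv_div, inv_div]
      field_simp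
    have q3 : (1 - α / β) / (1 - α' / β') = ((β - α) * β') / (β * (β' - α')) := by
      have m2 : 1 - α' / β' ≠ 0 := by
        rw [one_sub_div nzb']
        exact div_ne_zero n1' nzb'
      rw [div_eq_div_iff m2 (mul_ne_zero nzb n1')]
      field_simp
    rw [q1, q2, q3] at key
    simp only [G, map_mul, map_sub, ← hα, ← hβ, ← hα', ← hβ']
    exact key

end SRG
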