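import Pool.Agent.SRG.Basic

set_option autoImplicit false

/-!
# SRG-2: the five-term relation for polynomials

`tri`: if `U`, `V`, `T` are distinct this is the five-term relation `f.five` with `x = V / U`,
`y = T / U` (and `f.inv`):  `y / x = T / V`, `(1 - x) / (1 - y) = (U - V) / (U - T)`,
`(1 - x⁻¹) / (1 - y⁻¹) = ((U - V) T) / ((U - T) V)`; cancel `P` with `G_mul`.  If two of them are
equal both sides agree by `f.zero`, `f.one`, `G_swap`.

`five3`: the five-term relation with `x = A / B`, `y = p u / (q v)` if `x ≠ y` (here `x`, `y` are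
not `0`, `1` as `A`, `C`, `u`, `w` are not `0`), `1 - x = C / B`, `1 - y = r w / (q v)`,
`y / x = u B' / (v A')`, `(1 - x) / (1 - y) = C' v / (B' w)`,
`(1 - x⁻¹) / (1 - y⁻¹) = C' u / (A' w)`; if `x = y` then `u B' = v A'`, `C' v = B' w`,
`C' u = A' w` and all the other terms are `f 1 = 0`.

`exists_F`: `q (A' v - B' u) = r (A' w - C' u)` and `r (B' w - C' v) = p (A' v - B' u)`.
-/

noncomputable section

open Polynomial
open scoped Classical
open Helper11.Gon

namespace SRG

universe u v w

variable {K : Type u} [Field K] {W : Type w} [AddCommGroup W] [Module ℚ W]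
  (f : FV (RatFunc K) W)

private lemma tri_ne {A : K[X]} (h : A ≠ 0) : algebraMap K[X] (RatFunc K) A ≠ 0 := fun hc =>
  h ((map_eq_zero_iff _ (RatFunc.algebraMap_injective K)).1 hc)

private lemma tri_inj {A B : K[X]} (h : algebraMap K[X] (RatFunc K) A = algebraMap K[X] (RatFunc K) B) :
    A = B := RatFunc.algebraMap_injective K h

omit [Module ℚ W] in
private lemma tri_G (A B : K[X]) :
    G f A B = f.g (algebraMap K[X] (RatFunc K) A / algebraMap K[X] (RatFunc K) B) := rfl

omit [Module ℚ W] in
private lemma tri_swap (A B : K[X]) : f.g (algebraMap K[X] (RatFunc K) B / algebraMap K[X] (RatFunc K) A) =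
    - f.g (algebraMap K[X] (RatFunc K) A / algebraMap K[X] (RatFunc K) B) := by
  rw [← f.inv, inv_div]

theorem tri {U V T P D1 D2 : K[X]} (hU : U ≠ 0) (hV : V ≠ 0) (hT : T ≠ 0) (hP : P ≠ 0)
    (h1 : U - V = P * D1) (h2 : V - T = P * D2) :
    G f U V + G f V T - G f U T = G f D1 (D1 + D2) - G f (D1 * T) ((D1 + D2) * V) := by
  have h3 : U - T = P * (D1 + D2) := by linear_combination h1 + h2
  by_cases a1 : U = V
  · have e : D1 = 0 := by
      have : P * D1 = 0 := by rw [← h1, a1, sub_self]
      exact (mul_eq_zero.1 this).resolve_left hP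
    rw [e, a1, G_self, zero_mul, G_zero_left, G_zero_left]
    abel
  by_cases a2 : V = T
  · have e : D2 = 0 := by
      have : P * D2 = 0 := by rw [← h2, a2, sub_self]
      exact (mul_eq_zero.1 this).resolve_left hP
    rw [e, a2, G_self, add_zero D1, G_self, G_self]
    abel
  by_cases a3 : U = T
  · have e : D1 + D2 = 0 := by
      have : P * (D1 + D2) = 0 := by rw [← h3, a3, sub_self]
      exact (mul_eq_zero.1 this).resolve_left hP
    rw [e, ← a3, G_self, G_zero_right, zero_mul, G_zero_right, G_swap f V U]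
    abel
  have hD1 : D1 ≠ 0 := by
    rintro rfl
    rw [mul_zero, sub_eq_zero] at h1
    exact a1 h1
  have hD : D1 + D2 ≠ 0 := by
    intro h
    rw [h, mul_zero, sub_eq_zero] at h3
    exact a3 h3
  have nU := tri_ne hU
  have nV := tri_ne hV
  have nT := tri_ne hT
  have nP := tri_ne hP
  have nD1 := tri_ne hD1
  have nD := tri_ne hD
  have m1 : algebraMap K[X] (RatFunc K) U - algebraMap K[X] (RatFunc K) V =
      algebraMap K[X] (RatFunc K) P * algebraMap K[X] (RatFunc K) D1 := by
    rw [← map_sub, ← map_mul, h1]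
  have m3 : algebraMap K[X] (RatFunc K) U - algebraMap K[X] (RatFunc K) T =
      algebraMap K[X] (RatFunc K) P * algebraMap K[X] (RatFunc K) (D1 + D2) := by
    rw [← map_sub, ← map_mul, h3]
  have x0 : algebraMap K[X] (RatFunc K) V / algebraMap K[X] (RatFunc K) U ≠ 0 := div_ne_zero nV nU
  have y0 : algebraMap K[X] (RatFunc K) T / algebraMap K[X] (RatFunc K) U ≠ 0 := div_ne_zero nT nU
  have x1 : algebraMap K[X] (RatFunc K) V / algebraMap K[X] (RatFunc K) U ≠ 1 := by
    intro h
    rw [div_eq_one_iff_eq nU] at h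
    exact a1 (tri_inj h).symm
  have y1 : algebraMap K[X] (RatFunc K) T / algebraMap K[X] (RatFunc K) U ≠ 1 := by
    intro h
    rw [div_eq_one_iff_eq nU] at h
    exact a3 (tri_inj h).symm
  have xy : algebraMap K[X] (RatFunc K) V / algebraMap K[X] (RatFunc K) U ≠
      algebraMap K[X] (RatFunc K) T / algebraMap K[X] (RatFunc K) U := by
    intro h
    exact a2 (tri_inj ((div_left_inj' nU).1 h))
  have key := f.five _ _ x0 x1 y0 y1 xy
  have c1 : algebraMap K[X] (RatFunc K) T / algebraMap K[X] (RatFunc K) U /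
      (algebraMap K[X] (RatFunc K) V / algebraMap K[X] (RatFunc K) U) =
        algebraMap K[X] (RatFunc K) T / algebraMap K[X] (RatFunc K) V := by
    field_simp
  have c2 : (1 - algebraMap K[X] (RatFunc K) V / algebraMap K[X] (RatFunc K) U) /
      (1 - algebraMap K[X] (RatFunc K) T / algebraMap K[X] (RatFunc K) U) =
        algebraMap K[X] (RatFunc K) D1 / algebraMap K[X] (RatFunc K) (D1 + D2) := by
    rw [one_sub_div nU, one_sub_div nU, m1, m3, div_div_div_cancel_right₀ nU,
      mul_div_mul_left _ _ nP]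
  have c3 : (1 - (algebraMap K[X] (RatFunc K) V / algebraMap K[X] (RatFunc K) U)⁻¹) /
      (1 - (algebraMap K[X] (RatFunc K) T / algebraMap K[X] (RatFunc K) U)⁻¹) =
        algebraMap K[X] (RatFunc K) (D1 * T) / algebraMap K[X] (RatFunc K) ((D1 + D2) * V) := by
    rw [inv_div, inv_div, one_sub_div nV, one_sub_div nT, ← neg_sub (algebraMap K[X] (RatFunc K) U),
      ← neg_sub (algebraMap K[X] (RatFunc K) U) (algebraMap K[X] (RatFunc K) T), m1, m3, map_mul, map_mul]
    field_simp
  rw [c1, c2, c3, tri_swap f U V, tri_swap f U T, tri_swap f V T] at key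
  rw [tri_G, tri_G, tri_G, tri_G, tri_G]
  linear_combination (norm := module) -key

theorem five3 {A B C A' B' C' p q r u v w : K[X]} (hp : p ≠ 0) (hq : q ≠ 0) (hr : r ≠ 0)
    (hu : u ≠ 0) (hv : v ≠ 0) (hw : w ≠ 0) (hA' : A' ≠ 0) (hB' : B' ≠ 0) (hC' : C' ≠ 0)
    (hA : A = p * A') (hB : B = q * B') (hC : C = r * C') (hs : A + C = B)
    (h : p * u + r * w = q * v) :
    G f A B = G f (p * u) (q * v) - G f (u * B') (v * A') + G f (C' * u) (A' * w) -
      G f (C' * v) (B' * w) := by
  have e1 : q * (A' * v - B' * u) = r * (A' * w - C' * u) := by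
    subst hA hB hC
    linear_combination (-A') * h + u * hs
  have e2 : r * (B' * w - C' * v) = p * (A' * v - B' * u) := by
    subst hA hB hC
    linear_combination B' * h - v * hs
  by_cases hxy : A' * v = B' * u
  · have e3 : A' * w = C' * u := by
      rw [hxy, sub_self, mul_zero] at e1
      have := (mul_eq_zero.1 e1.symm).resolve_left hr
      exact sub_eq_zero.1 this
    have e4 : B' * w = C' * v := by
      rw [hxy, sub_self, mul_zero] at e2
      have := (mul_eq_zero.1 e2).resolve_left hr
      exact sub_eq_zero.1 this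
    rw [mul_comm u B', mul_comm v A', hxy, G_self, e3, G_self, e4, G_self, sub_zero, add_zero,
      sub_zero]
    have e5 : G f A B = G f ((v * u) * (p * A')) ((v * u) * (q * B')) := by
      rw [G_mul f (mul_ne_zero hv hu), hA, hB]
    have e6 : G f (p * u) (q * v) = G f ((v * A') * (p * u)) ((v * A') * (q * v)) := by
      rw [G_mul f (mul_ne_zero hv hA')]
    rw [e5, e6]
    have e7 : (v * u) * (p * A') = (v * A') * (p * u) := by ring
    have e8 : (v * u) * (q * B') = (v * A') * (q * v) := by
      linear_combination (-(v * q)) * hxy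
    rw [e7, e8]
  have hA0 : A ≠ 0 := by rw [hA]; exact mul_ne_zero hp hA'
  have hB0 : B ≠ 0 := by rw [hB]; exact mul_ne_zero hq hB'
  have hC0 : C ≠ 0 := by rw [hC]; exact mul_ne_zero hr hC'
  have np := tri_ne hp
  have nq := tri_ne hq
  have nr := tri_ne hr
  have nu := tri_ne hu
  have nv := tri_ne hv
  have nw := tri_ne hw
  have nA' := tri_ne hA'
  have nB' := tri_ne hB'
  have nC' := tri_ne hC'
  have nA := tri_ne hA0
  have nB := tri_ne hB0
  have npu := tri_ne (mul_ne_zero hp hu)
  have nqv := tri_ne (mul_ne_zero hq hv)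
  have x0 : algebraMap K[X] (RatFunc K) A / algebraMap K[X] (RatFunc K) B ≠ 0 := div_ne_zero nA nB
  have y0 : algebraMap K[X] (RatFunc K) (p * u) / algebraMap K[X] (RatFunc K) (q * v) ≠ 0 :=
    div_ne_zero npu nqv
  have x1 : algebraMap K[X] (RatFunc K) A / algebraMap K[X] (RatFunc K) B ≠ 1 := by
    intro hc
    rw [div_eq_one_iff_eq nB] at hc
    have := tri_inj hc
    rw [this] at hs
    exact hC0 (by linear_combination hs)
  have y1 : algebraMap K[X] (RatFunc K) (p * u) / algebraMap K[X] (RatFunc K) (q * v) ≠ 1 := by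
    intro hc
    rw [div_eq_one_iff_eq nqv] at hc
    have := tri_inj hc
    rw [this] at h
    exact mul_ne_zero hr hw (by linear_combination h)
  have xy : algebraMap K[X] (RatFunc K) A / algebraMap K[X] (RatFunc K) B ≠
      algebraMap K[X] (RatFunc K) (p * u) / algebraMap K[X] (RatFunc K) (q * v) := by
    intro hc
    rw [div_eq_div_iff nB nqv, ← map_mul, ← map_mul] at hc
    have h5 := tri_inj hc
    rw [hA, hB] at h5
    apply hxy
    apply mul_left_cancel₀ (mul_ne_zero hp hq)
    linear_combination h5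
  have key := f.five _ _ x0 x1 y0 y1 xy
  have sA : algebraMap K[X] (RatFunc K) A =
      algebraMap K[X] (RatFunc K) p * algebraMap K[X] (RatFunc K) A' := by rw [hA, map_mul]
  have sB : algebraMap K[X] (RatFunc K) B =
      algebraMap K[X] (RatFunc K) q * algebraMap K[X] (RatFunc K) B' := by rw [hB, map_mul]
  have m1 : algebraMap K[X] (RatFunc K) B - algebraMap K[X] (RatFunc K) A =
      algebraMap K[X] (RatFunc K) r * algebraMap K[X] (RatFunc K) C' := by
    rw [← map_sub, ← map_mul, ← hC, ← hs, add_sub_cancel_left]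
  have m2 : algebraMap K[X] (RatFunc K) (q * v) - algebraMap K[X] (RatFunc K) (p * u) =
      algebraMap K[X] (RatFunc K) r * algebraMap K[X] (RatFunc K) w := by
    rw [← map_sub, ← map_mul, ← h, add_sub_cancel_left]
  have c1 : algebraMap K[X] (RatFunc K) (p * u) / algebraMap K[X] (RatFunc K) (q * v) /
      (algebraMap K[X] (RatFunc K) A / algebraMap K[X] (RatFunc K) B) =
        algebraMap K[X] (RatFunc K) (u * B') / algebraMap K[X] (RatFunc K) (v * A') := by
    rw [sA, sB, map_mul, map_mul, map_mul, map_mul]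
    field_simp
  have c2 : (1 - algebraMap K[X] (RatFunc K) A / algebraMap K[X] (RatFunc K) B) /
      (1 - algebraMap K[X] (RatFunc K) (p * u) / algebraMap K[X] (RatFunc K) (q * v)) =
        algebraMap K[X] (RatFunc K) (C' * v) / algebraMap K[X] (RatFunc K) (B' * w) := by
    rw [one_sub_div nB, one_sub_div nqv, m1, m2, sB, map_mul, map_mul, map_mul]
    field_simp
  have c3 : (1 - (algebraMap K[X] (RatFunc K) A / algebraMap K[X] (RatFunc K) B)⁻¹) /
      (1 - (algebraMap K[X] (RatFunc K) (p * u) / algebraMap K[X] (RatFunc K) (q * v))⁻¹) =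
        algebraMap K[X] (RatFunc K) (C' * u) / algebraMap K[X] (RatFunc K) (A' * w) := by
    rw [inv_div, inv_div, one_sub_div nA, one_sub_div npu, ← neg_sub (algebraMap K[X] (RatFunc K) B),
      ← neg_sub (algebraMap K[X] (RatFunc K) (q * v)), m1, m2, sA, map_mul, map_mul, map_mul]
    field_simp
  rw [c1, c2, c3] at key
  rw [tri_G, tri_G, tri_G, tri_G, tri_G]
  linear_combination (norm := module) key

theorem exists_F {A B C A' B' C' p q r u v w : K[X]} (hr : r ≠ 0) (hqr : IsCoprime q r)
    (hA : A = p * A') (hB : B = q * B') (hC : C = r * C') (hs : A + C = B)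
    (h : p * u + r * w = q * v) :
    ∃ F : K[X], u * B' + r * F = v * A' ∧ C' * u + q * F = A' * w ∧
      C' * v + p * F = B' * w := by
  have e1 : q * (A' * v - B' * u) = r * (A' * w - C' * u) := by
    subst hA hB hC
    linear_combination (-A') * h + u * hs
  have e2 : r * (B' * w - C' * v) = p * (A' * v - B' * u) := by
    subst hA hB hC
    linear_combination B' * h - v * hs
  have hd : r ∣ A' * v - B' * u := by
    apply hqr.symm.dvd_of_dvd_mul_left
    rw [e1]
    exact dvd_mul_right _ _
  obtain ⟨F, hF⟩ := hd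
  refine ⟨F, by linear_combination -hF, ?_, ?_⟩
  · apply mul_left_cancel₀ hr
    linear_combination e1 - q * hF
  · apply mul_left_cancel₀ hr
    linear_combination -e2 - p * hF

end SRG
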